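import Mathlib

set_option autoImplicit false

open Set Filter Topology Cardinal

namespace Pool.Agent.N485.CcGroup

/-- `ω₁ < 𝔭`: every family of at most `ℵ₁` subsets of `ℕ` all of whose finite
intersections are infinite has an infinite pseudo-intersection. -/
def OmegaOneLtP : Prop :=
  ∀ (I : Type) (F : I → Set ℕ), #I ≤ ℵ₁ → (∀ s : Finset I, (⋂ i ∈ s, F i).Infinite) →
    ∃ A : Set ℕ, A.Infinite ∧ ∀ i, (A \ F i).Finite

/-- Under `ω₁ < 𝔭`, a countably compact subset of a product of at most `ℵ₁`
first countable Hausdorff spaces contains the closure of each of its countable subsets. -/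
theorem closure_subset (hp : OmegaOneLtP) {ι K : Type} (hι : #ι ≤ ℵ₁)
    [TopologicalSpace K] [T2Space K] [FirstCountableTopology K]
    (D : Set (ι → K)) (hD : IsCountablyCompact D) (S : Set (ι → K)) (hSD : S ⊆ D)
    (hS : S.Countable) : closure S ⊆ D := by
  intro x hx
  by_cases hxS : x ∈ S
  · exact hSD hxS
  have hne : S.Nonempty := closure_nonempty_iff.1 ⟨x, hx⟩
  obtain ⟨e, he⟩ := hS.exists_eq_range hne
  have hb : ∀ i, ∃ B : ℕ → Set K, (𝓝 (x i)).HasAntitoneBasis B :=
    fun i => (𝓝 (x i)).exists_antitone_basis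
  choose B hB using hb
  let F : ι × ℕ → Set ℕ := fun q => {k | e k q.1 ∈ B q.1 q.2}
  have hcard : #(ι × ℕ) ≤ ℵ₁ := by
    rw [mk_prod, lift_id, lift_id, mk_nat]
    exact mul_le_of_le (aleph0_le_aleph 1) hι (aleph0_le_aleph 1)
  have hfin : ∀ s : Finset (ι × ℕ), (⋂ q ∈ s, F q).Infinite := by
    intro s hfin
    have hV : (⋂ q ∈ s, {y : ι → K | y q.1 ∈ B q.1 q.2}) ∈ 𝓝 x := by
      rw [Filter.biInter_finset_mem]
      intro q _
      exact (continuous_apply q.1).continuousAt.preimage_mem_nhds
        ((hB q.1).1.mem_of_mem trivial)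
    have hfin' : (e '' (⋂ q ∈ s, F q)).Finite := hfin.image e
    have hx' : x ∉ e '' (⋂ q ∈ s, F q) := by
      rintro ⟨k, _, hk⟩
      apply hxS
      rw [he, ← hk]
      exact ⟨k, rfl⟩
    have hW : (e '' (⋂ q ∈ s, F q))ᶜ ∈ 𝓝 x := hfin'.isClosed.isOpen_compl.mem_nhds hx'
    obtain ⟨y, hy, hyS⟩ := mem_closure_iff_nhds.1 hx _ (inter_mem hV hW)
    rw [he] at hyS
    obtain ⟨k, rfl⟩ := hyS
    apply hy.2
    refine ⟨k, ?_, rfl⟩
    have h1 := hy.1
    simp only [mem_iInter] at h1 ⊢
    intro q hq
    exact h1 q hq
  obtain ⟨A, hA, hAF⟩ := hp (ι × ℕ) F hcard hfin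
  let f : Filter (ι → K) := Filter.map e (cofinite ⊓ 𝓟 A)
  have hne' : NeBot (cofinite ⊓ 𝓟 A) := by
    rw [cofinite_inf_principal_neBot_iff]
    exact hA
  have hnef : NeBot f := hne'.map e
  have hcg : (cofinite : Filter ℕ).IsCountablyGenerated := by
    rw [Nat.cofinite_eq_atTop]; infer_instance
  have hcgf : f.IsCountablyGenerated := by
    have : (cofinite ⊓ 𝓟 A : Filter ℕ).IsCountablyGenerated := inferInstance
    exact Filter.map.isCountablyGenerated _ _
  have hfx : f ≤ 𝓝 x := by
    have : Tendsto e (cofinite ⊓ 𝓟 A) (𝓝 x) := by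
      rw [tendsto_pi_nhds]
      intro i
      rw [(hB i).1.tendsto_right_iff]
      intro n _
      rw [eventually_inf_principal]
      have h1 := hAF (i, n)
      rw [Filter.eventually_cofinite]
      refine h1.subset ?_
      intro k hk
      simp only [mem_ofPred_eq, Classical.not_imp] at hk
      exact ⟨hk.1, hk.2⟩
    exact this
  have hfD : f ≤ 𝓟 D := by
    rw [le_principal_iff]
    refine mem_map.2 (mem_of_superset univ_mem ?_)
    intro k _
    apply hSD
    rw [he]
    exact ⟨k, rfl⟩
  obtain ⟨a, ha, hac⟩ := hD hfD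
  have hac' : ClusterPt a (𝓝 x) := hac.mono hfx
  have hax : a = x := by
    have : NeBot (𝓝 a ⊓ 𝓝 x) := hac'
    exact eq_of_nhds_neBot this
  exact hax ▸ ha

/-- A compact Hausdorff group which is countable is finite. -/
theorem finite_of_countable {G : Type} [AddCommGroup G] [TopologicalSpace G]
    [IsTopologicalAddGroup G] [CompactSpace G] [T2Space G] [Countable G] : Finite G := by
  have h1 : ∃ x : G, (interior {x} : Set G).Nonempty := by
    refine nonempty_interior_of_iUnion_of_closed (f := fun x : G => ({x} : Set G)) ?_ ?_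
    · exact fun x => isClosed_singleton
    · exact iUnion_of_singleton G
  obtain ⟨x, y, hy⟩ := h1
  have hyx : y = x := by
    have := interior_subset hy
    simpa using this
  have hop : IsOpen ({x} : Set G) := by
    rw [← subset_interior_iff_isOpen]
    intro z hz
    rw [mem_singleton_iff] at hz
    rw [hz, ← hyx]
    rw [hyx] at hy ⊢
    exact hy
  have h0 : IsOpen ({0} : Set G) := by
    have := (Homeomorph.addRight (x : G)).continuous.isOpen_preimage _ hop
    convert this using 1
    ext z
    simp
  have hd : DiscreteTopology G := discreteTopology_of_isOpen_singleton_zero h0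
  exact finite_of_compact_of_discrete

/-- Under `ω₁ < 𝔭`, every infinite countably compact subgroup of `K^ι`, `#ι ≤ ℵ₁`, for a compact
metrizable abelian group `K`, contains an uncountable compact subgroup. -/
theorem exists_uncountable (hp : OmegaOneLtP) {ι K : Type} (hι : #ι ≤ ℵ₁)
    [AddCommGroup K] [TopologicalSpace K] [IsTopologicalAddGroup K] [CompactSpace K]
    [T2Space K] [FirstCountableTopology K]
    (D : AddSubgroup (ι → K)) (hD : IsCountablyCompact (D : Set (ι → K)))
    (hinf : (D : Set (ι → K)).Infinite) :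
    ∃ C : AddSubgroup (ι → K), C ≤ D ∧ IsCompact (C : Set (ι → K)) ∧
      ¬ (C : Set (ι → K)).Countable := by
  obtain ⟨T, hTD, hTinf, hTc⟩ : ∃ T : Set (ι → K), T ⊆ D ∧ T.Infinite ∧ T.Countable := by
    obtain ⟨T, hT1, hT2⟩ := Set.Infinite.exists_subset_ncard_eq hinf 0
    have := hinf.to_subtype
    let g := Infinite.natEmbedding (D : Set (ι → K))
    refine ⟨range (fun n => (g n : ι → K)), ?_, ?_, countable_range _⟩
    · rintro _ ⟨n, rfl⟩
      exact (g n).2
    · exact infinite_range_of_injective (Subtype.val_injective.comp g.injective)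
  let S : AddSubgroup (ι → K) := AddSubgroup.closure T
  have hSD : S ≤ D := (AddSubgroup.closure_le D).2 hTD
  have hSc : (S : Set (ι → K)).Countable := by
    have := hTc.to_subtype
    have h1 : (Submodule.span ℤ T : Set (ι → K)) = S := by
      have := Submodule.span_int_eq_addSubgroupClosure T
      change (((Submodule.span ℤ T).toAddSubgroup : AddSubgroup (ι → K)) : Set (ι → K)) = S
      rw [this]
    rw [← h1]
    have h2 : (Submodule.span ℤ T : Set (ι → K)) =
        range (Finsupp.linearCombination ℤ ((↑) : T → (ι → K))) := by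
      rw [← LinearMap.coe_range, Finsupp.range_linearCombination, Subtype.range_coe]
    rw [h2]
    exact countable_range _
  refine ⟨S.topologicalClosure, ?_, ?_, ?_⟩
  · intro x hx
    exact closure_subset hp hι (D : Set (ι → K)) hD (S : Set (ι → K)) hSD hSc hx
  · exact S.isClosed_topologicalClosure.isCompact
  · intro hc
    have : Countable S.topologicalClosure := hc.to_subtype
    have : CompactSpace S.topologicalClosure :=
      isCompact_iff_compactSpace.1 S.isClosed_topologicalClosure.isCompact
    have : Finite S.topologicalClosure := finite_of_countable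
    apply hTinf
    refine Set.Finite.subset (Set.toFinite (S.topologicalClosure : Set (ι → K))) ?_
    exact AddSubgroup.subset_closure.trans S.le_topologicalClosure

end Pool.Agent.N485.CcGroup
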