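import Mathlib
import Pool.Agent.N988.EC.Stm

/-!
# Small perturbations of the couplings
-/

open MeasureTheory Set Filter
open scoped ENNReal Topology
open Pool.Agent.N988.EA Pool.Agent.N988.EZ Pool.Agent.N988.EC

namespace Pool.Agent.N485.EC

noncomputable section

/-- The stable configurations with a margin larger than `1 / (k + 1)`. -/
def B {ι : Type} (D : (ι → ℝ) → ℝ → Prop) (k : ℕ) : Set (ι → ℝ) :=
  {J | ∃ c δ : ℝ, 1 / ((k : ℝ) + 1) < δ ∧ ∀ J', (∀ a, |J' a - J a| < δ) → D J' c}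

theorem B_open {ι : Type} [Fintype ι] (D : (ι → ℝ) → ℝ → Prop) (k : ℕ) : IsOpen (B D k) := by
  rw [Metric.isOpen_iff]
  rintro J ⟨c, δ, hδ, h⟩
  refine ⟨(δ - 1 / ((k : ℝ) + 1)) / 2, by linarith, ?_⟩
  intro J₁ hJ₁
  refine ⟨c, δ - (δ - 1 / ((k : ℝ) + 1)) / 2, by linarith, ?_⟩
  intro J' hJ'
  apply h
  intro a
  have h1 := hJ' a
  have h2 : |J₁ a - J a| < (δ - 1 / ((k : ℝ) + 1)) / 2 := by
    have := lt_of_le_of_lt (dist_le_pi_dist J₁ J a) (Metric.mem_ball.1 hJ₁)
    rwa [Real.dist_eq] at this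
  have h3 : |J' a - J a| ≤ |J' a - J₁ a| + |J₁ a - J a| := by
    have := abs_add_le (J' a - J₁ a) (J₁ a - J a)
    simpa using this
  linarith

theorem B_mono {ι : Type} (D : (ι → ℝ) → ℝ → Prop) : Monotone (B D) := by
  intro k l hkl J hJ
  obtain ⟨c, δ, hδ, h⟩ := hJ
  refine ⟨c, δ, lt_of_le_of_lt ?_ hδ, h⟩
  have : (k : ℝ) ≤ l := by exact_mod_cast hkl
  apply one_div_le_one_div_of_le
  · positivity
  · linarith

theorem B_iUnion {ι : Type} (D : (ι → ℝ) → ℝ → Prop) : (⋃ k, B D k) = {J | Stab D J} := by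
  ext J
  simp only [mem_iUnion, mem_ofPred_eq]
  constructor
  · rintro ⟨k, c, δ, hδ, h⟩
    exact ⟨c, δ, lt_trans (by positivity) hδ, h⟩
  · rintro ⟨c, δ, hδ, h⟩
    obtain ⟨k, hk⟩ := exists_nat_one_div_lt hδ
    exact ⟨k, c, δ, hk, h⟩

theorem t_P1 : S_P1 := by
  intro ι _ μ _ D ε hε
  set P := (Measure.pi fun _ : ι => μ) with hP
  have hε2 : ε / 2 ≠ 0 := by
    intro h
    rw [ENNReal.div_eq_zero_iff] at h
    rcases h with h | h
    · exact hε.ne' h
    · exact absurd h (by norm_num)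
  -- the margin
  obtain ⟨k, hk⟩ : ∃ k : ℕ, P (B D k)ᶜ ≤ P {J | ¬ Stab D J} + ε / 2 := by
    have h1 : Tendsto (P ∘ fun k : ℕ => (B D k)ᶜ) atTop (𝓝 (P (⋂ k, (B D k)ᶜ))) := by
      apply tendsto_measure_iInter_atTop
      · exact fun k => (B_open D k).measurableSet.compl.nullMeasurableSet
      · intro k l hkl
        exact compl_subset_compl.2 (B_mono D hkl)
      · exact ⟨0, measure_ne_top _ _⟩
    have h2 : (⋂ k, (B D k)ᶜ) = {J | ¬ Stab D J} := by
      rw [← compl_iUnion, B_iUnion]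
      rfl
    rw [h2] at h1
    have h3 : P {J | ¬ Stab D J} < P {J | ¬ Stab D J} + ε / 2 :=
      ENNReal.lt_add_right (measure_ne_top _ _) hε2
    obtain ⟨k, hk⟩ := (h1.eventually (gt_mem_nhds h3)).exists
    exact ⟨k, hk.le⟩
  -- the bound of the couplings
  let T : ℕ → Set ((ι → ℝ) × (ι → ℝ)) := fun M => ⋃ a : ι,
    ({q | (M : ℝ) ≤ |q.1 a|} ∪ {q | (M : ℝ) ≤ |q.2 a|})
  have hTm : ∀ M, MeasurableSet (T M) := by
    intro M
    apply MeasurableSet.iUnion
    intro a
    apply MeasurableSet.union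
    · exact measurableSet_le measurable_const
        ((measurable_pi_apply a).comp measurable_fst).abs
    · exact measurableSet_le measurable_const
        ((measurable_pi_apply a).comp measurable_snd).abs
  obtain ⟨M, hM⟩ : ∃ M : ℕ, (P.prod P) (T M) ≤ ε / 2 := by
    have h1 : Tendsto ((P.prod P) ∘ T) atTop (𝓝 ((P.prod P) (⋂ M, T M))) := by
      apply tendsto_measure_iInter_atTop
      · exact fun k => (hTm k).nullMeasurableSet
      · intro k l hkl q hq
        have hkl' : (k : ℝ) ≤ l := by exact_mod_cast hkl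
        simp only [T, mem_iUnion, mem_union, mem_ofPred_eq] at hq ⊢
        obtain ⟨a, ha⟩ := hq
        exact ⟨a, ha.imp (fun h => hkl'.trans h) (fun h => hkl'.trans h)⟩
      · exact ⟨0, measure_ne_top _ _⟩
    have h2 : (⋂ M, T M) = ∅ := by
      rw [eq_empty_iff_forall_notMem]
      intro q hq
      simp only [T, mem_iInter, mem_iUnion, mem_union, mem_ofPred_eq] at hq
      obtain ⟨N, hN⟩ := exists_nat_gt (∑ a, (|q.1 a| + |q.2 a|))
      obtain ⟨a, ha⟩ := hq N
      have h3 : |q.1 a| + |q.2 a| ≤ ∑ a, (|q.1 a| + |q.2 a|) :=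
        Finset.single_le_sum (f := fun a => |q.1 a| + |q.2 a|)
          (fun i _ => by positivity) (Finset.mem_univ a)
      have h4 := abs_nonneg (q.1 a)
      have h5 := abs_nonneg (q.2 a)
      rcases ha with ha | ha <;> linarith
    rw [h2, measure_empty] at h1
    obtain ⟨M, hM⟩ := (h1.eventually (gt_mem_nhds (pos_iff_ne_zero.2 hε2))).exists
    exact ⟨M, hM.le⟩
  -- the choice of `p₀`
  set m : ℝ := 1 / ((k : ℝ) + 1) with hm
  have hm0 : 0 < m := by positivity
  obtain ⟨p₀, hp0, hp1, hpp⟩ : ∃ p₀ : ℝ, 0 < p₀ ∧ p₀ ≤ 1 ∧ ∀ p, 0 < p → p ≤ p₀ →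
      p * M + Real.sqrt (2 * p - p ^ 2) * M < m := by
    have hc : Continuous fun p : ℝ => p * M + Real.sqrt (2 * p - p ^ 2) * M := by fun_prop
    have h1 : Tendsto (fun p : ℝ => p * M + Real.sqrt (2 * p - p ^ 2) * M) (𝓝 0) (𝓝 0) := by
      have := hc.tendsto 0
      simpa using this
    have h2 := h1.eventually (gt_mem_nhds hm0)
    obtain ⟨r, hr, hr'⟩ := Metric.eventually_nhds_iff.1 h2
    refine ⟨min 1 (r / 2), by positivity, min_le_left _ _, ?_⟩
    intro p hp hp2
    apply hr'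
    rw [Real.dist_eq, sub_zero, abs_of_pos hp]
    have := hp2.trans (min_le_right _ _)
    linarith
  refine ⟨p₀, hp0, hp1, ?_⟩
  intro p hp hpp0
  have hsub : {q : (ι → ℝ) × (ι → ℝ) | ¬ ∃ c, D q.1 c ∧ D (pt1 p q) c} ⊆
      ((B D k)ᶜ ×ˢ (univ : Set (ι → ℝ))) ∪ T M := by
    intro q hq
    by_contra hcon
    rw [mem_union, not_or] at hcon
    obtain ⟨hc1, hc2⟩ := hcon
    have hB : q.1 ∈ B D k := by
      by_contra h
      exact hc1 ⟨h, mem_univ _⟩
    obtain ⟨c, δ, hδ, h⟩ := hB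
    apply hq
    refine ⟨c, h _ ?_, h _ ?_⟩
    · intro a
      rw [sub_self, abs_zero]
      exact lt_trans hm0 hδ
    · intro a
      refine lt_trans ?_ hδ
      refine lt_of_le_of_lt ?_ (hpp p hp hpp0)
      simp only [T, mem_iUnion, mem_union, mem_ofPred_eq, not_exists, not_or, not_le] at hc2
      obtain ⟨h1, h2⟩ := hc2 a
      have e1 : pt1 p q a - q.1 a = -(p * q.1 a) + Real.sqrt (2 * p - p ^ 2) * q.2 a := by
        simp only [pt1]; ring
      rw [e1]
      refine (abs_add_le _ _).trans ?_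
      rw [abs_neg, abs_mul, abs_mul, abs_of_pos hp, abs_of_nonneg (Real.sqrt_nonneg _)]
      have h3 := mul_le_mul_of_nonneg_left h1.le hp.le
      have h4 := mul_le_mul_of_nonneg_left h2.le (Real.sqrt_nonneg (2 * p - p ^ 2))
      linarith
  calc (P.prod P) {q | ¬ ∃ c, D q.1 c ∧ D (pt1 p q) c}
      ≤ (P.prod P) (((B D k)ᶜ ×ˢ (univ : Set (ι → ℝ))) ∪ T M) := measure_mono hsub
    _ ≤ (P.prod P) ((B D k)ᶜ ×ˢ (univ : Set (ι → ℝ))) + (P.prod P) (T M) := measure_union_le _ _
    _ = P (B D k)ᶜ + (P.prod P) (T M) := by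
        rw [Measure.prod_prod, measure_univ, mul_one]
    _ ≤ (P {J | ¬ Stab D J} + ε / 2) + ε / 2 := add_le_add hk hM
    _ = P {J | ¬ Stab D J} + ε := by rw [add_assoc, ENNReal.add_halves]

theorem coin_prob {p : ℝ} (h0 : 0 ≤ p) (h1 : p ≤ 1) : IsProbabilityMeasure (coin p) := by
  constructor
  rw [coin, Measure.add_apply, Measure.smul_apply, Measure.smul_apply]
  simp only [measure_univ, smul_eq_mul, mul_one]
  rw [← ENNReal.ofReal_add h0 (by linarith)]
  simp

theorem t_P2 : S_P2 := by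
  intro ι _ μ _ D ε hε
  set P := (Measure.pi fun _ : ι => μ) with hP
  have he0 : 0 < min ε 1 := lt_min hε one_pos
  have het : min ε 1 ≠ ⊤ := ne_top_of_le_ne_top ENNReal.one_ne_top (min_le_right _ _)
  have her : 0 < (min ε 1).toReal := ENNReal.toReal_pos he0.ne' het
  refine ⟨min 1 ((min ε 1).toReal / ((Fintype.card ι : ℝ) + 1)), by positivity,
    min_le_left _ _, ?_⟩
  intro p hp hpp
  have hp1 : p ≤ 1 := hpp.trans (min_le_left _ _)
  have hp2 : p ≤ (min ε 1).toReal / ((Fintype.card ι : ℝ) + 1) := hpp.trans (min_le_right _ _)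
  have := coin_prob hp.le hp1
  set Q := (Measure.pi fun _ : ι => coin p) with hQ
  have hsub : {q : (ι → ℝ) × (ι → ℝ) × (ι → Bool) | ¬ ∃ c, D q.1 c ∧ D (pt2 q) c} ⊆
      ({J | ¬ Stab D J} ×ˢ (univ : Set ((ι → ℝ) × (ι → Bool)))) ∪
        ((univ : Set (ι → ℝ)) ×ˢ ((univ : Set (ι → ℝ)) ×ˢ (⋃ a : ι, {w | w a = true}))) := by
    intro q hq
    by_contra hcon
    rw [mem_union, not_or] at hcon
    obtain ⟨hc1, hc2⟩ := hcon
    have hB : Stab D q.1 := by
      by_contra h
      exact hc1 ⟨h, mem_univ _⟩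
    have hf : ∀ a, q.2.2 a = false := by
      intro a
      by_contra h
      apply hc2
      refine ⟨mem_univ _, mem_univ _, ?_⟩
      rw [mem_iUnion]
      exact ⟨a, by simpa using h⟩
    obtain ⟨c, δ, hδ, h⟩ := hB
    have hpt : pt2 q = q.1 := by
      funext a
      simp [pt2, hf a]
    apply hq
    refine ⟨c, h _ ?_, ?_⟩
    · intro a
      rw [sub_self, abs_zero]
      exact hδ
    · rw [hpt]
      apply h
      intro a
      rw [sub_self, abs_zero]
      exact hδ
  have hcoin : ∀ a : ι, Q {w | w a = true} = ENNReal.ofReal p := by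
    intro a
    have h1 := (measurePreserving_eval (fun _ : ι => coin p) a).measure_preimage
      (s := {true}) (measurableSet_singleton _).nullMeasurableSet
    have h2 : (Function.eval a ⁻¹' {true} : Set (ι → Bool)) = {w | w a = true} := by
      ext w; simp
    rw [h2] at h1
    rw [hQ, h1, coin, Measure.add_apply, Measure.smul_apply, Measure.smul_apply]
    simp
  have hbound : Q (⋃ a : ι, {w | w a = true}) ≤ ε := by
    calc Q (⋃ a : ι, {w | w a = true}) ≤ ∑ a : ι, Q {w | w a = true} :=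
          measure_iUnion_fintype_le _ _
      _ = (Fintype.card ι : ℝ≥0∞) * ENNReal.ofReal p := by
          rw [Finset.sum_congr rfl (fun a _ => hcoin a), Finset.sum_const, nsmul_eq_mul]
          rfl
      _ = ENNReal.ofReal ((Fintype.card ι : ℝ) * p) := by
          rw [ENNReal.ofReal_mul (by positivity), ENNReal.ofReal_natCast]
      _ ≤ ENNReal.ofReal (min ε 1).toReal := by
          apply ENNReal.ofReal_le_ofReal
          have hc : (0 : ℝ) ≤ Fintype.card ι := by positivity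
          rw [le_div_iff₀ (by positivity)] at hp2
          nlinarith
      _ = min ε 1 := ENNReal.ofReal_toReal het
      _ ≤ ε := min_le_left _ _
  calc (P.prod (P.prod Q)) {q | ¬ ∃ c, D q.1 c ∧ D (pt2 q) c}
      ≤ (P.prod (P.prod Q)) (({J | ¬ Stab D J} ×ˢ (univ : Set ((ι → ℝ) × (ι → Bool)))) ∪
        ((univ : Set (ι → ℝ)) ×ˢ ((univ : Set (ι → ℝ)) ×ˢ (⋃ a : ι, {w | w a = true})))) :=
        measure_mono hsub
    _ ≤ (P.prod (P.prod Q)) ({J | ¬ Stab D J} ×ˢ (univ : Set ((ι → ℝ) × (ι → Bool)))) +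
        (P.prod (P.prod Q)) ((univ : Set (ι → ℝ)) ×ˢ
          ((univ : Set (ι → ℝ)) ×ˢ (⋃ a : ι, {w | w a = true}))) := measure_union_le _ _
    _ = P {J | ¬ Stab D J} + Q (⋃ a : ι, {w | w a = true}) := by
        rw [Measure.prod_prod, Measure.prod_prod, Measure.prod_prod, measure_univ, measure_univ,
          mul_one, one_mul, one_mul]
    _ ≤ P {J | ¬ Stab D J} + ε := add_le_add le_rfl hbound

end

end Pool.Agent.N485.EC
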