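import Mathlib

/-!
# Continuous weak selections as relations: basic facts

`Sel r`: `r` is a (strict) tournament relation on a topological space which is open;
`r x y` means that `x` is selected from `{x, y}` (and `x ≠ y`).
-/

namespace Pool.Agent.N485.King

open Set Filter Topology

universe u

variable {X : Type u} [TopologicalSpace X]

/-- A continuous weak selection, coded by the relation `r x y`: `x` is selected from `{x,y}`. -/
structure Sel (r : X → X → Prop) : Prop where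
  asymm : ∀ x y, r x y → ¬ r y x
  total : ∀ x y, x ≠ y → r x y ∨ r y x
  nhds : ∀ x y, r x y → ∃ U V : Set X, IsOpen U ∧ IsOpen V ∧ x ∈ U ∧ y ∈ V ∧
    ∀ u ∈ U, ∀ v ∈ V, r u v

namespace Sel

variable {r : X → X → Prop}

lemma irrefl (hr : Sel r) (x : X) : ¬ r x x := fun h => hr.asymm x x h h

lemma ne (hr : Sel r) {x y : X} (h : r x y) : x ≠ y := by
  rintro rfl; exact hr.irrefl _ h

lemma flip (hr : Sel r) : Sel (fun x y => r y x) where
  asymm x y h := hr.asymm y x h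
  total x y h := (hr.total x y h).symm
  nhds x y h := by
    obtain ⟨U, V, hU, hV, hy, hx, h⟩ := hr.nhds y x h
    exact ⟨V, U, hV, hU, hx, hy, fun u hu v hv => h v hv u hu⟩

lemma isOpen_lt (hr : Sel r) (x : X) : IsOpen {y | r y x} := by
  rw [isOpen_iff_mem_nhds]
  intro y hy
  obtain ⟨U, V, hU, hV, hyU, hxV, h⟩ := hr.nhds y x hy
  exact Filter.mem_of_superset (hU.mem_nhds hyU) fun u hu => h u hu x hxV

lemma isOpen_gt (hr : Sel r) (x : X) : IsOpen {y | r x y} := hr.flip.isOpen_lt x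

lemma isClosed_le (hr : Sel r) (x : X) : IsClosed {y | y = x ∨ r y x} := by
  have : {y | y = x ∨ r y x} = {y | r x y}ᶜ := by
    ext y
    simp only [mem_ofPred_eq, mem_compl_iff]
    constructor
    · rintro (rfl | h)
      · exact hr.irrefl _
      · exact hr.asymm _ _ h
    · intro h
      by_cases hxy : y = x
      · exact Or.inl hxy
      · exact Or.inr ((hr.total y x hxy).resolve_right h)
  rw [this]
  exact (hr.isOpen_gt x).isClosed_compl

lemma isClosed_ge (hr : Sel r) (x : X) : IsClosed {y | y = x ∨ r x y} := hr.flip.isClosed_le x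

lemma not_iff (hr : Sel r) {x y : X} (hxy : x ≠ y) : ¬ r x y ↔ r y x :=
  ⟨fun h => (hr.total x y hxy).resolve_left h, fun h => hr.asymm _ _ h⟩

/-- The clopen slices: for clopen `K` and `z ∉ K`, `{x ∈ K : x < z}` is clopen. -/
lemma isClopen_slice (hr : Sel r) {K : Set X} (hK : IsClopen K) {z : X} (hz : z ∉ K) :
    IsClopen (K ∩ {x | r x z}) := by
  refine ⟨?_, hK.isOpen.inter (hr.isOpen_lt z)⟩
  have : K ∩ {x | r x z} = K ∩ {x | x = z ∨ r x z} := by
    ext x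
    simp only [mem_inter_iff, mem_ofPred_eq]
    constructor
    · rintro ⟨h1, h2⟩; exact ⟨h1, Or.inr h2⟩
    · rintro ⟨h1, h2 | h2⟩
      · exact absurd (h2 ▸ h1) hz
      · exact ⟨h1, h2⟩
  rw [this]
  exact hK.isClosed.inter (hr.isClosed_le z)

lemma isClopen_slice' (hr : Sel r) {K : Set X} (hK : IsClopen K) {z : X} (hz : z ∉ K) :
    IsClopen (K ∩ {x | r z x}) := hr.flip.isClopen_slice hK hz

end Sel

/-- `r` restricted to `A` has a king. -/
def HasKing (r : X → X → Prop) (A : Set X) : Prop :=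
  ∃ z ∈ A, ∀ x ∈ A, ∃ y ∈ A, (x = y ∨ r x y) ∧ (y = z ∨ r y z)

/-- Every continuous weak selection has a king. -/
def AllKings (X : Type u) [TopologicalSpace X] : Prop :=
  ∀ r : X → X → Prop, Sel r → ∃ z, ∀ x, ∃ y, (x = y ∨ r x y) ∧ (y = z ∨ r y z)

/-- In a king space, every continuous weak selection has a king on every clopen set. -/
lemma hasKing_of_isClopen (H : AllKings X) {r : X → X → Prop} (hr : Sel r) {A : Set X}
    (hA : IsClopen A) (hne : A.Nonempty) : HasKing r A := by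
  classical
  set s : X → X → Prop := fun x y => ((x ∈ A ↔ y ∈ A) ∧ r x y) ∨ (x ∉ A ∧ y ∈ A) with hs
  have hsel : Sel s := by
    refine ⟨?_, ?_, ?_⟩
    · rintro x y (⟨h1, h2⟩ | ⟨h1, h2⟩)
      · rintro (⟨h3, h4⟩ | ⟨h3, h4⟩)
        · exact hr.asymm _ _ h2 h4
        · exact h3 (h1.1 h4)
      · rintro (⟨h3, h4⟩ | ⟨h3, h4⟩)
        · exact h1 (h3.1 h2)
        · exact h3 h2
    · intro x y hxy
      by_cases hx : x ∈ A <;> by_cases hy : y ∈ A
      · rcases hr.total x y hxy with h | h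
        · exact Or.inl (Or.inl ⟨by simp [hx, hy], h⟩)
        · exact Or.inr (Or.inl ⟨by simp [hx, hy], h⟩)
      · exact Or.inr (Or.inr ⟨hy, hx⟩)
      · exact Or.inl (Or.inr ⟨hx, hy⟩)
      · rcases hr.total x y hxy with h | h
        · exact Or.inl (Or.inl ⟨by simp [hx, hy], h⟩)
        · exact Or.inr (Or.inl ⟨by simp [hx, hy], h⟩)
    · rintro x y (⟨h1, h2⟩ | ⟨h1, h2⟩)
      · obtain ⟨U, V, hU, hV, hxU, hyV, h⟩ := hr.nhds x y h2
        by_cases hx : x ∈ A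
        · have hy : y ∈ A := h1.1 hx
          exact ⟨U ∩ A, V ∩ A, hU.inter hA.isOpen, hV.inter hA.isOpen, ⟨hxU, hx⟩, ⟨hyV, hy⟩,
            fun u hu v hv => Or.inl ⟨⟨fun _ => hv.2, fun _ => hu.2⟩, h u hu.1 v hv.1⟩⟩
        · have hy : y ∉ A := fun h => hx (h1.2 h)
          exact ⟨U ∩ Aᶜ, V ∩ Aᶜ, hU.inter hA.compl.isOpen, hV.inter hA.compl.isOpen,
            ⟨hxU, hx⟩, ⟨hyV, hy⟩,
            fun u hu v hv => Or.inl ⟨⟨fun h => absurd h hu.2, fun h => absurd h hv.2⟩,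
              h u hu.1 v hv.1⟩⟩
      · exact ⟨Aᶜ, A, hA.compl.isOpen, hA.isOpen, h1, h2, fun u hu v hv => Or.inr ⟨hu, hv⟩⟩
  obtain ⟨z, hz⟩ := H s hsel
  have hmono : ∀ a b, (a = b ∨ s a b) → a ∈ A → b ∈ A := by
    rintro a b (rfl | ⟨h, -⟩ | ⟨h, -⟩) ha
    · exact ha
    · exact h.1 ha
    · exact absurd ha h
  have hz' : z ∈ A := by
    obtain ⟨a, ha⟩ := hne
    obtain ⟨y, h1, h2⟩ := hz a
    exact hmono _ _ h2 (hmono _ _ h1 ha)
  refine ⟨z, hz', fun x hx => ?_⟩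
  obtain ⟨y, h1, h2⟩ := hz x
  have hy := hmono _ _ h1 hx
  refine ⟨y, hy, ?_, ?_⟩
  · rcases h1 with h | ⟨-, h⟩ | ⟨h, -⟩
    · exact Or.inl h
    · exact Or.inr h
    · exact absurd hx h
  · rcases h2 with h | ⟨-, h⟩ | ⟨h, -⟩
    · exact Or.inl h
    · exact Or.inr h
    · exact absurd hy h

/-- In a king space with a selection all locally constant functions to `ℕ` are bounded. -/
lemma bounded_of_isLocallyConstant (H : AllKings X) {r : X → X → Prop} (hr : Sel r) {f : X → ℕ}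
    (hf : IsLocallyConstant f) : ∃ N, ∀ x, f x ≤ N := by
  set s : X → X → Prop := fun x y => f x < f y ∨ (f x = f y ∧ r x y) with hs
  have hsel : Sel s := by
    refine ⟨?_, ?_, ?_⟩
    · rintro x y (h1 | ⟨h1, h2⟩)
      · rintro (h3 | ⟨h3, h4⟩) <;> omega
      · rintro (h3 | ⟨h3, h4⟩)
        · omega
        · exact hr.asymm _ _ h2 h4
    · intro x y hxy
      rcases lt_trichotomy (f x) (f y) with h | h | h
      · exact Or.inl (Or.inl h)
      · rcases hr.total x y hxy with h' | h'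
        · exact Or.inl (Or.inr ⟨h, h'⟩)
        · exact Or.inr (Or.inr ⟨h.symm, h'⟩)
      · exact Or.inr (Or.inl h)
    · rintro x y (h1 | ⟨h1, h2⟩)
      · exact ⟨f ⁻¹' {f x}, f ⁻¹' {f y}, hf _, hf _, rfl, rfl, fun u hu v hv => Or.inl (by
          simp only [mem_preimage, mem_singleton_iff] at hu hv; omega)⟩
      · obtain ⟨U, V, hU, hV, hxU, hyV, h⟩ := hr.nhds x y h2
        exact ⟨U ∩ f ⁻¹' {f x}, V ∩ f ⁻¹' {f y}, hU.inter (hf _), hV.inter (hf _), ⟨hxU, rfl⟩,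
          ⟨hyV, rfl⟩, fun u hu v hv => Or.inr ⟨by
            have := hu.2; have := hv.2
            simp only [mem_preimage, mem_singleton_iff] at *; omega, h u hu.1 v hv.1⟩⟩
  obtain ⟨z, hz⟩ := H s hsel
  refine ⟨f z, fun x => ?_⟩
  obtain ⟨y, h1, h2⟩ := hz x
  have h1' : f x ≤ f y := by
    rcases h1 with rfl | h | ⟨h, -⟩ <;> omega
  have h2' : f y ≤ f z := by
    rcases h2 with rfl | h | ⟨h, -⟩ <;> omega
  omega

/-- Locally constant maps have finite range. -/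
lemma finite_range_of_isLocallyConstant (H : AllKings X) {r : X → X → Prop} (hr : Sel r)
    {Z : Type*} {g : X → Z} (hg : IsLocallyConstant g) : (range g).Finite := by
  classical
  by_contra hinf
  have hinf' : (range g).Infinite := hinf
  have : Infinite (range g) := hinf'.to_subtype
  obtain ⟨i⟩ : Nonempty (ℕ ↪ range g) := ⟨Infinite.natEmbedding _⟩
  set h : Z → ℕ := fun z => if hz : ∃ n, (i n : Z) = z then hz.choose else 0 with hh
  have hi : ∀ n, h (i n) = n := by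
    intro n
    have hz : ∃ m, (i m : Z) = i n := ⟨n, rfl⟩
    have : h (i n) = hz.choose := by simp only [hh]; rw [dif_pos hz]
    rw [this]
    have := hz.choose_spec
    exact i.injective (Subtype.ext this)
  obtain ⟨N, hN⟩ := bounded_of_isLocallyConstant H hr (hg.comp h)
  obtain ⟨x, hx⟩ := (i (N + 1)).2
  have := hN x
  simp only [Function.comp, hx, hi] at this
  omega

/-- Relatively countably compact: each sequence in `P` has a cluster point (in `X`). -/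
def RCC (P : Set X) : Prop := ∀ f : ℕ → X, (∀ n, f n ∈ P) → ∃ p, MapClusterPt p atTop f

lemma RCC.mono {P P' : Set X} (h : RCC P') (hP : P ⊆ P') : RCC P :=
  fun f hf => h f fun n => hP (hf n)

lemma RCC.empty : RCC (∅ : Set X) := fun _ hf => absurd (hf 0) (by simp)

lemma RCC.frequently {P : Set X} (h : RCC P) (f : ℕ → X) (hf : ∃ᶠ n in atTop, f n ∈ P) :
    ∃ p, MapClusterPt p atTop f := by
  obtain ⟨φ, hφ, hφ'⟩ := extraction_of_frequently_atTop hf
  obtain ⟨p, hp⟩ := h (f ∘ φ) hφ'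
  exact ⟨p, hp.of_comp hφ.tendsto_atTop⟩

lemma RCC.union {P P' : Set X} (h : RCC P) (h' : RCC P') : RCC (P ∪ P') := by
  intro f hf
  have : ∃ᶠ n in atTop, (f n ∈ P ∨ f n ∈ P') := Frequently.of_forall hf
  rw [frequently_or_distrib] at this
  rcases this with h1 | h1
  · exact h.frequently f h1
  · exact h'.frequently f h1

/-- Generic dependent recursion. -/
lemma rec_seq {α β : Type*} (S : Set α) (hS : S.Nonempty) (R : α → β → α → Prop)
    (h : ∀ a ∈ S, ∃ b, ∃ a' ∈ S, R a b a') :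
    ∃ (a : ℕ → α) (b : ℕ → β), ∀ n, a n ∈ S ∧ R (a n) (b n) (a (n + 1)) := by
  classical
  obtain ⟨a₀, ha₀⟩ := hS
  have : Nonempty β := ⟨(h a₀ ha₀).choose⟩
  choose! b a' ha' hR using h
  set a : ℕ → α := fun n => Nat.rec a₀ (fun _ x => a' x) n with hadef
  have hmem : ∀ n, a n ∈ S := by
    intro n
    induction n with
    | zero => exact ha₀
    | succ n ih => exact ha' _ ih
  exact ⟨a, fun n => b (a n), fun n => ⟨hmem n, hR _ (hmem n)⟩⟩

lemma clus_freq {p : X} {f : ℕ → X} (h : MapClusterPt p atTop f) {N : Set X} (hN : N ∈ 𝓝 p)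
    (k : ℕ) : ∃ n, k < n ∧ f n ∈ N := by
  have := (h.frequently hN).and_eventually (eventually_gt_atTop k)
  obtain ⟨n, hn, hk⟩ := this.exists
  exact ⟨n, hk, hn⟩

lemma clus_mem_closure {p : X} {f : ℕ → X} (h : MapClusterPt p atTop f) {P : Set X}
    (hP : ∀ n, f n ∈ P) : p ∈ closure P := by
  rw [mem_closure_iff_nhds]
  intro N hN
  obtain ⟨n, -, hn⟩ := clus_freq h hN 0
  exact ⟨f n, hn, hP n⟩

/-- The interleaving lemma. -/
lemma interleave {r : X → X → Prop} (hr : Sel r) (𝓕 : Set (Set X)) (hne : 𝓕.Nonempty)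
    {P N : Set X} (hP : RCC P) (hN : RCC N) (hPN : Disjoint (closure P) (closure N))
    (h1 : ∀ K ∈ 𝓕, ∃ x ∈ P ∩ K, ∃ K' ∈ 𝓕, K' ⊆ K ∧ ∀ y ∈ K', r x y)
    (h2 : ∀ K ∈ 𝓕, ∃ x ∈ N ∩ K, ∃ K' ∈ 𝓕, K' ⊆ K ∧ ∀ y ∈ K', r x y) : False := by
  obtain ⟨K, c, hc⟩ := rec_seq (α := Set X) (β := X × X) 𝓕 hne
    (fun K c K' => c.1 ∈ P ∩ K ∧ c.2 ∈ N ∩ K ∧ K' ⊆ K ∧ ∀ y ∈ K', r c.1 y ∧ r c.2 y) (by
      intro K hK
      obtain ⟨x, hx, K₁, hK₁, hK₁K, hxK₁⟩ := h1 K hK
      obtain ⟨x', hx', K₂, hK₂, hK₂K, hxK₂⟩ := h2 K₁ hK₁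
      exact ⟨(x, x'), K₂, hK₂, hx, ⟨hx'.1, hK₁K hx'.2⟩, hK₂K.trans hK₁K,
        fun y hy => ⟨hxK₁ y (hK₂K hy), hxK₂ y hy⟩⟩)
  have hK : ∀ m n, m ≤ n → K n ⊆ K m := by
    intro m n hmn
    induction n, hmn using Nat.le_induction with
    | base => exact Subset.rfl
    | succ n _ ih => exact (hc n).2.2.2.1.trans ih
  have hrel : ∀ m n, m < n → ∀ y ∈ K n, r (c m).1 y ∧ r (c m).2 y := fun m n hmn y hy =>
    (hc m).2.2.2.2 y (hK (m + 1) n hmn hy)
  obtain ⟨p, hp⟩ := hP (fun n => (c n).1) fun n => (hc n).2.1.1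
  obtain ⟨q, hq⟩ := hN (fun n => (c n).2) fun n => (hc n).2.2.1.1
  have hpP := clus_mem_closure hp fun n => (hc n).2.1.1
  have hqN := clus_mem_closure hq fun n => (hc n).2.2.1.1
  have hpq : p ≠ q := by
    rintro rfl
    exact Set.disjoint_left.1 hPN hpP hqN
  rcases hr.total p q hpq with h | h
  · obtain ⟨U, V, hU, hV, hpU, hqV, hUV⟩ := hr.nhds p q h
    obtain ⟨n, -, hn⟩ := clus_freq hq (hV.mem_nhds hqV) 0
    obtain ⟨m, hm, hm'⟩ := clus_freq hp (hU.mem_nhds hpU) n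
    exact hr.asymm _ _ (hUV _ hm' _ hn) ((hrel n m hm _ (hc m).2.1.2).2)
  · obtain ⟨U, V, hU, hV, hqU, hpV, hUV⟩ := hr.nhds q p h
    obtain ⟨n, -, hn⟩ := clus_freq hp (hV.mem_nhds hpV) 0
    obtain ⟨m, hm, hm'⟩ := clus_freq hq (hU.mem_nhds hqU) n
    exact hr.asymm _ _ (hUV _ hm' _ hn) ((hrel n m hm _ (hc m).2.2.1.2).1)

/-- Infinite Ramsey theorem for pairs. -/
lemma ramsey (c : ℕ → ℕ → Prop) : ∃ φ : ℕ → ℕ, StrictMono φ ∧
    ((∀ i j, i < j → c (φ i) (φ j)) ∨ (∀ i j, i < j → ¬ c (φ i) (φ j))) := by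
  classical
  set 𝒱 : Ultrafilter ℕ := Filter.hyperfilter ℕ
  have hgt : ∀ n, {m | n < m} ∈ 𝒱 := fun n => by
    have : {m | n < m} ∈ (Filter.cofinite : Filter ℕ) := by
      rw [Nat.cofinite_eq_atTop]; exact eventually_gt_atTop n
    exact Filter.hyperfilter_le_cofinite this
  have key : ∀ (d : ℕ → ℕ → Prop), {n | {m | d n m} ∈ 𝒱} ∈ 𝒱 →
      ∃ φ : ℕ → ℕ, StrictMono φ ∧ ∀ i j, i < j → d (φ i) (φ j) := by
    intro d hd
    obtain ⟨φ, h1, h2⟩ := exists_seq_of_forall_finset_exists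
      (fun n => {m | d n m} ∈ 𝒱) (fun n m => n < m ∧ d n m) (by
        intro s hs
        have h1 : (⋂ x ∈ s, ({m | x < m} ∩ {m | d x m})) ∈ (𝒱 : Filter ℕ) := by
          rw [Filter.biInter_finset_mem]
          intro x hx
          exact Filter.inter_mem (hgt x) (hs x hx)
        obtain ⟨y, hy1, hy2⟩ := 𝒱.nonempty_of_mem (Filter.inter_mem hd h1)
        refine ⟨y, hy1, fun x hx => ?_⟩
        exact (mem_iInter₂.1 hy2) x hx)
    exact ⟨φ, fun i j hij => (h2 i j hij).1, fun i j hij => (h2 i j hij).2⟩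
  by_cases h : {n | {m | c n m} ∈ 𝒱} ∈ 𝒱
  · obtain ⟨φ, h1, h2⟩ := key c h
    exact ⟨φ, h1, Or.inl h2⟩
  · rw [← Ultrafilter.compl_mem_iff_notMem] at h
    have h' : {n | {m | ¬ c n m} ∈ 𝒱} ∈ 𝒱 := by
      refine Filter.mem_of_superset h fun n hn => ?_
      have hn' : {m | c n m} ∉ 𝒱 := hn
      rw [← Ultrafilter.compl_mem_iff_notMem] at hn'
      exact hn'
    obtain ⟨φ, h1, h2⟩ := key _ h'
    exact ⟨φ, h1, Or.inr h2⟩

/-- Every sequence has a constant or a strictly `r`-monotone subsequence. -/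
lemma exists_mono_subseq {r : X → X → Prop} (hr : Sel r) (f : ℕ → X) :
    ∃ φ : ℕ → ℕ, StrictMono φ ∧ ((∀ i j, i < j → f (φ i) = f (φ j)) ∨
      (∀ i j, i < j → r (f (φ i)) (f (φ j))) ∨ (∀ i j, i < j → r (f (φ j)) (f (φ i)))) := by
  obtain ⟨φ, hφ, h | h⟩ := ramsey fun i j => f i = f j
  · exact ⟨φ, hφ, Or.inl h⟩
  · obtain ⟨ψ, hψ, h' | h'⟩ := ramsey fun i j => r (f (φ i)) (f (φ j))
    · exact ⟨φ ∘ ψ, hφ.comp hψ, Or.inr (Or.inl h')⟩
    · refine ⟨φ ∘ ψ, hφ.comp hψ, Or.inr (Or.inr fun i j hij => ?_)⟩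
      exact (hr.total _ _ (h (ψ i) (ψ j) (hψ hij))).resolve_left (h' i j hij)

/-- A strictly monotone sequence has at most one cluster point. -/
lemma clus_unique {r : X → X → Prop} (hr : Sel r) {f : ℕ → X} (hf : ∀ i j, i < j → r (f i) (f j))
    {p q : X} (hp : MapClusterPt p atTop f) (hq : MapClusterPt q atTop f) : p = q := by
  by_contra hpq
  have key : ∀ a b : X, MapClusterPt a atTop f → MapClusterPt b atTop f → r a b → False := by
    intro a b ha hb h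
    obtain ⟨U, V, hU, hV, hpU, hqV, hUV⟩ := hr.nhds a b h
    obtain ⟨n, -, hn⟩ := clus_freq hb (hV.mem_nhds hqV) 0
    obtain ⟨m, hm, hm'⟩ := clus_freq ha (hU.mem_nhds hpU) n
    exact hr.asymm _ _ (hUV _ hm' _ hn) (hf n m hm)
  rcases hr.total p q hpq with h | h
  · exact key p q hp hq h
  · exact key q p hq hp h

lemma tendsto_of_mono {r : X → X → Prop} (hr : Sel r) {P : Set X} (hP : RCC P) {f : ℕ → X}
    (hfP : ∀ n, f n ∈ P) (hf : ∀ i j, i < j → r (f i) (f j)) : ∃ p, Tendsto f atTop (𝓝 p) := by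
  obtain ⟨p, hp⟩ := hP f hfP
  refine ⟨p, ?_⟩
  by_contra hcon
  rw [Filter.tendsto_def] at hcon
  push Not at hcon
  obtain ⟨s, hs, hs'⟩ := hcon
  have hfreq : ∃ᶠ n in atTop, f n ∉ s := by
    rw [Filter.Frequently]
    intro h
    apply hs'
    filter_upwards [h] with n hn
    simpa using hn
  obtain ⟨φ, hφ, hφ'⟩ := extraction_of_frequently_atTop hfreq
  obtain ⟨q, hq⟩ := hP (f ∘ φ) fun n => hfP _
  have hpq : p = q := clus_unique hr hf hp (hq.of_comp hφ.tendsto_atTop)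
  subst hpq
  obtain ⟨n, -, hn⟩ := clus_freq hq hs 0
  exact hφ' n hn

/-- Sequential compactness from countable compactness. -/
lemma exists_tendsto_subseq {r : X → X → Prop} (hr : Sel r) {P : Set X} (hP : RCC P) {f : ℕ → X}
    (hfP : ∀ n, f n ∈ P) : ∃ φ : ℕ → ℕ, StrictMono φ ∧ ∃ p, Tendsto (f ∘ φ) atTop (𝓝 p) := by
  obtain ⟨φ, hφ, h | h | h⟩ := exists_mono_subseq hr f
  · refine ⟨φ, hφ, f (φ 0), ?_⟩
    have : ∀ n, (f ∘ φ) n = f (φ 0) := by
      intro n
      rcases Nat.eq_zero_or_pos n with rfl | hn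
      · rfl
      · exact (h 0 n hn).symm
    rw [tendsto_congr this]
    exact tendsto_const_nhds
  · exact ⟨φ, hφ, tendsto_of_mono hr hP (fun n => hfP _) h⟩
  · exact ⟨φ, hφ, tendsto_of_mono hr.flip hP (fun n => hfP _) h⟩

end Pool.Agent.N485.King
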