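import Pool.Agent.N485.KingBase

/-!
# Locally pseudocompact spaces with a continuous weak selection are locally countably compact
-/

namespace Pool.Agent.N485.King

open Set Filter Topology

universe u

variable {X : Type u} [TopologicalSpace X]

/-- relative feeble compactness of `U` -/
def FC (U : Set X) : Prop := ∀ W : ℕ → Set X, (∀ n, IsOpen (W n)) → (∀ n, W n ⊆ U) →
  (∃ᶠ n in atTop, (W n).Nonempty) → ∃ p, ∀ N ∈ 𝓝 p, ∃ᶠ n in atTop, (W n ∩ N).Nonempty

/-- If the closure of `U` is pseudocompact then `U` is relatively feebly compact. -/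
lemma FC_of_pseudocompact [CompletelyRegularSpace X] {U : Set X}
    (hU : ∀ f : closure U → ℝ, Continuous f → ∃ M, ∀ y, |f y| ≤ M) : FC U := by
  classical
  intro W hWo hWU hW
  by_contra hcon
  push Not at hcon
  have hlf : LocallyFinite W := by
    intro p
    obtain ⟨N, hN, hN'⟩ := hcon p
    refine ⟨N, hN, ?_⟩
    obtain ⟨k, hk⟩ := eventually_atTop.1 hN'
    refine (Set.finite_lt_nat k).subset ?_
    intro n hn
    simp only [mem_ofPred_eq] at hn ⊢
    by_contra hnk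
    rw [hk n (not_lt.1 hnk)] at hn
    exact Set.not_nonempty_empty hn
  -- bump functions
  have hbump : ∀ n, ∃ h : X → ℝ, Continuous h ∧ (∀ x, 0 ≤ h x) ∧ (∀ x, x ∉ W n → h x = 0) ∧
      ((W n).Nonempty → ∃ x ∈ W n, h x = 1) := by
    intro n
    by_cases hne : (W n).Nonempty
    · obtain ⟨x, hx⟩ := hne
      obtain ⟨f, hf, hfx, hfK⟩ := CompletelyRegularSpace.completely_regular x (W n)ᶜ
        (hWo n).isClosed_compl (fun h => h hx)
      refine ⟨fun y => 1 - (f y : ℝ), continuous_const.sub (continuous_subtype_val.comp hf),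
        fun y => by have := (f y).2.2; linarith, fun y hy => ?_, fun _ => ⟨x, hx, ?_⟩⟩
      · have : f y = 1 := hfK hy
        simp [this]
      · simp [hfx]
    · exact ⟨fun _ => 0, continuous_const, fun _ => le_rfl, fun _ _ => rfl,
        fun h => absurd h hne⟩
  choose h hcont hnn hzero hone using hbump
  set g : X → ℝ := fun x => ∑ᶠ n : ℕ, (n : ℝ) * h n x with hg
  have hlf' : LocallyFinite fun n : ℕ => Function.support fun x => (n : ℝ) * h n x := by
    refine hlf.subset fun n x hx => ?_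
    by_contra hxW
    apply hx
    simp [hzero n x hxW]
  have hgc : Continuous g := by
    refine continuous_finsum (fun n => continuous_const.mul (hcont n)) hlf'
  obtain ⟨M, hM⟩ := hU (fun y => g y) (hgc.comp continuous_subtype_val)
  obtain ⟨n, hn1, hn2⟩ := (hW.and_eventually (eventually_gt_atTop (Nat.ceil M))).exists
  obtain ⟨x, hx, hx1⟩ := hone n hn1
  have hge : (n : ℝ) * h n x ≤ g x := by
    have h5 := hlf'.point_finite x
    exact single_le_finsum (f := fun m : ℕ => (m : ℝ) * h m x) n (h5.subset fun m hm => hm)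
      (fun m => mul_nonneg (Nat.cast_nonneg _) (hnn m x))
  have h2 := hM ⟨x, subset_closure (hWU n hx)⟩
  have h3 : g x ≤ M := (le_abs_self _).trans h2
  have h4 : (M : ℝ) < n := lt_of_le_of_lt (Nat.le_ceil M) (by exact_mod_cast hn2)
  rw [hx1, mul_one] at hge
  linarith

variable [T3Space X] {r : X → X → Prop}

lemma exists_closed_nhds {x : X} {O : Set X} (hO : O ∈ 𝓝 x) :
    ∃ s ∈ 𝓝 x, IsClosed s ∧ s ⊆ O := exists_mem_nhds_isClosed_subset hO

/-- Refining a sequence of open sets to a convergent one. -/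
lemma exists_convergent (hr : Sel r) {U : Set X} (hU : FC U) (V : ℕ → Set X)
    (hVo : ∀ n, IsOpen (V n)) (hVU : ∀ n, V n ⊆ U) (hVne : ∃ᶠ n in atTop, (V n).Nonempty) :
    ∃ W : ℕ → Set X, (∀ n, IsOpen (W n)) ∧ (∀ n, W n ⊆ V n) ∧
      (∃ᶠ n in atTop, (W n).Nonempty) ∧ ∃ p, ∀ N ∈ 𝓝 p, ∀ᶠ n in atTop, W n ⊆ N := by
  classical
  by_contra hcon
  set 𝒮 : Set (ℕ → Set X) := {W | (∀ n, IsOpen (W n)) ∧ (∀ n, W n ⊆ V n) ∧
      (∃ᶠ n in atTop, (W n).Nonempty)} with h𝒮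
  have hnc : ∀ W ∈ 𝒮, ∀ p, ∃ N ∈ 𝓝 p, ∃ᶠ n in atTop, ¬ W n ⊆ N := by
    rintro W ⟨h1, h2, h3⟩ p
    by_contra h
    push Not at h
    exact hcon ⟨W, h1, h2, h3, p, fun N hN => h N hN⟩
  -- each state has two comparable cluster points
  have htwo : ∀ W ∈ 𝒮, ∃ a b, r a b ∧ (∀ N ∈ 𝓝 a, ∃ᶠ n in atTop, (W n ∩ N).Nonempty) ∧
      (∀ N ∈ 𝓝 b, ∃ᶠ n in atTop, (W n ∩ N).Nonempty) := by
    rintro W hW
    obtain ⟨h1, h2, h3⟩ := hW
    obtain ⟨p, hp⟩ := hU W h1 (fun n => (h2 n).trans (hVU n)) h3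
    obtain ⟨N, hN, hfr⟩ := hnc W ⟨h1, h2, h3⟩ p
    obtain ⟨s, hs, hsc, hsN⟩ := exists_closed_nhds hN
    obtain ⟨q, hq⟩ := hU (fun n => W n \ s) (fun n => (h1 n).sdiff hsc)
      (fun n => sdiff_subset.trans ((h2 n).trans (hVU n))) (by
        refine hfr.mono fun n hn => ?_
        obtain ⟨x, hx, hxN⟩ := not_subset.1 hn
        exact ⟨x, hx, fun h => hxN (hsN h)⟩)
    have hq' : ∀ N ∈ 𝓝 q, ∃ᶠ n in atTop, (W n ∩ N).Nonempty := fun N hN =>
      (hq N hN).mono fun n hn => hn.mono (inter_subset_inter_left _ sdiff_subset)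
    have hpq : p ≠ q := by
      rintro rfl
      obtain ⟨n, hn⟩ := (hq s hs).exists
      obtain ⟨x, hx1, hx2⟩ := hn
      exact hx1.2 hx2
    rcases hr.total p q hpq with h | h
    · exact ⟨p, q, h, hp, hq'⟩
    · exact ⟨q, p, h, hq', hp⟩
  -- the recursion
  have hV𝒮 : V ∈ 𝒮 := ⟨hVo, fun n => Subset.rfl, hVne⟩
  obtain ⟨a, c, hac⟩ := rec_seq (α := (ℕ → Set X) × ℕ) (β := ℕ × Set X) {a | a.1 ∈ 𝒮}
    ⟨(V, 0), hV𝒮⟩ (fun a c a' => a.2 < c.1 ∧ a'.2 = c.1 ∧ IsOpen c.2 ∧ c.2.Nonempty ∧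
      c.2 ⊆ V c.1 ∧ c.2 ⊆ ⋃ n, a.1 n ∧ (⋃ n, a'.1 n) ⊆ (⋃ n, a.1 n) ∧
      ∀ x ∈ ⋃ n, a'.1 n, ∀ y ∈ c.2, r x y) (by
      rintro ⟨W, k⟩ hW
      obtain ⟨h1, h2, h3⟩ := hW
      obtain ⟨p, q, hpq, hp, hq⟩ := htwo W ⟨h1, h2, h3⟩
      obtain ⟨A, B, hA, hB, hpA, hqB, hAB⟩ := hr.nhds p q hpq
      obtain ⟨n, hn1, hn2⟩ := ((hq B (hB.mem_nhds hqB)).and_eventually
        (eventually_gt_atTop k)).exists
      refine ⟨(n, W n ∩ B), (fun m => W m ∩ A, n), ⟨fun m => (h1 m).inter hA,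
        fun m => inter_subset_left.trans (h2 m), hp A (hA.mem_nhds hpA)⟩, hn2, rfl,
        (h1 n).inter hB, hn1, inter_subset_left.trans (h2 n), ?_, ?_, ?_⟩
      · exact inter_subset_left.trans (subset_iUnion W n)
      · exact iUnion_mono fun m => inter_subset_left
      · intro x hx y hy
        obtain ⟨m, hm⟩ := mem_iUnion.1 hx
        exact hAB x hm.2 y hy.2)
  have hmono : StrictMono fun n => (c n).1 := by
    refine strictMono_nat_of_lt_succ fun n => ?_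
    have h1 := (hac n).2.2.1
    have h2 := (hac (n + 1)).2.1
    rw [h1] at h2
    exact h2
  have hsub : ∀ m n, m ≤ n → (⋃ i, (a n).1 i) ⊆ ⋃ i, (a m).1 i := by
    intro m n hmn
    induction n, hmn using Nat.le_induction with
    | base => exact Subset.rfl
    | succ n _ ih => exact (hac n).2.2.2.2.2.2.2.1.trans ih
  have hrel : ∀ m n, m < n → ∀ x ∈ (c n).2, ∀ y ∈ (c m).2, r x y := by
    intro m n hmn x hx y hy
    have h1 : x ∈ ⋃ i, (a (m + 1)).1 i := hsub (m + 1) n hmn ((hac n).2.2.2.2.2.2.1 hx)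
    exact (hac m).2.2.2.2.2.2.2.2 x h1 y hy
  set W : ℕ → Set X := fun n => ⋃ k ∈ {k | (c k).1 = n}, (c k).2 with hW
  have hWk : ∀ k, W (c k).1 = (c k).2 := by
    intro k
    apply Subset.antisymm
    · intro x hx
      simp only [hW, mem_iUnion, mem_ofPred_eq] at hx
      obtain ⟨j, hj, hxj⟩ := hx
      rwa [hmono.injective hj] at hxj
    · intro x hx
      simp only [hW, mem_iUnion, mem_ofPred_eq]
      exact ⟨k, rfl, hx⟩
  have hW𝒮 : W ∈ 𝒮 := by
    refine ⟨fun n => isOpen_biUnion fun k _ => (hac k).2.2.2.1, fun n => ?_, ?_⟩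
    · refine iUnion₂_subset fun k hk => ?_
      rw [← (show (c k).1 = n from hk)]
      exact (hac k).2.2.2.2.2.1
    · rw [Filter.frequently_atTop]
      intro k
      refine ⟨(c k).1, hmono.id_le k, ?_⟩
      rw [hWk]
      exact (hac k).2.2.2.2.1
  obtain ⟨p, q, hpq, hp, hq⟩ := htwo W hW𝒮
  obtain ⟨A, B, hA, hB, hpA, hqB, hAB⟩ := hr.nhds p q hpq
  obtain ⟨n, hn1, -⟩ := ((hp A (hA.mem_nhds hpA)).and_eventually (eventually_gt_atTop 0)).exists
  obtain ⟨x, hx1, hxA⟩ := hn1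
  simp only [hW, mem_iUnion, mem_ofPred_eq] at hx1
  obtain ⟨k, hk, hxk⟩ := hx1
  obtain ⟨m, hm1, hm2⟩ := ((hq B (hB.mem_nhds hqB)).and_eventually
    (eventually_gt_atTop (c k).1)).exists
  obtain ⟨y, hy1, hyB⟩ := hm1
  simp only [hW, mem_iUnion, mem_ofPred_eq] at hy1
  obtain ⟨j, hj, hyj⟩ := hy1
  have hkj : k < j := by
    rw [← hj] at hm2
    exact hmono.lt_iff_lt.1 hm2
  exact hr.asymm _ _ (hAB x hxA y hyB) (hrel k j hkj y hyj x hxk)

/-- Relative feeble compactness of an open set implies relative countable compactness. -/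
lemma RCC_of_FC_mono (hr : Sel r) {U : Set X} (hUo : IsOpen U) (hU : FC U) {x : ℕ → X}
    (hxU : ∀ n, x n ∈ U) (hx : ∀ i j, i < j → r (x i) (x j)) : ∃ p, MapClusterPt p atTop x := by
  by_contra hcon
  set V : ℕ → Set X := fun n => U ∩ (⋂ i ∈ Finset.range n, {w | r (x i) w}) ∩
    {w | r w (x (n + 1))} with hV
  have hVo : ∀ n, IsOpen (V n) := fun n =>
    (hUo.inter (isOpen_biInter_finset fun i _ => hr.isOpen_gt _)).inter (hr.isOpen_lt _)
  have hxV : ∀ n, x n ∈ V n := by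
    intro n
    refine ⟨⟨hxU n, ?_⟩, hx n (n + 1) (Nat.lt_succ_self n)⟩
    rw [mem_iInter₂]
    intro i hi
    exact hx i n (Finset.mem_range.1 hi)
  obtain ⟨W, hWo, hWV, hWne, p, hp⟩ := exists_convergent hr hU V hVo
    (fun n => inter_subset_left.trans inter_subset_left)
    (Frequently.of_forall fun n => ⟨x n, hxV n⟩)
  have hpx : ∃ O ∈ 𝓝 p, ∀ᶠ n in atTop, x n ∉ O := by
    by_contra h
    push Not at h
    apply hcon
    refine ⟨p, mapClusterPt_iff_frequently.2 fun O hO => ?_⟩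
    have h1 := h O hO
    rw [Filter.Frequently]
    exact h1
  obtain ⟨O, hO, hxO⟩ := hpx
  obtain ⟨O', hO', hO'c, hO'O⟩ := exists_closed_nhds hO
  obtain ⟨n₀, hn₀⟩ := eventually_atTop.1 hxO
  -- choose the indices
  obtain ⟨μ, hμ1, hμ2⟩ := exists_seq_of_forall_finset_exists
    (fun n => n₀ ≤ n ∧ (W n).Nonempty) (fun m n => m + 1 < n) (by
      intro s _
      obtain ⟨n, hn1, hn2⟩ := (hWne.and_eventually
        (eventually_ge_atTop (n₀ + s.sup id + 2))).exists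
      refine ⟨n, ⟨by omega, hn1⟩, fun m hm => ?_⟩
      have : m ≤ s.sup id := Finset.le_sup (f := id) hm
      omega)
  choose hμge w hw using hμ1
  have hμmono : StrictMono μ := fun m n hmn => by have := hμ2 m n hmn; omega
  set y : ℕ → X := fun k => x (μ k + 1) with hy
  have hwy : ∀ k, r (w k) (y k) := fun k => (hWV _ (hw k)).2
  have hyw : ∀ k, r (y k) (w (k + 1)) := by
    intro k
    have h1 := (hWV _ (hw (k + 1))).1.2
    rw [mem_iInter₂] at h1
    exact h1 (μ k + 1) (Finset.mem_range.2 (hμ2 k (k + 1) (Nat.lt_succ_self k)))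
  have hyO : ∀ k, y k ∉ O' := fun k h => hn₀ (μ k + 1) (by have := hμge k; omega) (hO'O h)
  set Y : ℕ → Set X := fun k => (U ∩ {v | r (w k) v} ∩ {v | r v (w (k + 1))}) \ O' with hY
  obtain ⟨q, hq⟩ := hU Y
    (fun k => ((hUo.inter (hr.isOpen_gt _)).inter (hr.isOpen_lt _)).sdiff hO'c)
    (fun k => sdiff_subset.trans (inter_subset_left.trans inter_subset_left))
    (Frequently.of_forall fun k => ⟨y k, ⟨⟨hxU _, hwy k⟩, hyw k⟩, hyO k⟩)
  have hpq : p ≠ q := by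
    rintro rfl
    obtain ⟨k, v, hv1, hv2⟩ := (hq O' hO').exists
    exact hv1.2 hv2
  have hwp : ∀ N ∈ 𝓝 p, ∀ᶠ k in atTop, w k ∈ N := by
    intro N hN
    have h1 := hμmono.tendsto_atTop.eventually (hp N hN)
    filter_upwards [h1] with k hk
    exact hk (hw k)
  rcases hr.total p q hpq with h | h
  · obtain ⟨A, B, hA, hB, hpA, hqB, hAB⟩ := hr.nhds p q h
    have h1 : ∀ᶠ k in atTop, w (k + 1) ∈ A :=
      (tendsto_add_atTop_nat 1).eventually (hwp A (hA.mem_nhds hpA))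
    obtain ⟨k, ⟨v, hv1, hv2⟩, hk⟩ := ((hq B (hB.mem_nhds hqB)).and_eventually h1).exists
    exact hr.asymm _ _ (hAB _ hk _ hv2) hv1.1.2
  · obtain ⟨A, B, hA, hB, hqA, hpB, hAB⟩ := hr.nhds q p h
    obtain ⟨k, ⟨v, hv1, hv2⟩, hk⟩ := ((hq A (hA.mem_nhds hqA)).and_eventually
      (hwp B (hB.mem_nhds hpB))).exists
    exact hr.asymm _ _ (hAB _ hv2 _ hk) hv1.1.1.2

lemma RCC_of_FC (hr : Sel r) {U : Set X} (hUo : IsOpen U) (hU : FC U) : RCC U := by
  intro f hf
  obtain ⟨φ, hφ, h | h | h⟩ := exists_mono_subseq hr f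
  · refine ⟨f (φ 0), mapClusterPt_iff_frequently.2 fun O hO => ?_⟩
    rw [Filter.frequently_atTop]
    intro k
    refine ⟨φ k, hφ.id_le k, ?_⟩
    rcases Nat.eq_zero_or_pos k with rfl | hk
    · exact mem_of_mem_nhds hO
    · rw [← h 0 k hk]; exact mem_of_mem_nhds hO
  · obtain ⟨p, hp⟩ := RCC_of_FC_mono hr hUo hU (x := f ∘ φ) (fun n => hf _) h
    exact ⟨p, hp.of_comp hφ.tendsto_atTop⟩
  · obtain ⟨p, hp⟩ := RCC_of_FC_mono hr.flip hUo hU (x := f ∘ φ) (fun n => hf _) h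
    exact ⟨p, hp.of_comp hφ.tendsto_atTop⟩

end Pool.Agent.N485.King
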