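import Pool.Agent.N485.KingQC
import Pool.Agent.N485.KingPseudo

/-!
# Locally pseudocompact king spaces are compact
-/

namespace Pool.Agent.N485.King

open Set Filter Topology

universe u

variable {X : Type u} [TopologicalSpace X] {r : X → X → Prop}

/-- In a king space, sequences of nonempty clopen sets are not locally finite. -/
lemma clopen_cluster (H : AllKings X) (hr : Sel r) (V : ℕ → Set X) (hV : ∀ n, IsClopen (V n))
    (hne : ∀ n, (V n).Nonempty) : ∃ p, ∀ N ∈ 𝓝 p, ∃ᶠ n in atTop, (V n ∩ N).Nonempty := by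
  classical
  by_contra hcon
  push Not at hcon
  have hfin : ∀ x, ∃ k, ∀ n, k ≤ n → x ∉ V n := by
    intro x
    obtain ⟨N, hN, hN'⟩ := hcon x
    obtain ⟨k, hk⟩ := eventually_atTop.1 hN'
    refine ⟨k, fun n hn hx => ?_⟩
    have : x ∈ V n ∩ N := ⟨hx, mem_of_mem_nhds hN⟩
    rw [hk n hn] at this
    exact this
  set f : X → ℕ := fun x => Nat.find (hfin x) with hf
  have hlc : IsLocallyConstant f := by
    rw [IsLocallyConstant.iff_eventually_eq]
    intro x
    obtain ⟨N, hN, hN'⟩ := hcon x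
    obtain ⟨k, hk⟩ := eventually_atTop.1 hN'
    have h1 : ∀ᶠ y in 𝓝 x, ∀ n ∈ Finset.range k, (y ∈ V n ↔ x ∈ V n) := by
      rw [Filter.eventually_all_finset]
      intro n _
      by_cases hx : x ∈ V n
      · filter_upwards [(hV n).isOpen.mem_nhds hx] with y hy
        simp [hx, hy]
      · filter_upwards [(hV n).compl.isOpen.mem_nhds hx] with y hy
        exact ⟨fun h => absurd h hy, fun h => absurd h hx⟩
    filter_upwards [h1, hN] with y hy hyN
    have h2 : ∀ n, (y ∈ V n ↔ x ∈ V n) := by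
      intro n
      by_cases hn : n < k
      · exact hy n (Finset.mem_range.2 hn)
      · have h3 := hk n (not_lt.1 hn)
        constructor
        · intro h
          have : y ∈ V n ∩ N := ⟨h, hyN⟩
          rw [h3] at this
          exact absurd this (Set.notMem_empty _)
        · intro h
          have : x ∈ V n ∩ N := ⟨h, mem_of_mem_nhds hN⟩
          rw [h3] at this
          exact absurd this (Set.notMem_empty _)
    simp only [hf]
    congr 1
    ext j
    simp only [h2]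
  obtain ⟨M, hM⟩ := bounded_of_isLocallyConstant H hr hlc
  obtain ⟨x, hx⟩ := hne (M + 1)
  have h1 := hM x
  have h2 := Nat.find_spec (hfin x) (M + 1) (by
    have : Nat.find (hfin x) ≤ M := h1
    omega)
  exact h2 hx

variable [T3Space X]

/-- clopen, relatively countably compact neighbourhoods -/
lemma exists_clopen_RCC (H : AllKings X) (hX : LRCC X) (hr : Sel r) (x : X) :
    ∃ K : Set X, IsClopen K ∧ x ∈ K ∧ RCC K := by
  have hc := isCompact_Q H hX hr x
  obtain ⟨O, hO, hQO, hOR⟩ := hc.induction_on (p := fun s => ∃ O : Set X, IsOpen O ∧ s ⊆ O ∧ RCC O)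
    ⟨∅, isOpen_empty, Subset.rfl, RCC.empty⟩
    (fun s t hst ⟨O, hO, htO, hOR⟩ => ⟨O, hO, hst.trans htO, hOR⟩)
    (fun s t ⟨O, hO, hsO, hOR⟩ ⟨O', hO', htO, hOR'⟩ =>
      ⟨O ∪ O', hO.union hO', union_subset_union hsO htO, hOR.union hOR'⟩)
    (fun y _ => by
      obtain ⟨U, hU, hyU, hUR⟩ := hX y
      exact ⟨U, mem_nhdsWithin_of_mem_nhds (hU.mem_nhds hyU), U, hU, Subset.rfl, hUR⟩)
  obtain ⟨K, hK, hxK, hKO⟩ := exists_clopen H hX hr hO hQO
  exact ⟨K, hK, hxK, hOR.mono hKO⟩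

lemma RCC_univ_mono (H : AllKings X) (hX : LRCC X) (hr : Sel r) {x : ℕ → X}
    (hx : ∀ i j, i < j → r (x i) (x j)) : ∃ p, MapClusterPt p atTop x := by
  classical
  by_contra hcon
  -- pass to distinct quasi-components
  obtain ⟨φ, hφ, hall | hnone⟩ := ramsey fun i j => QC (x i) (x j)
  · apply hcon
    have hc := isCompact_Q H hX hr (x (φ 0))
    have hmem : ∀ n, x (φ n) ∈ Q (x (φ 0)) := by
      intro n
      rcases Nat.eq_zero_or_pos n with rfl | hn
      · exact mem_Q_self _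
      · exact hall 0 n hn
    obtain ⟨p, -, hp⟩ := hc.exists_mapClusterPt (f := atTop) (u := fun n => x (φ n))
      (by simpa using ⟨0, fun n _ => hmem n⟩)
    exact ⟨p, MapClusterPt.of_comp (φ := φ) (u := x) hφ.tendsto_atTop hp⟩
  set x' : ℕ → X := x ∘ φ with hx'def
  have hx' : ∀ i j, i < j → r (x' i) (x' j) := fun i j hij => hx _ _ (hφ hij)
  have hcon' : ¬ ∃ p, MapClusterPt p atTop x' := by
    rintro ⟨p, hp⟩
    exact hcon ⟨p, hp.of_comp hφ.tendsto_atTop⟩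
  have hqc : ∀ i j, i < j → ¬ QC (x' i) (x' j) := hnone
  -- clopen neighbourhoods
  have hKex : ∀ n, ∃ K : Set X, IsClopen K ∧ x' n ∈ K ∧
      K ⊆ (⋂ i ∈ Finset.range n, {w | r (x' i) w}) ∩ {w | r w (x' (n + 1))} := by
    intro n
    refine exists_clopen H hX hr
      ((isOpen_biInter_finset fun i _ => hr.isOpen_gt _).inter (hr.isOpen_lt _)) ?_
    intro w hw
    refine ⟨?_, dich hr hw (hqc n (n + 1) (Nat.lt_succ_self n)) (hx' n (n + 1)
      (Nat.lt_succ_self n))⟩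
    rw [mem_iInter₂]
    intro i hi
    have hi' := Finset.mem_range.1 hi
    exact dich' hr hw (fun h => hqc i n hi' h.symm) (hx' i n hi')
  choose K hK hxK hKsub using hKex
  obtain ⟨p, hp⟩ := clopen_cluster H hr K hK fun n => ⟨x' n, hxK n⟩
  obtain ⟨C, hC, hpC, hCR⟩ := exists_clopen_RCC H hX hr p
  have hfin : ∀ᶠ n in atTop, x' n ∉ C := by
    by_contra h
    apply hcon'
    apply hCR.frequently x'
    rw [Filter.Frequently]
    exact h
  obtain ⟨n₀, hn₀⟩ := eventually_atTop.1 hfin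
  have hfr := hp C (hC.isOpen.mem_nhds hpC)
  obtain ⟨μ, hμ1, hμ2⟩ := exists_seq_of_forall_finset_exists
    (fun n => n₀ ≤ n ∧ (K n ∩ C).Nonempty) (fun m n => m + 1 < n) (by
      intro s _
      obtain ⟨n, hn1, hn2⟩ := (hfr.and_eventually
        (eventually_ge_atTop (n₀ + s.sup id + 2))).exists
      refine ⟨n, ⟨by omega, hn1⟩, fun m hm => ?_⟩
      have : m ≤ s.sup id := Finset.le_sup (f := id) hm
      omega)
  choose hμge w₀ hw₀ using hμ1
  obtain ⟨ψ, hψ, p', hp'⟩ := exists_tendsto_subseq hr hCR (f := w₀) fun n => (hw₀ n).2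
  set w : ℕ → X := w₀ ∘ ψ with hwdef
  set ν : ℕ → ℕ := μ ∘ ψ with hνdef
  have hwK : ∀ k, w k ∈ K (ν k) := fun k => (hw₀ _).1
  have hwC : ∀ k, w k ∈ C := fun k => (hw₀ _).2
  have hν : ∀ k, ν k + 1 < ν (k + 1) := fun k => hμ2 _ _ (hψ (Nat.lt_succ_self k))
  have hp'C : p' ∈ C := hC.isClosed.mem_of_tendsto hp' (Eventually.of_forall hwC)
  set y : ℕ → X := fun k => x' (ν k + 1) with hy
  have hyC : ∀ k, y k ∉ C := fun k => hn₀ _ (by
    have : n₀ ≤ ν k := hμge _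
    omega)
  have hwy : ∀ k, r (w k) (y k) := fun k => (hKsub _ (hwK k)).2
  have hyw : ∀ k, r (y k) (w (k + 1)) := by
    intro k
    have h1 := (hKsub _ (hwK (k + 1))).1
    rw [mem_iInter₂] at h1
    exact h1 (ν k + 1) (Finset.mem_range.2 (hν k))
  have hYex : ∀ k, ∃ Y : Set X, IsClopen Y ∧ y k ∈ Y ∧
      Y ⊆ {v | r (w k) v} ∩ {v | r v (w (k + 1))} ∩ Cᶜ := by
    intro k
    refine exists_clopen H hX hr
      (((hr.isOpen_gt _).inter (hr.isOpen_lt _)).inter hC.compl.isOpen) ?_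
    intro v hv
    have hQw : ∀ j, ¬ QC (y k) (w j) := fun j h => hyC k (h.symm C hC (hwC j))
    refine ⟨⟨dich' hr hv (hQw k) (hwy k), dich hr hv (hQw (k + 1)) (hyw k)⟩, ?_⟩
    exact hv _ hC.compl (hyC k)
  choose Y hY hyY hYsub using hYex
  obtain ⟨q, hq⟩ := clopen_cluster H hr Y hY fun n => ⟨y n, hyY n⟩
  have hqC : q ∉ C := by
    intro hqC
    obtain ⟨k, v, hv1, hv2⟩ := (hq C (hC.isOpen.mem_nhds hqC)).exists
    exact (hYsub k hv1).2 hv2
  obtain ⟨U, hU, hqU, hUR⟩ := hX q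
  have hfr2 := hq (U ∩ Cᶜ) ((hU.inter hC.compl.isOpen).mem_nhds ⟨hqU, hqC⟩)
  obtain ⟨κ, hκ, hκ'⟩ := extraction_of_frequently_atTop hfr2
  choose v hv using hκ'
  obtain ⟨ρ, hρ, q', hq'⟩ := exists_tendsto_subseq hr (hUR.mono inter_subset_left : RCC (U ∩ Cᶜ))
    (f := v) fun n => (hv n).2
  have hq'C : q' ∈ Cᶜ := hC.compl.isClosed.mem_of_tendsto hq'
    (Eventually.of_forall fun n => (hv (ρ n)).2.2)
  have hpq : p' ≠ q' := by rintro rfl; exact hq'C hp'C
  have hmono : StrictMono (κ ∘ ρ) := hκ.comp hρ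
  have hw1 : Tendsto (fun n => w (κ (ρ n))) atTop (𝓝 p') := hp'.comp hmono.tendsto_atTop
  have hw2 : Tendsto (fun n => w (κ (ρ n) + 1)) atTop (𝓝 p') :=
    (hp'.comp (tendsto_add_atTop_nat 1)).comp hmono.tendsto_atTop
  rcases hr.total p' q' hpq with h | h
  · obtain ⟨A, B, hA, hB, hpA, hqB, hAB⟩ := hr.nhds p' q' h
    obtain ⟨n, hn1, hn2⟩ := ((hw2.eventually (hA.mem_nhds hpA)).and
      (hq'.eventually (hB.mem_nhds hqB))).exists
    exact hr.asymm _ _ (hAB _ hn1 _ hn2) (hYsub _ (hv (ρ n)).1).1.2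
  · obtain ⟨A, B, hA, hB, hqA, hpB, hAB⟩ := hr.nhds q' p' h
    obtain ⟨n, hn1, hn2⟩ := ((hw1.eventually (hB.mem_nhds hpB)).and
      (hq'.eventually (hA.mem_nhds hqA))).exists
    exact hr.asymm _ _ (hAB _ hn2 _ hn1) (hYsub _ (hv (ρ n)).1).1.1

/-- King spaces which are locally countably compact are countably compact. -/
lemma RCC_univ (H : AllKings X) (hX : LRCC X) (hr : Sel r) : RCC (univ : Set X) := by
  intro f _
  obtain ⟨φ, hφ, h | h | h⟩ := exists_mono_subseq hr f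
  · refine ⟨f (φ 0), mapClusterPt_iff_frequently.2 fun O hO => ?_⟩
    rw [Filter.frequently_atTop]
    intro k
    refine ⟨φ k, hφ.id_le k, ?_⟩
    rcases Nat.eq_zero_or_pos k with rfl | hk
    · exact mem_of_mem_nhds hO
    · rw [← h 0 k hk]; exact mem_of_mem_nhds hO
  · obtain ⟨p, hp⟩ := RCC_univ_mono H hX hr (x := f ∘ φ) h
    exact ⟨p, hp.of_comp hφ.tendsto_atTop⟩
  · obtain ⟨p, hp⟩ := RCC_univ_mono H hX hr.flip (x := f ∘ φ) h
    exact ⟨p, hp.of_comp hφ.tendsto_atTop⟩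

omit [T3Space X] in
/-- slices are locally constant -/
lemma slice_locallyConstant (hr : Sel r) (hc : RCC (univ : Set X)) {K : Set X} (hK : IsClopen K) :
    IsLocallyConstant (fun y : X => {x | x ∈ K ∧ y ∉ K ∧ r x y}) := by
  classical
  rw [IsLocallyConstant.iff_eventually_eq]
  intro y₀
  by_cases hy₀ : y₀ ∈ K
  · filter_upwards [hK.isOpen.mem_nhds hy₀] with y hy
    ext x
    simp [hy, hy₀]
  by_contra hcon
  -- states: open neighbourhoods of `y₀` missing `K`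
  obtain ⟨V, c, hVc⟩ := rec_seq (α := Set X) (β := X × X) {V | IsOpen V ∧ y₀ ∈ V ∧ V ⊆ Kᶜ}
    ⟨Kᶜ, hK.compl.isOpen, hy₀, Subset.rfl⟩
    (fun V c V' => c.1 ∈ K ∧ c.2 ∈ V ∧ ((r c.1 c.2 ∧ ∀ y ∈ V', r y c.1) ∨
      (r c.2 c.1 ∧ ∀ y ∈ V', r c.1 y)) ∧ V' ⊆ V) (by
      rintro V ⟨hV, hyV, hVK⟩
      have h1 : ∃ y ∈ V, {x | x ∈ K ∧ y ∉ K ∧ r x y} ≠ {x | x ∈ K ∧ y₀ ∉ K ∧ r x y₀} := by
        by_contra h
        push Not at h
        exact hcon (Filter.mem_of_superset (hV.mem_nhds hyV) h)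
      obtain ⟨y, hy, hne⟩ := h1
      have h2 : ∃ x ∈ K, ¬ (r x y ↔ r x y₀) := by
        by_contra h
        push Not at h
        apply hne
        ext x
        simp only [mem_ofPred_eq]
        constructor
        · rintro ⟨hx, -, h'⟩; exact ⟨hx, hy₀, (h x hx).1 h'⟩
        · rintro ⟨hx, -, h'⟩; exact ⟨hx, hVK hy, (h x hx).2 h'⟩
      obtain ⟨x, hx, hxy⟩ := h2
      have hxy₀ : x ≠ y₀ := by rintro rfl; exact hy₀ hx
      have hxy' : x ≠ y := by rintro rfl; exact hVK hy hx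
      rcases hr.total x y₀ hxy₀ with h | h
      · have h3 : r y x := (hr.total _ _ hxy').resolve_left fun h' => hxy ⟨fun _ => h, fun _ => h'⟩
        exact ⟨(x, y), V ∩ {w | r x w}, ⟨hV.inter (hr.isOpen_gt x), ⟨hyV, h⟩,
          inter_subset_left.trans hVK⟩, hx, hy, Or.inr ⟨h3, fun w hw => hw.2⟩,
          inter_subset_left⟩
      · have h3 : r x y := by
          by_contra h'
          exact hxy ⟨fun h'' => absurd h'' h', fun h'' => absurd h (hr.asymm _ _ h'')⟩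
        exact ⟨(x, y), V ∩ {w | r w x}, ⟨hV.inter (hr.isOpen_lt x), ⟨hyV, h⟩,
          inter_subset_left.trans hVK⟩, hx, hy, Or.inl ⟨h3, fun w hw => hw.2⟩,
          inter_subset_left⟩)
  have hsub : ∀ m n, m ≤ n → V n ⊆ V m := by
    intro m n hmn
    induction n, hmn using Nat.le_induction with
    | base => exact Subset.rfl
    | succ n _ ih => exact (hVc n).2.2.2.2.trans ih
  have hxK : ∀ n, (c n).1 ∈ K := fun n => (hVc n).2.1
  have hyK : ∀ n, (c n).2 ∈ Kᶜ := fun n => (hVc n).1.2.2 (hVc n).2.2.1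
  -- pass to constant type
  have hkey : ∀ (s : X → X → Prop), Sel s → ∀ φ : ℕ → ℕ, StrictMono φ →
      (∀ n, s (c (φ n)).1 (c (φ n)).2) → (∀ m n, m < n → s (c (φ n)).2 (c (φ m)).1) → False := by
    intro s hs φ hφ h1 h2
    obtain ⟨ψ, hψ, p, hp⟩ := exists_tendsto_subseq hs hc (f := fun n => (c (φ n)).1)
      fun n => mem_univ _
    obtain ⟨ψ', hψ', q, hq⟩ := exists_tendsto_subseq hs hc (f := fun n => (c (φ (ψ n))).2)
      fun n => mem_univ _
    have hp' : Tendsto (fun n => (c (φ (ψ (ψ' n)))).1) atTop (𝓝 p) := hp.comp hψ'.tendsto_atTop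
    have hq' : Tendsto (fun n => (c (φ (ψ (ψ' n)))).2) atTop (𝓝 q) := hq
    have hpK : p ∈ K := hK.isClosed.mem_of_tendsto hp' (Eventually.of_forall fun n => hxK _)
    have hqK : q ∈ Kᶜ := hK.compl.isClosed.mem_of_tendsto hq' (Eventually.of_forall fun n => hyK _)
    have hpq : p ≠ q := by rintro rfl; exact hqK hpK
    rcases hs.total p q hpq with h | h
    · obtain ⟨A, B, hA, hB, hpA, hqB, hAB⟩ := hs.nhds p q h
      obtain ⟨n, hn⟩ := (hp'.eventually (hA.mem_nhds hpA)).exists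
      obtain ⟨m, hm1, hm2⟩ := ((hq'.eventually (hB.mem_nhds hqB)).and
        (eventually_gt_atTop n)).exists
      exact hs.asymm _ _ (hAB _ hn _ hm1) (h2 _ _ (hψ (hψ' hm2)))
    · obtain ⟨A, B, hA, hB, hqA, hpB, hAB⟩ := hs.nhds q p h
      obtain ⟨n, hn1, hn2⟩ := ((hp'.eventually (hB.mem_nhds hpB)).and
        (hq'.eventually (hA.mem_nhds hqA))).exists
      exact hs.asymm _ _ (hAB _ hn2 _ hn1) (h1 _)
  have htype : (∃ᶠ n in atTop, (r (c n).1 (c n).2 ∧ ∀ y ∈ V (n + 1), r y (c n).1)) ∨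
      (∃ᶠ n in atTop, (r (c n).2 (c n).1 ∧ ∀ y ∈ V (n + 1), r (c n).1 y)) := by
    rw [← frequently_or_distrib]
    exact Frequently.of_forall fun n => (hVc n).2.2.2.1
  rcases htype with h | h
  · obtain ⟨φ, hφ, hφ'⟩ := extraction_of_frequently_atTop h
    refine hkey r hr φ hφ (fun n => (hφ' n).1) fun m n hmn => (hφ' m).2 _ ?_
    exact hsub _ _ (Nat.succ_le_of_lt (hφ hmn)) (hVc (φ n)).2.2.1
  · obtain ⟨φ, hφ, hφ'⟩ := extraction_of_frequently_atTop h
    refine hkey _ hr.flip φ hφ (fun n => (hφ' n).1) fun m n hmn => (hφ' m).2 _ ?_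
    exact hsub _ _ (Nat.succ_le_of_lt (hφ hmn)) (hVc (φ n)).2.2.1

omit [T3Space X] in
/-- the traces of an ultrafilter -/
lemma trace (H : AllKings X) (hr : Sel r) (hc : RCC (univ : Set X)) (f : Ultrafilter X)
    {K : Set X} (hK : IsClopen K) (hKf : K ∉ f) :
    IsClopen (K ∩ {x | {y | r x y} ∈ f}) ∧
      {y | y ∉ K ∧ ∀ x ∈ K, (r x y ↔ {y | r x y} ∈ f)} ∈ f := by
  classical
  set g : X → Set X := fun y : X => {x | x ∈ K ∧ y ∉ K ∧ r x y} with hg
  have hglc := slice_locallyConstant hr hc hK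
  have hfin := finite_range_of_isLocallyConstant H hr hglc
  have hval : ∃ z ∈ range g, g ⁻¹' {z} ∈ f := by
    have h1 : (⋃ z ∈ range g, g ⁻¹' {z}) ∈ f := by
      have : (⋃ z ∈ range g, g ⁻¹' {z}) = univ := by
        ext y; simp
      rw [this]; exact Filter.univ_mem
    exact (Ultrafilter.finite_biUnion_mem_iff hfin).1 h1
  obtain ⟨z, -, hz⟩ := hval
  have hKc : Kᶜ ∈ f := Ultrafilter.compl_mem_iff_notMem.2 hKf
  have hzK : {y | y ∉ K ∧ {x | x ∈ K ∧ r x y} = z} ∈ f := by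
    filter_upwards [hz, hKc] with y hy1 hy2
    refine ⟨hy2, ?_⟩
    rw [← (show g y = z from hy1)]
    ext x
    simp only [hg, mem_ofPred_eq]
    exact ⟨fun h => ⟨h.1, hy2, h.2⟩, fun h => ⟨h.1, h.2.2⟩⟩
  have hzeq : K ∩ {x | {y | r x y} ∈ f} = z := by
    ext x
    constructor
    · rintro ⟨hx, hxf⟩
      obtain ⟨y, ⟨-, hy2⟩, hy3⟩ := f.nonempty_of_mem (Filter.inter_mem hzK hxf)
      rw [← hy2]
      exact ⟨hx, hy3⟩
    · intro hx
      have hxK : x ∈ K := by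
        obtain ⟨y, -, hy2⟩ := f.nonempty_of_mem hzK
        rw [← hy2] at hx
        exact hx.1
      refine ⟨hxK, ?_⟩
      simp only [mem_ofPred_eq]
      filter_upwards [hzK] with y hy
      rw [← hy.2] at hx
      exact hx.2
  refine ⟨?_, ?_⟩
  · rw [hzeq]
    obtain ⟨y, hy1, hy2⟩ := f.nonempty_of_mem hzK
    rw [← hy2]
    exact hr.isClopen_slice hK hy1
  · filter_upwards [hzK] with y hy
    refine ⟨hy.1, fun x hx => ?_⟩
    have h1 : x ∈ z ↔ {y | r x y} ∈ f := by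
      rw [← hzeq]
      exact ⟨fun h => h.2, fun h => ⟨hx, h⟩⟩
    rw [← h1, ← hy.2]
    exact ⟨fun h => ⟨hx, h⟩, fun h => h.2⟩

omit [T3Space X] in
/-- No king if there is a free ultrafilter lying above everything. -/
lemma no_king (H : AllKings X) (hr : Sel r) (hc : RCC (univ : Set X)) (f : Ultrafilter X)
    (hfree : ∀ x : X, ∃ K : Set X, IsClopen K ∧ x ∈ K ∧ K ∉ f)
    (hA : {x | {y | r x y} ∈ f} ∈ f) : False := by
  classical
  set A : Set X := {x | {y | r x y} ∈ f} with hAdef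
  have hAclopen : IsClopen A := by
    have hloc : ∀ x, ∃ K : Set X, IsClopen K ∧ x ∈ K ∧ IsClopen (K ∩ A) := by
      intro x
      obtain ⟨K, hK, hxK, hKf⟩ := hfree x
      exact ⟨K, hK, hxK, (trace H hr hc f hK hKf).1⟩
    constructor
    · rw [← isOpen_compl_iff, isOpen_iff_mem_nhds]
      intro x hx
      obtain ⟨K, hK, hxK, hKA⟩ := hloc x
      have : K ∩ (K ∩ A)ᶜ ∈ 𝓝 x := (hK.isOpen.inter hKA.compl.isOpen).mem_nhds
        ⟨hxK, fun h => hx h.2⟩
      exact Filter.mem_of_superset this fun y hy h => hy.2 ⟨hy.1, h⟩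
    · rw [isOpen_iff_mem_nhds]
      intro x hx
      obtain ⟨K, hK, hxK, hKA⟩ := hloc x
      exact Filter.mem_of_superset (hKA.isOpen.mem_nhds ⟨hxK, hx⟩) inter_subset_right
  -- the operator `K ↦ K⁺`
  have hplus : ∀ K : Set X, IsClopen K → K ⊆ A → K ∉ f → ∃ L : Set X, IsClopen L ∧ L ⊆ A ∧ L ∉ f ∧
      K ⊆ L ∧ ∀ y ∈ A, y ∉ L → ∀ x ∈ K, r x y := by
    intro K hK hKA hKf
    obtain ⟨-, h2⟩ := trace H hr hc f hK hKf
    -- V = {y ∈ A \ K : K < y}
    have hlc := slice_locallyConstant hr hc hK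
    have hVclopen : IsClopen ((fun y : X => {x | x ∈ K ∧ y ∉ K ∧ r x y}) ⁻¹' {K}) :=
      ⟨hlc.isClosed_fiber K, hlc.isOpen_fiber K⟩
    set V : Set X := (A ∩ Kᶜ) ∩ ((fun y : X => {x | x ∈ K ∧ y ∉ K ∧ r x y}) ⁻¹' {K}) with hV
    have hVc : IsClopen V := (hAclopen.inter hK.compl).inter hVclopen
    have hVf : V ∈ f := by
      filter_upwards [h2, hA] with y hy hyA
      refine ⟨⟨hyA, hy.1⟩, ?_⟩
      simp only [mem_preimage, mem_singleton_iff]
      ext x
      simp only [mem_ofPred_eq]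
      exact ⟨fun h => h.1, fun h => ⟨h, hy.1, (hy.2 x h).2 (hKA h)⟩⟩
    refine ⟨A \ V, hAclopen.diff hVc, sdiff_subset, ?_, ?_, ?_⟩
    · intro h
      obtain ⟨y, hy1, hy2⟩ := f.nonempty_of_mem (Filter.inter_mem h hVf)
      exact hy1.2 hy2
    · intro x hx
      exact ⟨hKA hx, fun h => h.1.2 hx⟩
    · intro y hyA hyL x hx
      have hyV : y ∈ V := by
        by_contra h
        exact hyL ⟨hyA, h⟩
      have h3 : {x | x ∈ K ∧ y ∉ K ∧ r x y} = K := hyV.2
      have h4 : x ∈ {x | x ∈ K ∧ y ∉ K ∧ r x y} := by rw [h3]; exact hx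
      exact h4.2.2
  obtain ⟨z, hzA, hz⟩ := hasKing_of_isClopen H hr hAclopen (f.nonempty_of_mem hA)
  obtain ⟨K₀, hK₀, hzK₀, hK₀f⟩ := hfree z
  have hK₁f : K₀ ∩ A ∉ f := fun h => hK₀f (Filter.mem_of_superset h inter_subset_left)
  obtain ⟨L, hL, hLA, hLf, hKL, hL'⟩ := hplus (K₀ ∩ A) (hK₀.inter hAclopen) inter_subset_right hK₁f
  obtain ⟨M, hM, hMA, hMf, hLM, hM'⟩ := hplus L hL hLA hLf
  have hMne : ∃ x ∈ A, x ∉ M := by
    by_contra h
    push Not at h
    exact hMf (Filter.mem_of_superset hA h)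
  obtain ⟨x, hxA, hxM⟩ := hMne
  obtain ⟨y, hyA, h1, h2⟩ := hz x hxA
  have hyL : y ∈ L := by
    by_contra hyL
    have h3 := hL' y hyA hyL z ⟨hzK₀, hzA⟩
    rcases h2 with rfl | h2
    · exact hr.irrefl _ h3
    · exact hr.asymm _ _ h2 h3
  have h3 := hM' x hxA hxM y hyL
  rcases h1 with rfl | h1
  · exact hr.irrefl _ h3
  · exact hr.asymm _ _ h1 h3

/-- Main theorem in the relational form. -/
theorem main (H : AllKings X) (hX : LRCC X) (hr : Sel r) : CompactSpace X := by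
  classical
  refine ⟨?_⟩
  rw [isCompact_iff_ultrafilter_le_nhds]
  intro f _
  by_contra hcon
  push Not at hcon
  have hc := RCC_univ H hX hr
  have hfree : ∀ x : X, ∃ K : Set X, IsClopen K ∧ x ∈ K ∧ K ∉ f := by
    intro x
    obtain ⟨O, hO, hQO, hOf⟩ := (isCompact_Q H hX hr x).induction_on
      (p := fun s => ∃ O : Set X, IsOpen O ∧ s ⊆ O ∧ O ∉ f)
      ⟨∅, isOpen_empty, Subset.rfl, Ultrafilter.empty_notMem⟩
      (fun s t hst ⟨O, hO, htO, hOR⟩ => ⟨O, hO, hst.trans htO, hOR⟩)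
      (fun s t ⟨O, hO, hsO, hOR⟩ ⟨O', hO', htO, hOR'⟩ =>
        ⟨O ∪ O', hO.union hO', union_subset_union hsO htO, by
          rw [Ultrafilter.union_mem_iff]; tauto⟩)
      (fun y _ => by
        have h1 := hcon y (mem_univ _)
        rw [Filter.not_le] at h1
        obtain ⟨N, hN, hNf⟩ := h1
        obtain ⟨U, hUN, hU, hyU⟩ := mem_nhds_iff.1 hN
        exact ⟨U, mem_nhdsWithin_of_mem_nhds (hU.mem_nhds hyU), U, hU, Subset.rfl,
          fun h => hNf (Filter.mem_of_superset h hUN)⟩)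
    obtain ⟨K, hK, hxK, hKO⟩ := exists_clopen H hX hr hO hQO
    exact ⟨K, hK, hxK, fun h => hOf (Filter.mem_of_superset h hKO)⟩
  by_cases hA : {x | {y | r x y} ∈ f} ∈ f
  · exact no_king H hr hc f hfree hA
  · rw [← Ultrafilter.compl_mem_iff_notMem] at hA
    refine no_king H hr.flip hc f hfree (Filter.mem_of_superset hA ?_)
    intro x hx
    have hx' : {y | r x y} ∉ f := hx
    rw [← Ultrafilter.compl_mem_iff_notMem] at hx'
    obtain ⟨K, -, hxK, hKf⟩ := hfree x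
    rw [← Ultrafilter.compl_mem_iff_notMem] at hKf
    simp only [mem_ofPred_eq]
    filter_upwards [hx', hKf] with y hy hyK
    have hxy : x ≠ y := by rintro rfl; exact hyK hxK
    exact (hr.total _ _ hxy).resolve_left hy

end Pool.Agent.N485.King
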