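import Pool.Agent.N485.KingBase

/-!
# Quasi-components of spaces with continuous weak selections
-/

namespace Pool.Agent.N485.King

open Set Filter Topology

universe u

variable {X : Type u} [TopologicalSpace X]

/-- same quasi-component -/
def QC (x y : X) : Prop := ∀ s : Set X, IsClopen s → x ∈ s → y ∈ s

lemma QC.refl (x : X) : QC x x := fun _ _ h => h

lemma QC.symm {x y : X} (h : QC x y) : QC y x := fun s hs hy => by
  by_contra hx
  exact h sᶜ hs.compl hx hy

lemma QC.trans {x y z : X} (h : QC x y) (h' : QC y z) : QC x z := fun s hs hx =>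
  h' s hs (h s hs hx)

/-- the quasi-component of `x` -/
def Q (x : X) : Set X := {y | QC x y}

lemma mem_Q_self (x : X) : x ∈ Q x := QC.refl x

lemma isClosed_Q (x : X) : IsClosed (Q x) := by
  have : Q x = ⋂ s : {s : Set X // IsClopen s ∧ x ∈ s}, s.1 := by
    ext y
    simp only [Q, QC, mem_iInter, mem_ofPred_eq]
    exact ⟨fun h s => h s.1 s.2.1 s.2.2, fun h s hs hx => h ⟨s, hs, hx⟩⟩
  rw [this]
  exact isClosed_iInter fun s => s.2.1.isClosed

lemma not_QC {x y : X} (h : ¬ QC x y) : ∃ s : Set X, IsClopen s ∧ x ∈ s ∧ y ∉ s := by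
  unfold QC at h
  push Not at h
  exact h

variable {r : X → X → Prop}

lemma dich (hr : Sel r) {a b z : X} (hab : QC a b) (haz : ¬ QC a z) (h : r a z) : r b z := by
  obtain ⟨s, hs, ha, hz⟩ := not_QC haz
  exact (hab _ (hr.isClopen_slice hs hz) ⟨ha, h⟩).2

lemma dich' (hr : Sel r) {a b z : X} (hab : QC a b) (haz : ¬ QC a z) (h : r z a) : r z b :=
  dich hr.flip hab haz h

lemma qtrans (hr : Sel r) {a b c : X} (hab : QC a b) (h1 : r a b) (h2 : r b c) : r a c := by
  by_contra h3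
  have hac : a ≠ c := by rintro rfl; exact hr.asymm _ _ h1 h2
  have hca : r c a := (hr.total a c hac).resolve_left h3
  have hB : IsClopen ({x | r c x} ∩ {x | r x b}) := by
    refine ⟨?_, (hr.isOpen_gt c).inter (hr.isOpen_lt b)⟩
    have : {x | r c x} ∩ {x | r x b} = {x | x = c ∨ r c x} ∩ {x | x = b ∨ r x b} := by
      ext x
      simp only [mem_inter_iff, mem_ofPred_eq]
      constructor
      · rintro ⟨h, h'⟩; exact ⟨Or.inr h, Or.inr h'⟩
      · rintro ⟨rfl | h, rfl | h'⟩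
        · exact absurd h2 (hr.irrefl _)
        · exact absurd h' (hr.asymm _ _ h2)
        · exact absurd h (hr.asymm _ _ h2)
        · exact ⟨h, h'⟩
    rw [this]
    exact (hr.isClosed_ge c).inter (hr.isClosed_le b)
  exact hr.irrefl b (hab _ hB ⟨hca, h1⟩).2

lemma qtrans' (hr : Sel r) {a b c : X} (hbc : QC b c) (h1 : r a b) (h2 : r b c) : r a c :=
  qtrans hr.flip hbc.symm h2 h1

/-- Each quasi-component has a maximum, in a king space. -/
lemma exists_max (H : AllKings X) (hr : Sel r) (x : X) :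
    ∃ m, QC x m ∧ ∀ y, QC x y → y = m ∨ r y m := by
  by_contra hcon
  push Not at hcon
  have hup : ∀ c, QC x c → ∃ c', QC x c' ∧ r c c' := by
    intro c hc
    obtain ⟨y, hy, hne, hn⟩ := hcon c hc
    exact ⟨y, hy, (hr.total _ _ hne).resolve_left hn⟩
  set R : Set X := {y | ∀ c, QC x c → r c y} with hR
  have hRopen : IsOpen R := by
    rw [isOpen_iff_mem_nhds]
    intro y hy
    have hyQ : ¬ QC x y := fun h => hr.irrefl _ (hy y h)
    obtain ⟨s, hs, hxs, hys⟩ := not_QC hyQ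
    have : sᶜ ∩ {w | r x w} ∈ 𝓝 y :=
      (hs.compl.isOpen.inter (hr.isOpen_gt x)).mem_nhds ⟨hys, hy x (QC.refl x)⟩
    refine Filter.mem_of_superset this ?_
    rintro w ⟨hw1, hw2⟩ c hc
    exact dich hr hc (fun h => hw1 (h s hs hxs)) hw2
  have hRclosed : IsClosed R := by
    rw [← isOpen_compl_iff, isOpen_iff_mem_nhds]
    intro y hy
    simp only [hR, mem_compl_iff, mem_ofPred_eq, not_forall] at hy
    obtain ⟨c, hc, hcy⟩ := hy
    obtain ⟨c', hc', hcc'⟩ := hup c hc
    have hyc' : r y c' := by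
      by_cases h : y = c
      · rw [h]; exact hcc'
      · exact qtrans' hr (hc.symm.trans hc') ((hr.total _ _ h).resolve_right hcy) hcc'
    refine Filter.mem_of_superset ((hr.isOpen_lt c').mem_nhds hyc') ?_
    intro w hw hwR
    exact hr.asymm _ _ hw (hwR c' hc')
  have hA : IsClopen Rᶜ := IsClopen.compl ⟨hRclosed, hRopen⟩
  have hQA : ∀ c, QC x c → c ∈ Rᶜ := fun c hc h => hr.irrefl _ (h c hc)
  have hlow : ∀ y ∈ Rᶜ, ¬ QC x y → ∀ c, QC x c → r y c := by
    intro y hy hyQ c hc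
    have hyx : y ≠ c := by rintro rfl; exact hyQ hc
    rcases hr.total y c hyx with h | h
    · exact h
    · exfalso
      exact hy fun c' hc' => dich hr (hc.symm.trans hc') (fun h => hyQ (hc.trans h)) h
  obtain ⟨z, hz, hking⟩ := hasKing_of_isClopen H hr hA ⟨x, hQA x (QC.refl x)⟩
  by_cases hzQ : QC x z
  · obtain ⟨c', hc', hzc'⟩ := hup z hzQ
    obtain ⟨y, hy, h1, h2⟩ := hking c' (hQA c' hc')
    by_cases hyQ : QC x y
    · rcases h1 with rfl | h1
      · rcases h2 with rfl | h2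
        · exact hr.irrefl _ hzc'
        · exact hr.asymm _ _ h2 hzc'
      · rcases h2 with rfl | h2
        · exact hr.asymm _ _ h1 hzc'
        · exact hr.asymm _ _ (qtrans hr (hc'.symm.trans hyQ) h1 h2) hzc'
    · have := hlow y hy hyQ c' hc'
      rcases h1 with rfl | h1
      · exact hyQ hc'
      · exact hr.asymm _ _ h1 this
  · have hzlow := hlow z hz hzQ
    obtain ⟨y, hy, h1, h2⟩ := hking x (hQA x (QC.refl x))
    by_cases hyQ : QC x y
    · rcases h2 with rfl | h2
      · exact hzQ hyQ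
      · exact hr.asymm _ _ h2 (hzlow y hyQ)
    · have := hlow y hy hyQ x (QC.refl x)
      rcases h1 with rfl | h1
      · exact hyQ (QC.refl x)
      · exact hr.asymm _ _ h1 this

lemma exists_min (H : AllKings X) (hr : Sel r) (x : X) :
    ∃ m, QC x m ∧ ∀ y, QC x y → y = m ∨ r m y := exists_max H hr.flip x

lemma interval_QC (hr : Sel r) {c y w : X} (hcy : QC c y) (h1 : r c w) (h2 : r w y) : QC c w := by
  by_contra h
  exact hr.asymm _ _ h2 (dich hr hcy h h1)

/-- no jumps -/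
lemma noJump (hr : Sel r) {c y : X} (hcy : QC c y) (h : r c y) :
    c ∈ closure {w | r c w ∧ r w y} := by
  by_contra hcl
  rw [mem_closure_iff_nhds] at hcl
  push Not at hcl
  obtain ⟨N, hN, hN'⟩ := hcl
  have hclopen : IsClopen {w | r c w} := by
    refine ⟨?_, hr.isOpen_gt c⟩
    rw [← isOpen_compl_iff, isOpen_iff_mem_nhds]
    intro w hw
    by_cases hwc : w = c
    · rw [hwc]
      refine Filter.mem_of_superset (inter_mem hN ((hr.isOpen_lt y).mem_nhds h)) ?_
      rintro v ⟨hv1, hv2⟩ hv3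
      have : v ∈ N ∩ {w | r c w ∧ r w y} := ⟨hv1, hv3, hv2⟩
      rw [hN'] at this
      exact this
    · have hwc' : r w c := (hr.total _ _ hwc).resolve_right hw
      exact Filter.mem_of_superset ((hr.isOpen_lt c).mem_nhds hwc') fun v hv => hr.asymm _ _ hv
  exact hr.irrefl c (hcy.symm _ hclopen h)

lemma noJump_nhds (hr : Sel r) {c y : X} (hcy : QC c y) (h : r c y) {N : Set X} (hN : N ∈ 𝓝 c) :
    ∃ w ∈ N, r c w ∧ r w y := by
  obtain ⟨w, hw1, hw2⟩ := mem_closure_iff_nhds.1 (noJump hr hcy h) N hN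
  exact ⟨w, hw1, hw2⟩

/-- the cut lemma -/
lemma cut (hr : Sel r) {x : X} {S : Set X} (hSQ : ∀ a ∈ S, QC x a)
    (hdown : ∀ a ∈ S, ∀ b, QC x b → r b a → b ∈ S) {a₀ b₀ : X} (ha₀ : a₀ ∈ S) (hb₀ : QC x b₀)
    (hb₀S : b₀ ∉ S) :
    (∃ s ∈ S, ∀ a ∈ S, a = s ∨ r a s) ∨
      (∃ t, QC x t ∧ t ∉ S ∧ ∀ b, QC x b → b ∉ S → b = t ∨ r t b) := by
  by_contra hcon
  push Not at hcon
  obtain ⟨h1, h2⟩ := hcon
  have h1' : ∀ s ∈ S, ∃ a ∈ S, r s a := by
    intro s hs
    obtain ⟨a, ha, hne, hn⟩ := h1 s hs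
    exact ⟨a, ha, (hr.total _ _ hne).resolve_left hn⟩
  have h2' : ∀ t, QC x t → t ∉ S → ∃ b, QC x b ∧ b ∉ S ∧ r b t := by
    intro t ht htS
    obtain ⟨b, hb, hbS, hne, hn⟩ := h2 t ht htS
    exact ⟨b, hb, hbS, (hr.total _ _ hne).resolve_right hn⟩
  set G : Set X := ⋃ s ∈ S, {w | r w s} with hG
  set G' : Set X := ⋃ t ∈ {t | QC x t ∧ t ∉ S}, {w | r t w} with hG'
  have hGo : IsOpen G := isOpen_biUnion fun s _ => hr.isOpen_lt s
  have hGo' : IsOpen G' := isOpen_biUnion fun s _ => hr.isOpen_gt s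
  have hcompl : Gᶜ = G' := by
    ext w
    simp only [mem_compl_iff, hG, hG', mem_iUnion, mem_ofPred_eq, not_exists]
    constructor
    · intro h
      by_cases hw : QC x w
      · have hwS : w ∉ S := by
          intro hwS
          obtain ⟨a, ha, hwa⟩ := h1' w hwS
          exact h a ha hwa
        obtain ⟨b, hb, hbS, hbw⟩ := h2' w hw hwS
        exact ⟨b, ⟨hb, hbS⟩, hbw⟩
      · refine ⟨b₀, ⟨hb₀, hb₀S⟩, ?_⟩
        have h3 := h a₀ ha₀
        have hne : w ≠ a₀ := by rintro rfl; exact hw (hSQ _ ha₀)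
        have h4 : r a₀ w := (hr.total _ _ hne).resolve_left h3
        exact dich hr ((hSQ _ ha₀).symm.trans hb₀) (fun h => hw ((hSQ _ ha₀).trans h)) h4
    · rintro ⟨t, ⟨ht, htS⟩, htw⟩ s hs hws
      by_cases hw : QC x w
      · have hwS : w ∈ S := hdown s hs w hw hws
        exact htS (hdown w hwS t ht htw)
      · have := dich hr (ht.symm.trans (hSQ s hs)) (fun h => hw (ht.trans h)) htw
        exact hr.asymm _ _ hws this
  have hclopen : IsClopen G := by
    refine ⟨?_, hGo⟩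
    rw [← isOpen_compl_iff, hcompl]
    exact hGo'
  have ha₀G : a₀ ∈ G := by
    obtain ⟨a, ha, h⟩ := h1' a₀ ha₀
    exact mem_biUnion ha h
  have hb₀G : b₀ ∈ G := ((hSQ _ ha₀).symm.trans hb₀) G hclopen ha₀G
  have : b₀ ∈ Gᶜ := by
    rw [hcompl]
    obtain ⟨b, hb, hbS, h⟩ := h2' b₀ hb₀ hb₀S
    exact mem_biUnion (x := b) ⟨hb, hbS⟩ h
  exact this hb₀G

/-- local relative countable compactness -/
def LRCC (X : Type u) [TopologicalSpace X] : Prop := ∀ x : X, ∃ U : Set X, IsOpen U ∧ x ∈ U ∧ RCC U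

variable [T3Space X]

lemma exists_open_closure_subset {x : X} {O : Set X} (hO : O ∈ 𝓝 x) :
    ∃ V : Set X, IsOpen V ∧ x ∈ V ∧ closure V ⊆ O := by
  obtain ⟨s, hs, hsc, hsO⟩ := exists_mem_nhds_isClosed_subset hO
  obtain ⟨V, hVs, hV, hxV⟩ := mem_nhds_iff.1 hs
  exact ⟨V, hV, hxV, (closure_minimal hVs hsc).trans hsO⟩

/-- in a quasi-component, passing from outside `V` to inside `V` meets the boundary -/
lemma meets_boundary (hX : LRCC X) (hr : Sel r) {V : Set X} (hV : IsOpen V) (hVR : RCC V)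
    {b y : X} (hby : QC b y) (hb : b ∉ V) (hy : y ∈ V) (h : r b y) :
    ∃ s, QC b s ∧ (s = b ∨ r b s) ∧ r s y ∧ s ∈ closure V ∧ s ∉ V := by
  set S : Set X := {x | QC b x ∧ ∀ w, (w = b ∨ r b w) → (w = x ∨ r w x) → w ∉ V} with hS
  have hSQ : ∀ a ∈ S, QC b a := fun a ha => ha.1
  have hdown : ∀ a ∈ S, ∀ c, QC b c → r c a → c ∈ S := by
    intro a ha c hc hca
    refine ⟨hc, fun w hw1 hw2 => ha.2 w hw1 ?_⟩
    right
    rcases hw2 with rfl | hw2
    · exact hca
    · exact qtrans' hr (hc.symm.trans ha.1) hw2 hca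
  have hbS : b ∈ S := by
    refine ⟨QC.refl b, fun w hw1 hw2 => ?_⟩
    rcases hw1 with rfl | hw1
    · exact hb
    · rcases hw2 with rfl | hw2
      · exact hb
      · exact absurd hw2 (hr.asymm _ _ hw1)
  have hyS : y ∉ S := fun hyS => hyS.2 y (Or.inr h) (Or.inl rfl) hy
  rcases cut hr hSQ hdown hbS hby hyS with ⟨s, hs, hmax⟩ | ⟨t, ht, htS, hmin⟩
  · -- max of S
    have hbs : s = b ∨ r b s := by
      rcases hmax b hbS with h | h
      · exact Or.inl h.symm
      · exact Or.inr h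
    have hsV : s ∉ V := hs.2 s hbs (Or.inl rfl)
    have hsy : r s y := by
      have hne : s ≠ y := by rintro rfl; exact hyS hs
      exact (hr.total _ _ hne).resolve_right fun h => hyS (hdown s hs y hby h)
    refine ⟨s, hs.1, hbs, hsy, ?_, hsV⟩
    by_contra hcl
    -- points of `V` right above `s`
    have hV' : ∀ x, QC s x → r s x → ∃ w ∈ V, QC s w ∧ r s w ∧ (w = x ∨ r w x) := by
      intro x hx hsx
      have hxS : x ∉ S := fun hxS => by
        rcases hmax x hxS with rfl | h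
        · exact hr.irrefl _ hsx
        · exact hr.asymm _ _ h hsx
      simp only [hS, mem_ofPred_eq, not_and, not_forall, not_not] at hxS
      obtain ⟨w, hw1, hw2, hwV⟩ := hxS (hs.1.trans hx)
      have hbw : QC b w := by
        rcases hw1 with rfl | hw1
        · exact QC.refl _
        · rcases hw2 with rfl | hw2
          · exact hs.1.trans hx
          · exact interval_QC hr (hs.1.trans hx) hw1 hw2
      have hwS : w ∉ S := fun hwS => hwS.2 w hw1 (Or.inl rfl) hwV
      have hsw : r s w := by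
        have hne : s ≠ w := by rintro rfl; exact hwS hs
        exact (hr.total _ _ hne).resolve_right fun h => hwS (hdown s hs w hbw h)
      exact ⟨w, hwV, hs.1.symm.trans hbw, hsw, hw2⟩
    obtain ⟨U, hU, hsU, hUR⟩ := hX s
    obtain ⟨N, hN, hsN, hNU⟩ := exists_open_closure_subset
      ((hU.inter isClosed_closure.isOpen_compl).mem_nhds ⟨hsU, hcl⟩)
    refine interleave hr.flip {K | ∃ x, QC s x ∧ r s x ∧ K = {w | r s w ∧ r w x}}
      ⟨_, y, hs.1.symm.trans hby, hsy, rfl⟩ hVR (hUR.mono (subset_closure.trans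
        (hNU.trans inter_subset_left))) ?_ ?_ ?_
    · rw [Set.disjoint_left]
      intro z hz hz'
      exact (hNU hz').2 hz
    · rintro K ⟨x, hx, hsx, rfl⟩
      obtain ⟨x', -, hsx', hx'x⟩ := noJump_nhds hr hx hsx univ_mem
      have hx' := interval_QC hr hx hsx' hx'x
      obtain ⟨w, hwV, hw, hsw, hwx'⟩ := hV' x' hx' hsx'
      have hwx : r w x := by
        rcases hwx' with rfl | h
        · exact hx'x
        · exact qtrans hr (hw.symm.trans hx') h hx'x
      refine ⟨w, ⟨hwV, hsw, hwx⟩, _, ⟨w, hw, hsw, rfl⟩, ?_, fun v hv => hv.2⟩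
      rintro v ⟨hv1, hv2⟩
      exact ⟨hv1, qtrans hr ((interval_QC hr hw hv1 hv2).symm.trans hw) hv2 hwx⟩
    · rintro K ⟨x, hx, hsx, rfl⟩
      obtain ⟨w, hwN, hsw, hwx⟩ := noJump_nhds hr hx hsx (hN.mem_nhds hsN)
      have hw := interval_QC hr hx hsw hwx
      refine ⟨w, ⟨hwN, hsw, hwx⟩, _, ⟨w, hw, hsw, rfl⟩, ?_, fun v hv => hv.2⟩
      rintro v ⟨hv1, hv2⟩
      exact ⟨hv1, qtrans hr ((interval_QC hr hw hv1 hv2).symm.trans hw) hv2 hwx⟩
  · -- min of complement: impossible
    exfalso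
    have htS' := htS
    simp only [hS, mem_ofPred_eq, not_and, not_forall, not_not] at htS'
    obtain ⟨w, hw1, hw2, hwV⟩ := htS' ht
    have hbw : QC b w := by
      rcases hw1 with rfl | hw1
      · exact QC.refl _
      · rcases hw2 with rfl | hw2
        · exact ht
        · exact interval_QC hr ht hw1 hw2
    have hwS : w ∉ S := fun hwS => hwS.2 w hw1 (Or.inl rfl) hwV
    have hwt : w = t := by
      rcases hmin w hbw hwS with h | h
      · exact h
      · rcases hw2 with h' | h'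
        · exact h'
        · exact absurd h' (hr.asymm _ _ h)
    subst hwt
    have hbt : r b w := by
      rcases hw1 with rfl | h
      · exact absurd hwV hb
      · exact h
    obtain ⟨v, hvV, hv1, hv2⟩ := noJump_nhds hr.flip hbw.symm hbt (hV.mem_nhds hwV)
    -- hv1 : r v w, hv2 : r b v
    have hv : QC b v := interval_QC hr hbw hv2 hv1
    have hvS : v ∉ S := fun hvS => hvS.2 v (Or.inr hv2) (Or.inl rfl) hvV
    rcases hmin v hv hvS with rfl | h
    · exact hr.irrefl _ hv1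
    · exact hr.asymm _ _ h hv1

/-- the subspace topology of a quasi-component is the order topology (right side) -/
lemma right_interval (hX : LRCC X) (hr : Sel r) {c y₀ : X} (hy₀ : QC c y₀) (hcy₀ : r c y₀)
    {O : Set X} (hO : O ∈ 𝓝 c) : ∃ y, QC c y ∧ r c y ∧ {w | r c w ∧ r w y} ⊆ O := by
  by_contra hcon
  push Not at hcon
  obtain ⟨U, hU, hcU, hUR⟩ := hX c
  obtain ⟨V, hV, hcV, hVO⟩ := exists_open_closure_subset (inter_mem hO (hU.mem_nhds hcU))
  obtain ⟨V', hV', hcV', hV'V⟩ := exists_open_closure_subset (hV.mem_nhds hcV)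
  have hVR : RCC (closure V) := hUR.mono (hVO.trans inter_subset_right)
  refine interleave hr.flip {K | ∃ x, QC c x ∧ r c x ∧ K = {w | r c w ∧ r w x}}
    ⟨_, y₀, hy₀, hcy₀, rfl⟩ (P := V') (N := closure V \ V)
    (hVR.mono (subset_closure.trans (hV'V.trans subset_closure)))
    (hVR.mono sdiff_subset) ?_ ?_ ?_
  · have : IsClosed (closure V \ V) := isClosed_closure.sdiff hV
    rw [this.closure_eq, Set.disjoint_left]
    intro z hz hz'
    exact hz'.2 (hV'V hz)
  · rintro K ⟨x, hx, hcx, rfl⟩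
    obtain ⟨w, hwN, hsw, hwx⟩ := noJump_nhds hr hx hcx (hV'.mem_nhds hcV')
    have hw := interval_QC hr hx hsw hwx
    refine ⟨w, ⟨hwN, hsw, hwx⟩, _, ⟨w, hw, hsw, rfl⟩, ?_, fun v hv => hv.2⟩
    rintro v ⟨hv1, hv2⟩
    exact ⟨hv1, qtrans hr ((interval_QC hr hw hv1 hv2).symm.trans hw) hv2 hwx⟩
  · rintro K ⟨x, hx, hcx, rfl⟩
    obtain ⟨y', hy'V, hcy', hy'x⟩ := noJump_nhds hr hx hcx (hV.mem_nhds hcV)
    have hy' := interval_QC hr hx hcy' hy'x
    obtain ⟨b, ⟨hcb, hby'⟩, hbO⟩ := not_subset.1 (hcon y' hy' hcy')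
    have hb := interval_QC hr hy' hcb hby'
    have hbV : b ∉ V := fun h => hbO (hVO (subset_closure h)).1
    obtain ⟨s, hs, hbs, hsy', hscl, hsV⟩ := meets_boundary hX hr hV (hVR.mono subset_closure)
      (hb.symm.trans hy') hbV hy'V hby'
    have hcs : r c s := by
      rcases hbs with rfl | h
      · exact hcb
      · exact qtrans hr hb hcb h
    have hcs' : QC c s := hb.trans hs
    have hsx : r s x := qtrans hr (hcs'.symm.trans hy') hsy' hy'x
    refine ⟨s, ⟨⟨hscl, hsV⟩, hcs, hsx⟩, _, ⟨s, hcs', hcs, rfl⟩, ?_, fun v hv => hv.2⟩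
    rintro v ⟨hv1, hv2⟩
    exact ⟨hv1, qtrans hr ((interval_QC hr hcs' hv1 hv2).symm.trans hcs') hv2 hsx⟩

/-- Quasi-components are compact. -/
lemma isCompact_Q (H : AllKings X) (hX : LRCC X) (hr : Sel r) (x : X) : IsCompact (Q x) := by
  rw [isCompact_iff_ultrafilter_le_nhds]
  intro f hf
  by_contra hcon
  push Not at hcon
  have hQf : Q x ∈ f := by simpa using hf
  have hnb : ∀ a, QC x a → ∃ N ∈ 𝓝 a, N ∉ f := by
    intro a ha
    have := hcon a ha
    rw [Filter.not_le] at this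
    exact this
  obtain ⟨e, he, hemin⟩ := exists_min H hr x
  obtain ⟨m, hm, hmmax⟩ := exists_max H hr x
  have hsing : ∀ a, QC x a → ({a} : Set X) ∉ f := by
    intro a ha h
    obtain ⟨N, hN, hNf⟩ := hnb a ha
    exact hNf (Filter.mem_of_superset h (singleton_subset_iff.2 (mem_of_mem_nhds hN)))
  set S : Set X := {a | QC x a ∧ {w | QC x w ∧ (w = a ∨ r w a)} ∉ f} with hS
  have hdown : ∀ a ∈ S, ∀ b, QC x b → r b a → b ∈ S := by
    rintro a ⟨ha, haf⟩ b hb hba
    refine ⟨hb, fun h => haf (Filter.mem_of_superset h ?_)⟩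
    rintro w ⟨hw1, rfl | hw2⟩
    · exact ⟨hw1, Or.inr hba⟩
    · exact ⟨hw1, Or.inr (qtrans hr (hw1.symm.trans hb) hw2 hba)⟩
  have heS : e ∈ S := by
    refine ⟨he, ?_⟩
    have : {w | QC x w ∧ (w = e ∨ r w e)} = {e} := by
      ext w
      simp only [mem_ofPred_eq, mem_singleton_iff]
      constructor
      · rintro ⟨h1, h2 | h2⟩
        · exact h2
        · rcases hemin w h1 with h | h
          · exact h
          · exact absurd h (hr.asymm _ _ h2)
      · rintro rfl; exact ⟨he, Or.inl rfl⟩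
    rw [this]
    exact hsing e he
  have hmS : m ∉ S := by
    rintro ⟨-, h⟩
    apply h
    refine Filter.mem_of_superset hQf fun w hw => ⟨hw, hmmax w hw⟩
  rcases cut hr (fun a ha => ha.1) hdown heS hm hmS with ⟨s, hs, hmax⟩ | ⟨t, ht, htS, hmin⟩
  · have hsm : r s m := by
      have hne : s ≠ m := by rintro rfl; exact hmS hs
      exact (hr.total _ _ hne).resolve_right fun h => hmS (hdown s hs m hm h)
    obtain ⟨N, hN, hNf⟩ := hnb s hs.1
    obtain ⟨y, hy, hsy, hyN⟩ := right_interval hX hr (hs.1.symm.trans hm) hsm hN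
    have hyx := hs.1.trans hy
    have hyS : y ∈ S := by
      refine ⟨hyx, fun h => ?_⟩
      have : {w | QC x w ∧ (w = y ∨ r w y)} ⊆
          ({w | QC x w ∧ (w = s ∨ r w s)} ∪ N) ∪ {y} := by
        rintro w ⟨hw1, rfl | hw2⟩
        · exact Or.inr rfl
        · left
          by_cases hws : w = s
          · exact Or.inl ⟨hw1, Or.inl hws⟩
          · rcases hr.total _ _ hws with h | h
            · exact Or.inl ⟨hw1, Or.inr h⟩
            · exact Or.inr (hyN ⟨h, hw2⟩)
      have h' := Filter.mem_of_superset h this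
      rw [Ultrafilter.mem_coe, Ultrafilter.union_mem_iff, Ultrafilter.union_mem_iff] at h'
      rcases h' with (h' | h') | h'
      · exact hs.2 h'
      · exact hNf h'
      · exact hsing y hyx h'
    rcases hmax y hyS with rfl | h
    · exact hr.irrefl _ hsy
    · exact hr.asymm _ _ h hsy
  · have het : r e t := by
      have hne : e ≠ t := by rintro rfl; exact htS heS
      exact (hr.total _ _ hne).resolve_right fun h => htS (hdown e heS t ht h)
    obtain ⟨N, hN, hNf⟩ := hnb t ht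
    obtain ⟨y, hy, hty, hyN⟩ := right_interval hX hr.flip (ht.symm.trans he) het hN
    have hyx := ht.trans hy
    have hyS : y ∈ S := by
      by_contra hyS
      rcases hmin y hyx hyS with rfl | h
      · exact hr.irrefl _ hty
      · exact hr.asymm _ _ h hty
    apply htS
    refine ⟨ht, fun h => ?_⟩
    have : {w | QC x w ∧ (w = t ∨ r w t)} ⊆
        ({w | QC x w ∧ (w = y ∨ r w y)} ∪ N) ∪ {t} := by
      rintro w ⟨hw1, rfl | hw2⟩
      · exact Or.inr rfl
      · left
        by_cases hwy : w = y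
        · exact Or.inl ⟨hw1, Or.inl hwy⟩
        · rcases hr.total _ _ hwy with h | h
          · exact Or.inl ⟨hw1, Or.inr h⟩
          · exact Or.inr (hyN ⟨hw2, h⟩)
    have h' := Filter.mem_of_superset h this
    rw [Ultrafilter.mem_coe, Ultrafilter.union_mem_iff, Ultrafilter.union_mem_iff] at h'
    rcases h' with (h' | h') | h'
    · exact hyS.2 h'
    · exact hNf h'
    · exact hsing t ht h'

/-- clopen neighbourhoods at an extreme point of a quasi-component -/
lemma top_point (hX : LRCC X) (hr : Sel r) {p : X} (hp : ∀ x, r x p → ¬ QC p x) {O : Set X}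
    (hO : O ∈ 𝓝 p) : ∃ K : Set X, IsClosed K ∧ IsClosed ({w | w = p ∨ r w p} \ K) ∧ p ∈ K ∧
      K ⊆ {w | w = p ∨ r w p} ∧ K ⊆ O := by
  set T : Set X := {w | w = p ∨ r w p} with hT
  have hTc : IsClosed T := hr.isClosed_le p
  by_cases hcl : p ∈ closure {w | r w p}
  · obtain ⟨U, hU, hpU, hUR⟩ := hX p
    obtain ⟨V, hV, hpV, hVO⟩ := exists_open_closure_subset (inter_mem hO (hU.mem_nhds hpU))
    obtain ⟨V', hV', hpV', hV'V⟩ := exists_open_closure_subset (hV.mem_nhds hpV)
    have hVR : RCC (closure V) := hUR.mono (hVO.trans inter_subset_right)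
    by_cases hK : ∃ K₀ : Set X, IsClopen K₀ ∧ p ∈ K₀ ∧ K₀ ∩ T ∩ (closure V \ V) = ∅
    · obtain ⟨K₀, hK₀, hpK₀, hK₀'⟩ := hK
      have heq : K₀ ∩ T ∩ V = K₀ ∩ T ∩ closure V := by
        apply Subset.antisymm
        · exact inter_subset_inter_right _ subset_closure
        · rintro w ⟨hw, hw'⟩
          refine ⟨hw, ?_⟩
          by_contra hwV
          have : w ∈ K₀ ∩ T ∩ (closure V \ V) := ⟨hw, hw', hwV⟩
          rw [hK₀'] at this
          exact this
      refine ⟨K₀ ∩ T ∩ V, ?_, ?_, ⟨⟨hpK₀, Or.inl rfl⟩, hpV⟩, fun w hw => hw.1.2,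
        fun w hw => (hVO (subset_closure hw.2)).1⟩
      · rw [heq]
        exact (hK₀.isClosed.inter hTc).inter isClosed_closure
      · have : T \ (K₀ ∩ T ∩ V) = T ∩ (K₀ᶜ ∪ Vᶜ) := by
          ext w
          simp only [Set.mem_sdiff, mem_inter_iff, mem_union, mem_compl_iff]
          tauto
        rw [this]
        exact hTc.inter (hK₀.compl.isClosed.union hV.isClosed_compl)
    · exfalso
      push Not at hK
      have step : ∀ K₀ : Set X, IsClopen K₀ → p ∈ K₀ → ∀ x, r x p → ∃ K₁ : Set X, IsClopen K₁ ∧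
          p ∈ K₁ ∧ K₁ ⊆ K₀ ∧ ∀ y ∈ K₁, r x y := by
        intro K₀ hK₀ hpK₀ x hx
        obtain ⟨s, hs, hps, hxs⟩ := not_QC (hp x hx)
        exact ⟨K₀ ∩ (s ∩ {w | r x w}), hK₀.inter (hr.isClopen_slice' hs hxs),
          ⟨hpK₀, hps, hx⟩, inter_subset_left, fun y hy => hy.2.2⟩
      refine interleave hr {K | ∃ K₀ : Set X, IsClopen K₀ ∧ p ∈ K₀ ∧ K = K₀ ∩ T}
        ⟨_, univ, isClopen_univ, mem_univ _, rfl⟩ (P := V') (N := T ∩ (closure V \ V))
        (hVR.mono (subset_closure.trans (hV'V.trans subset_closure)))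
        (hVR.mono (inter_subset_right.trans sdiff_subset)) ?_ ?_ ?_
      · have : IsClosed (T ∩ (closure V \ V)) := hTc.inter (isClosed_closure.sdiff hV)
        rw [this.closure_eq, Set.disjoint_left]
        intro z hz hz'
        exact hz'.2.2 (hV'V hz)
      · rintro K ⟨K₀, hK₀, hpK₀, rfl⟩
        obtain ⟨x, hx1, hx2⟩ := mem_closure_iff_nhds.1 hcl (V' ∩ K₀)
          (inter_mem (hV'.mem_nhds hpV') (hK₀.isOpen.mem_nhds hpK₀))
        obtain ⟨K₁, hK₁, hpK₁, hK₁K₀, hxK₁⟩ := step K₀ hK₀ hpK₀ x hx2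
        exact ⟨x, ⟨hx1.1, hx1.2, Or.inr hx2⟩, _, ⟨K₁, hK₁, hpK₁, rfl⟩,
          inter_subset_inter_left _ hK₁K₀, fun y hy => hxK₁ y hy.1⟩
      · rintro K ⟨K₀, hK₀, hpK₀, rfl⟩
        obtain ⟨x, ⟨hx1, hx2⟩, hx3⟩ := hK K₀ hK₀ hpK₀
        have hxp : r x p := by
          rcases hx2 with rfl | h
          · exact absurd hpV hx3.2
          · exact h
        obtain ⟨K₁, hK₁, hpK₁, hK₁K₀, hxK₁⟩ := step K₀ hK₀ hpK₀ x hxp
        exact ⟨x, ⟨⟨hx2, hx3⟩, hx1, hx2⟩, _, ⟨K₁, hK₁, hpK₁, rfl⟩,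
          inter_subset_inter_left _ hK₁K₀, fun y hy => hxK₁ y hy.1⟩
  · rw [mem_closure_iff_nhds] at hcl
    push Not at hcl
    obtain ⟨N, hN, hN'⟩ := hcl
    obtain ⟨N₁, hN₁N, hN₁, hpN₁⟩ := mem_nhds_iff.1 hN
    refine ⟨{p}, isClosed_singleton, ?_, rfl, ?_, singleton_subset_iff.2 (mem_of_mem_nhds hO)⟩
    · have : T \ {p} = T ∩ N₁ᶜ := by
        ext w
        simp only [Set.mem_sdiff, mem_singleton_iff, mem_inter_iff, mem_compl_iff, hT, mem_ofPred_eq]
        constructor
        · rintro ⟨h1, h2⟩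
          refine ⟨h1, fun h3 => ?_⟩
          have : w ∈ N ∩ {w | r w p} := ⟨hN₁N h3, h1.resolve_left h2⟩
          rw [hN'] at this
          exact this
        · rintro ⟨h1, h2⟩
          refine ⟨h1, ?_⟩
          rintro rfl
          exact h2 hpN₁
      rw [this]
      exact hTc.inter hN₁.isClosed_compl
    · exact singleton_subset_iff.2 (Or.inl rfl)

/-- quasi-components have clopen neighbourhood bases -/
lemma exists_clopen (H : AllKings X) (hX : LRCC X) (hr : Sel r) {x : X} {O : Set X}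
    (hO : IsOpen O) (hQO : Q x ⊆ O) : ∃ K : Set X, IsClopen K ∧ x ∈ K ∧ K ⊆ O := by
  obtain ⟨e, he, hemin⟩ := exists_min H hr x
  obtain ⟨m, hm, hmmax⟩ := exists_max H hr x
  obtain ⟨K₁, hK₁c, hK₁c', heK₁, hK₁T, hK₁O⟩ := top_point hX hr (p := e) (by
    intro y hy h
    rcases hemin y (he.trans h) with rfl | h'
    · exact hr.irrefl _ hy
    · exact hr.asymm _ _ h' hy) (hO.mem_nhds (hQO he))
  obtain ⟨K₂, hK₂c, hK₂c', hmK₂, hK₂T, hK₂O⟩ := top_point hX hr.flip (p := m) (by
    intro y hy h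
    rcases hmmax y (hm.trans h) with rfl | h'
    · exact hr.irrefl _ hy
    · exact hr.asymm _ _ h' hy) (hO.mem_nhds (hQO hm))
  have hem : e = m ∨ r e m := by
    rcases hmmax e he with h | h
    · exact Or.inl h
    · exact Or.inr h
  -- outside `Q`
  have hcase : ∀ w, ¬ QC x w → (r w e ∧ ¬ (w = m ∨ r m w)) ∨ (r m w ∧ ¬ (w = e ∨ r w e)) := by
    intro w hw
    have hwe : w ≠ e := by rintro rfl; exact hw he
    have hwm : w ≠ m := by rintro rfl; exact hw hm
    rcases hr.total w e hwe with h | h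
    · left
      refine ⟨h, ?_⟩
      rintro (h' | h')
      · exact hwm h'
      · have := dich' hr (he.symm.trans hm) (fun h => hw (he.trans h)) h
        exact hr.asymm _ _ h' this
    · right
      refine ⟨dich hr (he.symm.trans hm) (fun h => hw (he.trans h)) h, ?_⟩
      rintro (h' | h')
      · exact hwe h'
      · exact hr.asymm _ _ h h'
  refine ⟨Q x ∪ K₁ ∪ K₂, ⟨?_, ?_⟩, Or.inl (Or.inl (mem_Q_self x)), ?_⟩
  · exact ((isClosed_Q x).union hK₁c).union hK₂c
  · have : (Q x ∪ K₁ ∪ K₂)ᶜ = ({w | w = e ∨ r w e} \ K₁) ∪ ({w | w = m ∨ r m w} \ K₂) := by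
      ext w
      simp only [mem_compl_iff, mem_union, Set.mem_sdiff, mem_ofPred_eq, not_or, Q]
      constructor
      · rintro ⟨⟨h1, h2⟩, h3⟩
        rcases hcase w h1 with ⟨h, -⟩ | ⟨h, -⟩
        · exact Or.inl ⟨Or.inr h, h2⟩
        · exact Or.inr ⟨Or.inr h, h3⟩
      · rintro (⟨h1, h2⟩ | ⟨h1, h2⟩)
        · have hwe : w ≠ e := by rintro rfl; exact h2 heK₁
          have hwQ : ¬ QC x w := by
            intro hw
            rcases hemin w hw with h | h
            · exact hwe h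
            · exact hr.asymm _ _ h (h1.resolve_left hwe)
          refine ⟨⟨hwQ, h2⟩, fun h3 => ?_⟩
          have h4 := hK₂T h3
          rcases hcase w hwQ with ⟨-, h⟩ | ⟨-, h⟩
          · exact h h4
          · exact h h1
        · have hwm : w ≠ m := by rintro rfl; exact h2 hmK₂
          have hwQ : ¬ QC x w := by
            intro hw
            rcases hmmax w hw with h | h
            · exact hwm h
            · exact hr.asymm _ _ h (h1.resolve_left hwm)
          refine ⟨⟨hwQ, fun h3 => ?_⟩, h2⟩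
          have h4 := hK₁T h3
          rcases hcase w hwQ with ⟨-, h⟩ | ⟨-, h⟩
          · exact h h1
          · exact h h4
    rw [← isClosed_compl_iff, this]
    exact hK₁c'.union hK₂c'
  · rintro w ((hw | hw) | hw)
    · exact hQO hw
    · exact hK₁O hw
    · exact hK₂O hw

end Pool.Agent.N485.King
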