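import Mathlib
import Pool.Agent.R508.DACBase
import Pool.Agent.R658.LQ.Core

set_option autoImplicit false

/-! Closed subgroups of (minimal abelian) × (compact): helper485, MP_35204b_gt. -/

open Filter Topology Set
open scoped Pointwise

namespace Pool.Agent.N485.MG

/-- no strictly coarser Hausdorff group topology -/
def MinGrp (G : Type) [Group G] [τ : TopologicalSpace G] : Prop :=
  ∀ σ : TopologicalSpace G, τ ≤ σ → @IsTopologicalGroup G σ _ → @T2Space G σ → σ = τ

/-- a neighbourhood of a point in a regular space contains a closed one; the intersection of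
closures of neighbourhoods of `1` in a Hausdorff group is trivial -/
theorem eq_one_of_forall_closure {G : Type} [Group G] [TopologicalSpace G] [IsTopologicalGroup G]
    [T2Space G] {x : G} (h : ∀ O ∈ 𝓝 (1 : G), x ∈ closure O) : x = 1 := by
  by_contra hx
  obtain ⟨V, hV, hVc, hVx⟩ := exists_mem_nhds_isClosed_subset
    (isOpen_compl_singleton.mem_nhds (show (1 : G) ∈ ({x}ᶜ : Set G) from fun h => hx h.symm))
  have h1 := h V hV
  rw [hVc.closure_eq] at h1
  exact hVx h1 rfl

section core

variable {H C Q : Type} [Group H] [TopologicalSpace H] [IsTopologicalGroup H]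
  [Group C] [TopologicalSpace C] [IsTopologicalGroup C] [CompactSpace C]
  [Group Q] [tQ : TopologicalSpace Q]

/-- the main criterion -/
theorem core (j : H →* C) (hj : IsEmbedding j) (q : H →* Q) (hqs : Function.Surjective q)
    (hqc : Continuous q) (hqo : IsOpenMap q)
    (hdense : ∀ N : Subgroup C, IsClosed (N : Set C) → (N : Set C) ⊆ closure (range j) →
      N.comap j = q.ker → (N : Set C) ⊆ closure (j '' (q.ker : Set H))) : MinGrp Q := by
  have hgQ : IsTopologicalGroup Q := by
    have hqm : IsQuotientMap q := hqo.isQuotientMap hqc hqs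
    refine @IsTopologicalGroup.mk Q _ _ ?_ ?_
    · refine ⟨?_⟩
      have h3 : IsQuotientMap (Prod.map q q) :=
        (hqo.prodMap hqo).isQuotientMap (hqc.prodMap hqc) (hqs.prodMap hqs)
      rw [h3.continuous_iff]
      have : (fun p : Q × Q => p.1 * p.2) ∘ Prod.map q q = fun p : H × H => q (p.1 * p.2) := by
        ext p; simp
      rw [this]
      exact hqc.comp continuous_mul
    · refine ⟨?_⟩
      rw [hqm.continuous_iff]
      have : (fun p : Q => p⁻¹) ∘ q = fun p : H => q (p⁻¹) := by
        ext p; simp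
      rw [this]
      exact hqc.comp continuous_inv
  have hqt : Tendsto q (𝓝 1) (𝓝 1) := by
    have := hqc.tendsto 1
    rwa [map_one] at this
  intro σ hσ hg h2
  -- the subgroup `N`
  let S : Set Q → Set C := fun O => closure (j '' (q ⁻¹' O))
  have hSmono : ∀ {O O' : Set Q}, O ⊆ O' → S O ⊆ S O' := fun h =>
    closure_mono (image_mono (preimage_mono h))
  let N : Subgroup C :=
    { carrier := ⋂ O ∈ @nhds Q σ 1, S O
      one_mem' := by
        refine mem_iInter₂.2 fun O hO => subset_closure ⟨1, ?_, map_one j⟩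
        show q 1 ∈ O
        rw [map_one]
        exact @mem_of_mem_nhds Q σ _ _ hO
      mul_mem' := by
        intro a b ha hb
        refine mem_iInter₂.2 fun O hO => ?_
        have h3 : Tendsto (fun p : Q × Q => p.1 * p.2) (@nhds Q σ 1 ×ˢ @nhds Q σ 1)
            (@nhds Q σ 1) := @Pool.Agent.R508.DAC.tendsto_mul_one Q _ σ hg
        obtain ⟨V, hV, W, hW, hVW⟩ := mem_prod_iff.1 (h3 hO)
        have ha' : a ∈ S V := mem_iInter₂.1 ha V hV
        have hb' : b ∈ S W := mem_iInter₂.1 hb W hW
        have h4 : MapsTo (fun p : C × C => p.1 * p.2)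
            ((j '' (q ⁻¹' V)) ×ˢ (j '' (q ⁻¹' W))) (j '' (q ⁻¹' O)) := by
          rintro ⟨_, _⟩ ⟨⟨x, hx, rfl⟩, ⟨y, hy, rfl⟩⟩
          refine ⟨x * y, ?_, by simp⟩
          have := hVW (Set.mk_mem_prod hx hy)
          simpa using this
        have h5 := h4.closure (continuous_mul (M := C))
        rw [closure_prod_eq] at h5
        exact h5 (Set.mk_mem_prod ha' hb')
      inv_mem' := by
        intro a ha
        refine mem_iInter₂.2 fun O hO => ?_
        have h3 : Tendsto (fun p : Q => p⁻¹) (@nhds Q σ 1)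
            (@nhds Q σ 1) := @Pool.Agent.R508.DAC.tendsto_inv_one Q _ σ hg
        have ha' : a ∈ S ((fun p : Q => p⁻¹) ⁻¹' O) := mem_iInter₂.1 ha _ (h3 hO)
        have h4 : MapsTo (fun p : C => p⁻¹) (j '' (q ⁻¹' ((fun p : Q => p⁻¹) ⁻¹' O)))
            (j '' (q ⁻¹' O)) := by
          rintro _ ⟨x, hx, rfl⟩
          exact ⟨x⁻¹, by simpa using hx, by simp⟩
        exact h4.closure (continuous_inv (G := C)) ha' }
  have hNmem : ∀ c : C, c ∈ N ↔ ∀ O ∈ @nhds Q σ 1, c ∈ S O := fun c => mem_iInter₂
  have hNc : IsClosed (N : Set C) :=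
    isClosed_iInter fun O => isClosed_iInter fun _ => isClosed_closure
  have hNr : (N : Set C) ⊆ closure (range j) := by
    intro c hc
    have := (hNmem c).1 hc univ univ_mem
    simpa [S] using this
  have hNk : N.comap j = q.ker := by
    ext h
    rw [Subgroup.mem_comap, MonoidHom.mem_ker]
    constructor
    · intro hh
      refine @eq_one_of_forall_closure Q _ σ hg h2 _ fun O hO => ?_
      have h3 : j h ∈ closure (j '' (q ⁻¹' O)) := (hNmem _).1 hh O hO
      have h4 : h ∈ closure (q ⁻¹' O) := by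
        rw [hj.closure_eq_preimage_closure_image]
        exact h3
      have h5 : @Continuous H Q _ σ q := continuous_le_rng hσ hqc
      have h6 : MapsTo q (q ⁻¹' O) O := fun x hx => hx
      exact @MapsTo.closure H Q _ σ q _ _ h6 h5 h h4
    · intro hh
      refine (hNmem _).2 fun O hO => subset_closure ⟨h, ?_, rfl⟩
      show q h ∈ O
      rw [hh]
      exact @mem_of_mem_nhds Q σ _ _ hO
  have hN := hdense N hNc hNr hNk
  -- compare the topologies
  refine le_antisymm ?_ hσ
  refine Pool.Agent.R508.DAC.le_of_nhds_one_le hg hgQ ?_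
  intro U hU
  -- `U` is a neighbourhood of `1` in the quotient topology
  have hU1 : q ⁻¹' U ∈ 𝓝 (1 : H) := hqt hU
  rw [hj.nhds_eq_comap, map_one, mem_comap] at hU1
  obtain ⟨W, hW, hWU⟩ := hU1
  obtain ⟨W', hW'W, hW'o, hW'1⟩ := mem_nhds_iff.1 hW
  let T : Set C := (j '' (q.ker : Set H)) * W'
  have hTo : IsOpen T := hW'o.mul_left
  have hNT : (⋂ O : {O // O ∈ @nhds Q σ 1}, S O.1) ⊆ T := by
    intro c hc
    have hc' : c ∈ N := (hNmem c).2 fun O hO => mem_iInter.1 hc ⟨O, hO⟩
    have h3 : c ∈ closure (j '' (q.ker : Set H)) := hN hc'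
    -- `c * W'⁻¹` is a neighbourhood of `c`
    have h4 : {x : C | x⁻¹ * c ∈ W'} ∈ 𝓝 c := by
      have h5 : Tendsto (fun x : C => x⁻¹ * c) (𝓝 c) (𝓝 1) := by
        have h6 : Continuous (fun x : C => x⁻¹ * c) := by fun_prop
        have := h6.tendsto c
        simpa using this
      exact h5 (hW'o.mem_nhds hW'1)
    obtain ⟨x, hx, hxk⟩ := mem_closure_iff_nhds.1 h3 _ h4
    exact ⟨x, hxk, x⁻¹ * c, hx, by simp⟩
  obtain ⟨⟨O, hO⟩, hOT⟩ := exists_subset_nhds_of_isCompact' (V := fun O : {O // O ∈ @nhds Q σ 1} => S O.1)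
    (by
      intro ⟨O, hO⟩ ⟨O', hO'⟩
      exact ⟨⟨O ∩ O', inter_mem hO hO'⟩, hSmono inter_subset_left, hSmono inter_subset_right⟩)
    (fun _ => isClosed_closure.isCompact) (fun _ => isClosed_closure)
    (U := T) (fun x hx => hTo.mem_nhds (hNT hx))
  refine mem_of_superset hO ?_
  intro y hy
  obtain ⟨h, rfl⟩ := hqs y
  have h3 : j h ∈ T := hOT (subset_closure ⟨h, hy, rfl⟩)
  obtain ⟨_, ⟨m, hm, rfl⟩, w, hw, hmw⟩ := h3
  have h4 : w = j (m⁻¹ * h) := by
    rw [map_mul, map_inv, ← hmw]
    simp
  have h5 : m⁻¹ * h ∈ j ⁻¹' W := by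
    show j (m⁻¹ * h) ∈ W
    rw [← h4]
    exact hW'W hw
  have h6 := hWU h5
  have h7 : q m = 1 := hm
  simpa [h7] using h6

end core

section ess

theorem emb_of_min {A D : Type} [Group A] [τ : TopologicalSpace A] [Group D] [TopologicalSpace D]
    [IsTopologicalGroup D] [T2Space D] (hA : MinGrp A) (f : A →* D) (hf : Continuous f)
    (hinj : Function.Injective f) : IsEmbedding f := by
  refine ⟨⟨?_⟩, hinj⟩
  symm
  refine hA (TopologicalSpace.induced f inferInstance) (continuous_iff_le_induced.1 hf) ?_ ?_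
  · exact topologicalGroup_induced f
  · exact @T2Space.of_injective_continuous A D (TopologicalSpace.induced f inferInstance) _ _ f hinj
      continuous_induced_dom

theorem min_of_dense {A B : Type} [Group A] [τ : TopologicalSpace A] [Group B]
    [tB : TopologicalSpace B] [IsTopologicalGroup B] [T2Space B] (i : A →* B) (hi : IsEmbedding i)
    (hd : DenseRange i) (hA : MinGrp A) : MinGrp B := by
  have hBreg : ∀ U ∈ 𝓝 (1 : B), ∃ V ∈ 𝓝 (1 : B), IsClosed V ∧ V ⊆ U := fun U hU =>
    exists_mem_nhds_isClosed_subset hU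
  have hB : IsTopologicalGroup B := inferInstance
  have hpre : ∀ V ∈ 𝓝 (1 : B), i ⁻¹' V ∈ 𝓝 (1 : A) := by
    intro V hV
    have := hi.continuous.tendsto 1
    rw [map_one] at this
    exact this hV
  have hic := hi.continuous
  have hii := hi.injective
  intro σ hσ hg h2
  have he : @IsEmbedding A B τ σ i := @emb_of_min A B _ τ _ σ hg h2 hA i
    (continuous_le_rng hσ hic) hii
  refine le_antisymm ?_ hσ
  refine Pool.Agent.R508.DAC.le_of_nhds_one_le hg hB ?_
  intro U hU
  obtain ⟨V, hV, hVc, hVU⟩ := hBreg U hU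
  have h1 := hpre V hV
  have h1' := he.isInducing.nhds_eq_comap 1
  rw [map_one] at h1'
  rw [h1', mem_comap] at h1
  obtain ⟨O, hO, hOV⟩ := h1
  obtain ⟨O', hO'O, hO'o, hO'1⟩ := mem_nhds_iff.1 hO
  refine mem_of_superset (mem_nhds_iff.2 ⟨O', subset_rfl, hO'o, hO'1⟩) ?_
  have h3 : @IsOpen B tB O' := hσ _ hO'o
  have h4 : O' ⊆ @closure B tB (O' ∩ range i) :=
    @Dense.open_subset_closure_inter B tB _ _ hd h3
  refine h4.trans ?_
  refine (@closure_minimal B tB _ _ ?_ hVc).trans hVU
  rintro _ ⟨hx, a, rfl⟩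
  exact hOV (hO'O hx)

theorem essential {A B : Type} [Group A] [τ : TopologicalSpace A] [Group B]
    [tB : TopologicalSpace B] [IsTopologicalGroup B] [T2Space B] (i : A →* B) (hi : IsEmbedding i)
    (hd : DenseRange i) (hA : MinGrp A) (N : Subgroup B) [N.Normal] (hNc : IsClosed (N : Set B))
    (h : ∀ a : A, i a ∈ N → a = 1) : N = ⊥ := by
  have : T3Space (B ⧸ N) := by
    have := hNc
    infer_instance
  let f : A →* B ⧸ N := (QuotientGroup.mk' N).comp i
  have hf : IsEmbedding f := by
    refine emb_of_min hA f (QuotientGroup.continuous_mk.comp hi.continuous) ?_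
    rw [injective_iff_map_eq_one]
    intro a ha
    exact h a ((QuotientGroup.eq_one_iff _).1 ha)
  rw [eq_bot_iff]
  intro n hn
  rw [Subgroup.mem_bot]
  refine eq_one_of_forall_closure fun V hV => ?_
  have h1 : i ⁻¹' V ∈ 𝓝 (1 : A) := by
    have := hi.continuous.tendsto 1
    rw [map_one] at this
    exact this hV
  rw [hf.nhds_eq_comap, map_one, mem_comap] at h1
  obtain ⟨O, hO, hOV⟩ := h1
  obtain ⟨O', hO'O, hO'o, hO'1⟩ := mem_nhds_iff.1 hO
  have h3 : IsOpen ((QuotientGroup.mk : B → B ⧸ N) ⁻¹' O') :=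
    hO'o.preimage QuotientGroup.continuous_mk
  have h4 := hd.open_subset_closure_inter h3
  have h5 : n ∈ (QuotientGroup.mk : B → B ⧸ N) ⁻¹' O' := by
    show (n : B ⧸ N) ∈ O'
    rw [(QuotientGroup.eq_one_iff n).2 hn]
    exact hO'1
  refine closure_mono ?_ (h4 h5)
  rintro _ ⟨hx, a, rfl⟩
  exact hOV (hO'O hx)

/-- totally minimal -/
def TotMinGrp (G : Type) [Group G] [TopologicalSpace G] : Prop :=
  ∀ (N : Subgroup G) [N.Normal], IsClosed (N : Set G) → MinGrp (G ⧸ N)

theorem total_dense {A B : Type} [Group A] [τ : TopologicalSpace A] [CommGroup B]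
    [tB : TopologicalSpace B] [IsTopologicalGroup B] [T2Space B] (i : A →* B) (hi : IsEmbedding i)
    (hd : DenseRange i) (hA : TotMinGrp A) (N : Subgroup B) (hNc : IsClosed (N : Set B)) :
    (N : Set B) ⊆ closure ((N : Set B) ∩ range i) := by
  let M : Subgroup B := (N ⊓ i.range).topologicalClosure
  have hMc : IsClosed (M : Set B) := Subgroup.isClosed_topologicalClosure _
  have hMN : M ≤ N := Subgroup.topologicalClosure_minimal _ inf_le_left hNc
  have hNM : ∀ a : A, i a ∈ N → i a ∈ M := fun a ha =>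
    Subgroup.le_topologicalClosure _ ⟨ha, a, rfl⟩
  let P : Subgroup A := N.comap i
  have hPc : IsClosed (P : Set A) := hNc.preimage hi.continuous
  have hPM : P ≤ M.comap i := fun a ha => hNM a ha
  have hP : MinGrp (A ⧸ P) := hA P hPc
  let g : A ⧸ P →* B ⧸ M := QuotientGroup.map P M i hPM
  have hgc : Continuous g := by
    rw [(QuotientGroup.isQuotientMap_mk (N := P)).continuous_iff]
    exact QuotientGroup.continuous_mk.comp hi.continuous
  have hgi : Function.Injective g := by
    rw [injective_iff_map_eq_one]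
    intro x hx
    obtain ⟨a, rfl⟩ := QuotientGroup.mk_surjective x
    have h1 : ((i a : B) : B ⧸ M) = 1 := hx
    rw [QuotientGroup.eq_one_iff] at h1
    exact (QuotientGroup.eq_one_iff a).2 (hMN h1)
  have hT : T3Space (B ⧸ M) := by
    have := hMc
    infer_instance
  have hge : IsEmbedding g := emb_of_min hP g hgc hgi
  have hgd : DenseRange g := by
    have h1 : DenseRange ((QuotientGroup.mk : B → B ⧸ M) ∘ i) :=
      QuotientGroup.mk_surjective.denseRange.comp hd QuotientGroup.continuous_mk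
    refine Dense.mono ?_ h1
    rintro _ ⟨a, rfl⟩
    exact ⟨(a : A ⧸ P), rfl⟩
  have hmap : IsClosed ((N.map (QuotientGroup.mk' M) : Subgroup (B ⧸ M)) : Set (B ⧸ M)) := by
    rw [← (QuotientGroup.isQuotientMap_mk (N := M)).isClosed_preimage]
    convert hNc using 1
    ext b
    constructor
    · rintro ⟨n, hn, hnb⟩
      have h1 : n⁻¹ * b ∈ M := QuotientGroup.eq.1 hnb
      have h2 := N.mul_mem hn (hMN h1)
      simpa using h2
    · intro hb
      exact ⟨b, hb, rfl⟩
  have hbot : N.map (QuotientGroup.mk' M) = ⊥ := by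
    refine essential g hge hgd hP _ hmap ?_
    intro x hx
    obtain ⟨a, rfl⟩ := QuotientGroup.mk_surjective x
    obtain ⟨n, hn, hna⟩ := hx
    have h1 : n⁻¹ * i a ∈ M := QuotientGroup.eq.1 hna
    have h2 := N.mul_mem hn (hMN h1)
    rw [mul_inv_cancel_left] at h2
    exact (QuotientGroup.eq_one_iff a).2 h2
  intro n hn
  have h1 : QuotientGroup.mk' M n ∈ N.map (QuotientGroup.mk' M) := ⟨n, hn, rfl⟩
  rw [hbot, Subgroup.mem_bot] at h1
  have h2 : n ∈ M := (QuotientGroup.eq_one_iff n).1 h1
  have h3 : n ∈ closure ((N ⊓ i.range : Subgroup B) : Set B) := h2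
  refine closure_mono ?_ h3
  rintro _ ⟨hx, a, rfl⟩
  exact ⟨hx, a, rfl⟩

end ess

/-! ### Prodanov–Stoyanov -/

section ps

theorem exists_compact (A : Type) [CommGroup A] [τ : TopologicalSpace A] [IsTopologicalGroup A]
    [T2Space A] (hA : MinGrp A) :
    ∃ (B : Type) (_ : CommGroup B) (_ : TopologicalSpace B), IsTopologicalGroup B ∧
      CompactSpace B ∧ T2Space B ∧ ∃ i : A →* B, IsEmbedding i ∧ DenseRange i := by
  let u : UniformSpace (Additive A) := IsTopologicalAddGroup.rightUniformSpace (Additive A)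
  have hu : IsUniformAddGroup (Additive A) := isUniformAddGroup_of_addCommGroup
  have hT : T2Space (Additive A) := ‹T2Space A›
  let C := UniformSpace.Completion (Additive A)
  have hCT : T2Space (Multiplicative C) := inferInstanceAs (T2Space C)
  let i : Additive A →+ C := UniformSpace.Completion.toCompl
  have hie : IsEmbedding i := UniformSpace.Completion.isDenseEmbedding_coe.isEmbedding
  have hid : DenseRange i := UniformSpace.Completion.denseRange_coe
  let i' : A →* Multiplicative C :=
    { toFun := fun a => Multiplicative.ofAdd (i (Additive.ofMul a))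
      map_one' := by simp
      map_mul' := fun a b => by simp }
  have hie' : IsEmbedding i' := hie
  have hid' : DenseRange i' := hid
  have hC : MinGrp (Multiplicative C) := min_of_dense i' hie' hid' hA
  refine ⟨Multiplicative C, inferInstance, inferInstance, inferInstance, ?_, inferInstance,
    i', hie', hid'⟩
  have h1 := R658.LQ.chain_small C univ (by
    intro σ hg h2 hσ _
    refine hC σ hσ ?_ h2
    exact @IsTopologicalGroup.mk (Multiplicative C) σ _ ⟨hg.continuous_add⟩ ⟨hg.continuous_neg⟩)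
    (fun _ => univ)
    ⟨fun _ => mem_univ _, fun _ _ _ => mem_univ _, fun _ _ _ _ _ => mem_univ _⟩
    (fun _ => univ_mem) subset_rfl
  have h2 : TotallyBounded (univ : Set C) := by
    rw [totallyBounded_iff_subset_finite_iUnion_nhds_zero]
    intro U hU
    obtain ⟨n, F, hF⟩ := h1 U hU
    refine ⟨F, F.finite_toSet, fun x hx => ?_⟩
    obtain ⟨f, hf, hfx⟩ := hF x hx
    refine mem_iUnion₂.2 ⟨f, hf, ?_⟩
    rw [mem_vadd_set]
    exact ⟨x - f, hfx, by simp⟩
  have h3 : CompactSpace C := ⟨h2.isCompact_of_isClosed isClosed_univ⟩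
  exact h3

end ps

/-! ### The main theorem -/

section main

set_option linter.unusedSectionVars false

variable {A K B : Type} [CommGroup A] [TopologicalSpace A] [IsTopologicalGroup A]
  [Group K] [TopologicalSpace K] [IsTopologicalGroup K] [CompactSpace K] [T2Space K]
  [CommGroup B] [TopologicalSpace B] [IsTopologicalGroup B] [CompactSpace B] [T2Space B]

/-- the embedding of `H ≤ A × K` into `B × K`. -/
def jmap (i : A →* B) (H : Subgroup (A × K)) : H →* B × K :=
  (MonoidHom.prodMap i (MonoidHom.id K)).comp H.subtype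

theorem jmap_emb (i : A →* B) (hi : IsEmbedding i) (H : Subgroup (A × K)) :
    IsEmbedding (jmap i H) :=
  (hi.prodMap IsEmbedding.id).comp IsEmbedding.subtypeVal

/-- points of the closure of `H` in `B × K` lying in `A × K` are in `H` -/
theorem mem_range_jmap (i : A →* B) (hi : IsEmbedding i) (H : Subgroup (A × K))
    (hH : IsClosed (H : Set (A × K))) (a : A) (k : K)
    (h : ((i a, k) : B × K) ∈ closure (range (jmap i H))) : ∃ h : H, jmap i H h = (i a, k) := by
  have h1 : IsEmbedding (Prod.map i (id : K → K)) := hi.prodMap IsEmbedding.id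
  have h2 : range (jmap i H) = Prod.map i (id : K → K) '' (H : Set (A × K)) := by
    ext x
    constructor
    · rintro ⟨y, rfl⟩
      exact ⟨y.1, y.2, rfl⟩
    · rintro ⟨y, hy, rfl⟩
      exact ⟨⟨y, hy⟩, rfl⟩
  have h3 : ((a, k) : A × K) ∈ closure (H : Set (A × K)) := by
    rw [h1.closure_eq_preimage_closure_image, ← h2]
    exact h
  rw [hH.closure_eq] at h3
  exact ⟨⟨(a, k), h3⟩, rfl⟩

theorem main1 (i : A →* B) (hi : IsEmbedding i) (hd : DenseRange i) (hA : MinGrp A)
    (H : Subgroup (A × K)) (hH : IsClosed (H : Set (A × K))) : MinGrp H := by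
  refine core (jmap i H) (jmap_emb i hi H) (MonoidHom.id H) Function.surjective_id continuous_id
    IsOpenMap.id ?_
  intro N hNc hNr hNk
  have hcm : ∀ h : H, jmap i H h ∈ N → h = 1 := by
    intro h hh
    have : h ∈ N.comap (jmap i H) := hh
    rw [hNk] at this
    exact this
  -- the projection of `N`
  have hP : IsClosed ((N.map (MonoidHom.fst B K) : Subgroup B) : Set B) := by
    have h1 : IsCompact ((N.map (MonoidHom.fst B K) : Subgroup B) : Set B) :=
      hNc.isCompact.image continuous_fst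
    exact h1.isClosed
  have hPb : N.map (MonoidHom.fst B K) = ⊥ := by
    refine essential i hi hd hA _ hP ?_
    rintro a ⟨⟨b, k⟩, hbk, rfl : b = i a⟩
    obtain ⟨h, hh⟩ := mem_range_jmap i hi H hH a k (hNr hbk)
    have h1 : h = 1 := hcm h (by rw [hh]; exact hbk)
    rw [h1, map_one] at hh
    have h2 : i a = 1 := (congrArg Prod.fst hh).symm
    exact hi.injective (by rw [h2, map_one])
  rintro ⟨b, k⟩ hbk
  have h1 : b ∈ N.map (MonoidHom.fst B K) := ⟨(b, k), hbk, rfl⟩
  rw [hPb, Subgroup.mem_bot] at h1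
  subst h1
  have hbk' : ((i 1, k) : B × K) ∈ N := by rw [map_one]; exact hbk
  obtain ⟨h, hh⟩ := mem_range_jmap i hi H hH 1 k (hNr hbk')
  have h1 : h = 1 := hcm h (by rw [hh]; exact hbk')
  rw [h1, map_one, map_one] at hh
  rw [← hh]
  exact subset_closure ⟨1, rfl, map_one _⟩

theorem main2 (i : A →* B) (hi : IsEmbedding i) (hd : DenseRange i) (hA : TotMinGrp A)
    (H : Subgroup (A × K)) (hH : IsClosed (H : Set (A × K))) : TotMinGrp H := by
  intro M hMn hM
  refine core (jmap i H) (jmap_emb i hi H) (QuotientGroup.mk' M) QuotientGroup.mk_surjective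
    QuotientGroup.continuous_mk QuotientGroup.isOpenMap_coe ?_
  intro N hNc hNr hNk
  have hP : IsClosed ((N.map (MonoidHom.fst B K) : Subgroup B) : Set B) := by
    have h1 : IsCompact ((N.map (MonoidHom.fst B K) : Subgroup B) : Set B) :=
      hNc.isCompact.image continuous_fst
    exact h1.isClosed
  have hdn := total_dense i hi hd hA _ hP
  intro n hn
  -- every open neighbourhood `W` of `n` meets `j(M)`
  rw [mem_closure_iff]
  intro W hWo hWn
  -- choose a neighbourhood of `1` in `B × K`
  let P : Subgroup B := N.map (MonoidHom.fst B K)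
  let π : N →* P := (MonoidHom.fst B K).subgroupMap N
  have hπc : Continuous π := by
    refine Continuous.subtype_mk (continuous_fst.comp continuous_subtype_val) _
  have hπs : Function.Surjective π := MonoidHom.subgroupMap_surjective _ _
  have hNcomp : CompactSpace N := isCompact_iff_compactSpace.1 hNc.isCompact
  have hPcomp : CompactSpace P := isCompact_iff_compactSpace.1 hP.isCompact
  have hπo : IsOpenMap π := by
    exact MonoidHom.isOpenMap_of_sigmaCompact π hπs hπc
  have h1 : IsOpen ((fun x : N => (x : B × K)) ⁻¹' W) := hWo.preimage continuous_subtype_val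
  have h2 := hπo _ h1
  have h3 : π ⟨n, hn⟩ ∈ π '' ((fun x : N => (x : B × K)) ⁻¹' W) := ⟨⟨n, hn⟩, hWn, rfl⟩
  obtain ⟨V, hVo, hV⟩ := isOpen_induced_iff.1 h2
  have h4 : n.1 ∈ V := by
    have : π ⟨n, hn⟩ ∈ (Subtype.val ⁻¹' V : Set P) := by rw [hV]; exact h3
    exact this
  have h5 : n.1 ∈ closure ((P : Set B) ∩ range i) := hdn ⟨n, hn, rfl⟩
  obtain ⟨_, hbV, hbP, a, rfl⟩ := mem_closure_iff.1 h5 V hVo h4
  have h6 : (⟨i a, hbP⟩ : P) ∈ (Subtype.val ⁻¹' V : Set P) := hbV
  rw [hV] at h6
  obtain ⟨⟨⟨b, k⟩, hbk⟩, hxW, hx⟩ := h6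
  have h7 : b = i a := congrArg Subtype.val hx
  subst h7
  obtain ⟨h, hh⟩ := mem_range_jmap i hi H hH a k (hNr hbk)
  refine ⟨(i a, k), hxW, h, ?_, hh⟩
  have h8 : h ∈ N.comap (jmap i H) := by
    show jmap i H h ∈ N
    rw [hh]; exact hbk
  rw [hNk] at h8
  exact h8

end main

theorem TotMinGrp.min {A : Type} [Group A] [τ : TopologicalSpace A] [IsTopologicalGroup A]
    [T2Space A] (hA : TotMinGrp A) : MinGrp A := by
  have h1 : MinGrp (A ⧸ (⊥ : Subgroup A)) := hA ⊥ (by simp)
  let i : A ⧸ (⊥ : Subgroup A) →* A := (QuotientGroup.quotientBot (G := A)).toMonoidHom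
  have hi : ∀ a : A, i (a : A ⧸ (⊥ : Subgroup A)) = a := fun a => rfl
  have hic : Continuous i := by
    rw [(QuotientGroup.isQuotientMap_mk (N := (⊥ : Subgroup A))).continuous_iff]
    exact continuous_id
  have hli : Function.LeftInverse (QuotientGroup.mk : A → A ⧸ (⊥ : Subgroup A)) i := by
    intro x
    obtain ⟨a, rfl⟩ := QuotientGroup.mk_surjective x
    rw [hi]
  exact min_of_dense i (hli.isEmbedding QuotientGroup.continuous_mk hic)
    (Function.Surjective.denseRange fun a => ⟨(a : A ⧸ (⊥ : Subgroup A)), hi a⟩) h1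

end Pool.Agent.N485.MG
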