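import Mathlib

set_option autoImplicit false

open Set Filter Topology Cardinal

universe u

namespace Pool.Agent.N485.Rectif

variable {X : Type u} [TopologicalSpace X]

/-- The family `𝓑` is an outer base of the compact set `F`. -/
def OuterBase (F : Set X) (𝓑 : Set (Set X)) : Prop :=
  (∀ B ∈ 𝓑, IsOpen B ∧ F ⊆ B) ∧ ∀ U : Set X, IsOpen U → F ⊆ U → ∃ B ∈ 𝓑, B ⊆ U

omit [TopologicalSpace X] in
theorem exists_max_disjoint {Y : Type u} (S : Set Y) (V : Y → Set X) :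
    ∃ Z ⊆ S, Z.PairwiseDisjoint V ∧ ∀ y ∈ S, y ∈ Z ∨ ∃ z ∈ Z, ¬ Disjoint (V y) (V z) := by
  obtain ⟨Z, hZ⟩ := zorn_subset {Z : Set Y | Z ⊆ S ∧ Z.PairwiseDisjoint V} (by
    intro c hc hchain
    refine ⟨⋃₀ c, ⟨?_, ?_⟩, fun s hs => subset_sUnion_of_mem hs⟩
    · exact sUnion_subset fun s hs => (hc hs).1
    · exact (pairwiseDisjoint_sUnion hchain.directedOn).2 fun s hs => (hc hs).2)
  refine ⟨Z, hZ.prop.1, hZ.prop.2, ?_⟩
  intro y hy
  by_contra hcon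
  push Not at hcon
  obtain ⟨h1, h2⟩ := hcon
  have h3 : insert y Z ∈ {Z : Set Y | Z ⊆ S ∧ Z.PairwiseDisjoint V} := by
    refine ⟨insert_subset hy hZ.prop.1, ?_⟩
    exact hZ.prop.2.insert fun z hz _ => h2 z hz
  have h4 : insert y Z ⊆ Z := hZ.le_of_ge h3 (subset_insert _ _)
  exact h1 (h4 (mem_insert _ _))

/-- The main lemma. -/
theorem main (e : X) (p q : X → X → X)
    (hp : Continuous fun z : X × X => p z.1 z.2) (hq : Continuous fun z : X × X => q z.1 z.2)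
    (h1 : ∀ x, p x x = e) (h2 : ∀ x y, q x (p x y) = y)
    (F : Set X) (hF : IsCompact F) (heF : e ∈ F) (𝓑 : Set (Set X)) (h𝓑 : OuterBase F 𝓑)
    (κ : Cardinal.{u}) (hκ : ℵ₀ ≤ κ) (h𝓑κ : #𝓑 ≤ κ)
    (hcell : ∀ 𝒞 : Set (Set X), (∀ U ∈ 𝒞, IsOpen U ∧ U.Nonempty) → 𝒞.PairwiseDisjoint id →
      #𝒞 ≤ κ)
    (𝒪 : Set (Set X)) (h𝒪 : ∀ U ∈ 𝒪, IsOpen U) (hcov : ⋃₀ 𝒪 = Set.univ) :
    ∃ 𝒱 ⊆ 𝒪, #𝒱 ≤ κ ∧ ⋃₀ 𝒱 = Set.univ := by
  -- finite subfamilies covering `q y F`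
  have hfin : ∀ y : X, ∃ 𝓕 : Set (Set X), 𝓕 ⊆ 𝒪 ∧ 𝓕.Finite ∧ (q y) '' F ⊆ ⋃₀ 𝓕 := by
    intro y
    have hc : IsCompact ((q y) '' F) :=
      hF.image (hq.comp (continuous_const.prodMk continuous_id))
    obtain ⟨t, ht1, ht2, ht3⟩ := hc.elim_finite_subcover_image (b := 𝒪) (c := id)
      (fun U hU => h𝒪 U hU) (by
        intro x _
        have : x ∈ ⋃₀ 𝒪 := hcov ▸ Set.mem_univ x
        obtain ⟨U, hU, hxU⟩ := this
        exact mem_biUnion hU hxU)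
    refine ⟨t, ht1, ht2, ?_⟩
    rw [sUnion_eq_biUnion]
    exact ht3
  choose 𝓕 h𝓕1 h𝓕2 h𝓕3 using hfin
  -- the tube lemma
  have htube : ∀ y : X, ∃ W : Set X, ∃ B ∈ 𝓑, IsOpen W ∧ y ∈ W ∧
      ∀ w ∈ W, ∀ b ∈ B, q w b ∈ ⋃₀ 𝓕 y := by
    intro y
    have hop : IsOpen ((fun z : X × X => q z.1 z.2) ⁻¹' (⋃₀ 𝓕 y)) :=
      (isOpen_sUnion fun U hU => h𝒪 U (h𝓕1 y hU)).preimage hq
    have hsub : ({y} : Set X) ×ˢ F ⊆ (fun z : X × X => q z.1 z.2) ⁻¹' (⋃₀ 𝓕 y) := by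
      rintro ⟨a, b⟩ ⟨ha, hb⟩
      simp only [mem_singleton_iff] at ha
      subst ha
      exact h𝓕3 a ⟨b, hb, rfl⟩
    obtain ⟨u, v, hu, hv, hyu, hFv, huv⟩ :=
      generalized_tube_lemma isCompact_singleton hF hop hsub
    obtain ⟨B, hB, hBv⟩ := h𝓑.2 v hv hFv
    refine ⟨u, B, hB, hu, singleton_subset_iff.1 hyu, fun w hw b hb => ?_⟩
    exact huv (mk_mem_prod hw (hBv hb))
  choose W B hB hW hyW hWB using htube
  let V : X → Set X := fun y => W y ∩ {w | p w y ∈ B y}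
  have hVo : ∀ y, IsOpen (V y) := fun y =>
    (hW y).inter ((h𝓑.1 _ (hB y)).1.preimage (hp.comp (continuous_id.prodMk continuous_const)))
  have hVy : ∀ y, y ∈ V y := fun y => ⟨hyW y, by
    change p y y ∈ B y
    rw [h1]
    exact (h𝓑.1 _ (hB y)).2 heF⟩
  -- maximal disjoint subfamilies
  have hmax := fun b : 𝓑 => exists_max_disjoint {y : X | B y = b.1} V
  choose Z hZ1 hZ2 hZ3 using hmax
  have hZcard : ∀ b : 𝓑, #(Z b) ≤ κ := by
    intro b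
    have hinj : InjOn V (Z b) := by
      intro x hx y hy hxy
      by_contra hne
      have hd := hZ2 b hx hy hne
      change Disjoint (V x) (V y) at hd
      rw [hxy] at hd
      exact (disjoint_left.1 hd (hVy y)) (hVy y)
    have h3 : #(V '' (Z b)) = #(Z b) := mk_image_eq_of_injOn _ _ hinj
    rw [← h3]
    refine hcell _ ?_ ?_
    · rintro _ ⟨y, _, rfl⟩
      exact ⟨hVo y, y, hVy y⟩
    · rintro _ ⟨x, hx, rfl⟩ _ ⟨y, hy, rfl⟩ hne
      exact hZ2 b hx hy (fun h => hne (h ▸ rfl))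
  refine ⟨⋃ b : 𝓑, ⋃ z : Z b, 𝓕 z.1, ?_, ?_, ?_⟩
  · exact iUnion_subset fun b => iUnion_subset fun z => h𝓕1 z.1
  · refine (mk_iUnion_le _).trans ?_
    refine mul_le_of_le hκ h𝓑κ (ciSup_le' fun b => ?_)
    refine (mk_iUnion_le _).trans ?_
    refine mul_le_of_le hκ (hZcard b) (ciSup_le' fun z => ?_)
    exact (lt_aleph0_iff_finite.2 (h𝓕2 z.1)).le.trans hκ
  · rw [eq_univ_iff_forall]
    intro y
    let b : 𝓑 := ⟨B y, hB y⟩
    have hcase := hZ3 b y rfl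
    have hgoal : ∃ z : Z b, y ∈ ⋃₀ 𝓕 z.1 := by
      rcases hcase with hy | ⟨z, hz, hnd⟩
      · refine ⟨⟨y, hy⟩, ?_⟩
        have := hWB y y (hyW y) (p y y) (hVy y).2
        rwa [h2] at this
      · obtain ⟨w, hwy, hwz⟩ := not_disjoint_iff.1 hnd
        refine ⟨⟨z, hz⟩, ?_⟩
        have hBz : B z = B y := hZ1 b hz
        have h4 : p w y ∈ B z := hBz ▸ hwy.2
        have := hWB z w hwz.1 (p w y) h4
        rwa [h2] at this
    obtain ⟨z, U, hU, hyU⟩ := hgoal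
    exact ⟨U, mem_iUnion.2 ⟨b, mem_iUnion.2 ⟨z, hU⟩⟩, hyU⟩

/-- Moving a compact set to the point `e`. -/
theorem move (e : X) (p q : X → X → X)
    (hp : Continuous fun z : X × X => p z.1 z.2) (hq : Continuous fun z : X × X => q z.1 z.2)
    (h1 : ∀ x, p x x = e) (h2 : ∀ x y, q x (p x y) = y) (h3 : ∀ x y, p x (q x y) = y)
    (F : Set X) (hF : IsCompact F) (hne : F.Nonempty) (𝓑 : Set (Set X)) (h𝓑 : OuterBase F 𝓑)
    (κ : Cardinal.{u}) (h𝓑κ : #𝓑 ≤ κ) :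
    ∃ (F' : Set X) (𝓑' : Set (Set X)), IsCompact F' ∧ e ∈ F' ∧ OuterBase F' 𝓑' ∧ #𝓑' ≤ κ := by
  obtain ⟨a, ha⟩ := hne
  have hpa : Continuous (p a) := hp.comp (continuous_const.prodMk continuous_id)
  have hqa : Continuous (q a) := hq.comp (continuous_const.prodMk continuous_id)
  let h : X ≃ₜ X := ⟨⟨p a, q a, h2 a, h3 a⟩, hpa, hqa⟩
  refine ⟨h '' F, (fun B => h '' B) '' 𝓑, hF.image h.continuous, ⟨a, ha, h1 a⟩, ⟨?_, ?_⟩,
    mk_image_le.trans h𝓑κ⟩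
  · rintro _ ⟨B, hB, rfl⟩
    exact ⟨h.isOpenMap _ (h𝓑.1 B hB).1, image_mono (h𝓑.1 B hB).2⟩
  · intro U hU hFU
    obtain ⟨B, hB, hBU⟩ := h𝓑.2 (h ⁻¹' U) (hU.preimage h.continuous) (image_subset_iff.1 hFU)
    exact ⟨_, ⟨B, hB, rfl⟩, image_subset_iff.2 hBU⟩

/-- In a p-space every point lies in a compact set with a countable outer base. -/
theorem pspace [T35Space X] (γ : ℕ → Set (Set (StoneCech X)))
    (hγo : ∀ n, ∀ U ∈ γ n, IsOpen U)
    (hγc : ∀ n, range (stoneCechUnit : X → StoneCech X) ⊆ ⋃₀ γ n)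
    (hγ : ∀ x : X, (⋂ n, ⋃₀ {U ∈ γ n | stoneCechUnit x ∈ U}) ⊆
      range (stoneCechUnit : X → StoneCech X)) (e : X) :
    ∃ (F : Set X) (𝓑 : Set (Set X)), IsCompact F ∧ e ∈ F ∧ OuterBase F 𝓑 ∧ 𝓑.Countable := by
  let j : X → StoneCech X := stoneCechUnit
  have hj : IsEmbedding j := isEmbedding_stoneCechUnit
  have hG : ∀ n, ∃ G ∈ γ n, j e ∈ G := fun n => hγc n ⟨e, rfl⟩
  choose G hG hGe using hG
  have step : ∀ (n : ℕ) (c : {c : Set (StoneCech X) // c ∈ 𝓝 (j e) ∧ IsClosed c}),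
      ∃ c' : {c : Set (StoneCech X) // c ∈ 𝓝 (j e) ∧ IsClosed c},
        c'.1 ⊆ interior c.1 ∩ G n := by
    intro n c
    have h1 : interior c.1 ∩ G n ∈ 𝓝 (j e) :=
      inter_mem (interior_mem_nhds.2 c.2.1) ((hγo n _ (hG n)).mem_nhds (hGe n))
    obtain ⟨t, ht, htc, hts⟩ := exists_mem_nhds_isClosed_subset h1
    exact ⟨⟨t, ht, htc⟩, hts⟩
  choose f hf using step
  let c : ℕ → {c : Set (StoneCech X) // c ∈ 𝓝 (j e) ∧ IsClosed c} := fun n =>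
    Nat.rec ⟨Set.univ, univ_mem, isClosed_univ⟩ (fun n c => f n c) n
  have hc : ∀ n, (c (n + 1)).1 ⊆ interior (c n).1 ∩ G n := fun n => hf n (c n)
  have hanti : Antitone fun n => (c n).1 :=
    antitone_nat_of_succ_le fun n => ((hc n).trans inter_subset_left).trans interior_subset
  let K : Set (StoneCech X) := ⋂ n, (c n).1
  have hKc : IsCompact K := (isClosed_iInter fun n => (c n).2.2).isCompact
  have hKr : K ⊆ range j := by
    refine Subset.trans ?_ (hγ e)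
    intro z hz
    refine mem_iInter.2 fun n => ?_
    exact mem_sUnion.2 ⟨G n, ⟨hG n, hGe n⟩, (hc n (mem_iInter.1 hz (n + 1))).2⟩
  refine ⟨j ⁻¹' K, range fun n => j ⁻¹' (interior (c n).1), ?_, ?_, ⟨?_, ?_⟩, countable_range _⟩
  · exact hj.isCompact_preimage_iff hKr |>.2 hKc
  · exact mem_iInter.2 fun n => mem_of_mem_nhds (c n).2.1
  · rintro _ ⟨n, rfl⟩
    refine ⟨isOpen_interior.preimage hj.continuous, preimage_mono ?_⟩
    intro z hz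
    exact (hc n (mem_iInter.1 hz (n + 1))).1
  · intro U hU hKU
    obtain ⟨U', hU', rfl⟩ := hj.isOpen_iff.1 hU
    have hKU' : K ⊆ U' := by
      intro z hz
      obtain ⟨x, rfl⟩ := hKr hz
      exact hKU hz
    obtain ⟨n, hn⟩ := exists_subset_nhds_of_isCompact' (V := fun n => (c n).1)
      (directed_of_isDirected_le fun _ _ h => hanti h) (fun n => (c n).2.2.isCompact)
      (fun n => (c n).2.2) (U := U') (fun z hz => hU'.mem_nhds (hKU' hz))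
    exact ⟨_, ⟨n, rfl⟩, preimage_mono (interior_subset.trans hn)⟩

end Pool.Agent.N485.Rectif
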