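import Mathlib

set_option autoImplicit false

/-! Čech-complete spaces are strongly Telgársky pseudocomplete: helper485, MP_e752eb_gt. -/

open Filter Topology Set

namespace Pool.Agent.N485.TP

universe u v

section general

variable {X : Type u} {ι : Type v} [LinearOrder ι]

/-- `O` is good with itinerary `y` (w.r.t. the coding `c : ℕ → X → ι`): `y` is the lexicographic
maximum of the codes of the points of `O`, attained at every finite stage. -/
def Good (c : ℕ → X → ι) (O : Set X) (y : ℕ → ι) : Prop :=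
  (∀ n, ∃ p ∈ O, ∀ m ≤ n, c m p = y m) ∧
  (∀ n, ∀ q ∈ O, (∀ m < n, c m q = y m) → c n q ≤ y n)

theorem Good.nonempty {c : ℕ → X → ι} {O : Set X} {y : ℕ → ι} (h : Good c O y) : O.Nonempty := by
  obtain ⟨p, hp, -⟩ := h.1 0
  exact ⟨p, hp⟩

/-- an antitone-from-some-point sequence in a well-founded linear order is eventually constant -/
theorem eventually_const [WellFoundedLT ι] (f : ℕ → ι) (i₀ : ℕ)
    (h : ∀ i ≥ i₀, f (i + 1) ≤ f i) : ∃ v, ∀ᶠ i in atTop, f i = v := by
  have hanti : ∀ i ≥ i₀, ∀ j ≥ i, f j ≤ f i := by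
    intro i hi j hj
    induction j, hj using Nat.le_induction with
    | base => exact le_rfl
    | succ j hj ih => exact (h j (hi.trans hj)).trans ih
  let S : Set ι := f '' {i | i₀ ≤ i}
  have hS : S.Nonempty := ⟨f i₀, i₀, le_refl i₀, rfl⟩
  obtain ⟨i₁, hi₁, hv⟩ := WellFounded.min_mem (wellFounded_lt : WellFounded ((· < ·) : ι → ι → Prop)) S hS
  refine ⟨WellFounded.min wellFounded_lt S hS, eventually_atTop.2 ⟨i₁, fun i hi => ?_⟩⟩
  refine le_antisymm ?_ ?_
  · rw [← hv]
    exact hanti i₁ hi₁ i hi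
  · exact not_lt.1 (WellFounded.not_lt_min wellFounded_lt S ⟨i, le_trans hi₁ hi, rfl⟩)

/-- the stable itinerary of a decreasing sequence of good sets -/
theorem exists_limit [WellFoundedLT ι] (c : ℕ → X → ι) (O : ℕ → Set X) (hO : Antitone O)
    (y : ℕ → ℕ → ι) (hy : ∀ i, Good c (O i) (y i)) :
    ∃ z : ℕ → ι, ∀ m, ∀ᶠ i in atTop, y i m = z m := by
  have hne : Nonempty ι := ⟨y 0 0⟩
  have key : ∀ n, ∃ v, ∀ᶠ i in atTop, y i n = v := by
    intro n
    induction n using Nat.strong_induction_on with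
    | _ n ih =>
      choose! v hv using ih
      have h1 : ∀ᶠ i in atTop, ∀ m < n, y i m = v m := by
        have : ∀ᶠ i in atTop, ∀ m ∈ Finset.range n, y i m = v m :=
          (Filter.eventually_all_finset _).2 fun m hm => hv m (Finset.mem_range.1 hm)
        filter_upwards [this] with i hi m hm
        exact hi m (Finset.mem_range.2 hm)
      obtain ⟨i₀, hi₀⟩ := eventually_atTop.1 h1
      refine eventually_const (fun i => y i n) i₀ fun i hi => ?_
      obtain ⟨p, hp, hpy⟩ := (hy (i + 1)).1 n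
      have h2 : p ∈ O i := hO (Nat.le_succ i) hp
      have h3 := (hy i).2 n p h2 fun m hm => by
        rw [hpy m hm.le, hi₀ i hi m hm, hi₀ (i + 1) (by omega) m hm]
      rwa [hpy n le_rfl] at h3
  choose z hz using key
  exact ⟨z, hz⟩

variable [TopologicalSpace X]

/-- every nonempty open set contains a good open set whose itinerary has a prescribed (attained)
initial segment -/
theorem exists_good_subset (V : ℕ → ι → Set X) (hV : ∀ n i, IsOpen (V n i)) (c : ℕ → X → ι)
    (hc : ∀ n p, p ∈ V n (c n p)) (hcm : ∀ n p i, p ∈ V n i → c n p ≤ i)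
    (N : Set X) (hN : IsOpen N) (p : X) (hp : p ∈ N) (k : ℕ) :
    ∃ S ⊆ N, IsOpen S ∧ ∃ y, Good c S y ∧ ∀ m < k, y m = c m p := by
  classical
  have hne : Nonempty X := ⟨p⟩
  -- neighbourhoods adapted to a code
  have hopen : ∀ (q : X) (l : ℕ), IsOpen (N ∩ ⋂ m ∈ Finset.range l, V m (c m q)) := fun q l =>
    hN.inter (isOpen_biInter_finset fun m _ => hV m _)
  have hmem : ∀ (q : X) (l : ℕ), q ∈ N → q ∈ N ∩ ⋂ m ∈ Finset.range l, V m (c m q) :=
    fun q l hq => ⟨hq, mem_iInter₂.2 fun m _ => hc m q⟩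
  have hle : ∀ (q q' : X) (l m : ℕ), q' ∈ N ∩ ⋂ m ∈ Finset.range l, V m (c m q) → m < l →
      c m q' ≤ c m q := fun q q' l m h hm =>
    hcm m q' _ (mem_iInter₂.1 h.2 m (Finset.mem_range.2 hm))
  let Br : X → ℕ → Prop := fun q l => ∃ a ∈ N, ∃ b ∈ N, (∀ m < l, c m a = c m q) ∧
    (∀ m < l, c m b = c m q) ∧ ∃ n, (∀ m < n, c m a = c m b) ∧ c n a < c n b
  by_cases hcase : ∀ q ∈ N, ∀ l ≥ k, (∀ m < k, c m q = c m p) → Br q l
  · -- branching everywhere
    let St : Type u := {q : X // q ∈ N ∧ ∀ m < k, c m q = c m p}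
    have hstep : ∀ (s : St) (l : ℕ), k ≤ l → ∃ a ∈ N, ∃ b : St, ∃ n ≥ l,
        (∀ m < l, c m b.1 = c m s.1) ∧ (∀ m < n, c m a = c m b.1) ∧ c n a < c n b.1 := by
      intro s l hl
      obtain ⟨a, ha, b, hb, h1, h2, n, h3, h4⟩ := hcase s.1 s.2.1 l hl s.2.2
      refine ⟨a, ha, ⟨b, hb, fun m hm => ?_⟩, n, ?_, h2, h3, h4⟩
      · rw [h2 m (hm.trans_le hl), s.2.2 m hm]
      · by_contra hn
        push Not at hn
        rw [h1 n hn, h2 n hn] at h4
        exact lt_irrefl _ h4
    choose! A hA B L hL h1 h2 h3 using hstep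
    -- the sequence of states
    let seq : ℕ → St × ℕ := fun j => Nat.rec (⟨p, hp, fun _ _ => rfl⟩, k)
      (fun _ s => (B s.1 s.2, L s.1 s.2 + 1)) j
    have hseq : ∀ j, seq (j + 1) = (B (seq j).1 (seq j).2, L (seq j).1 (seq j).2 + 1) :=
      fun j => rfl
    have hk : ∀ j, k ≤ (seq j).2 := by
      intro j
      induction j with
      | zero => exact le_rfl
      | succ j ih =>
        rw [hseq]
        have := hL (seq j).1 (seq j).2 ih
        show k ≤ L (seq j).1 (seq j).2 + 1
        omega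
    have hlt : ∀ j, (seq j).2 < (seq (j + 1)).2 := by
      intro j
      rw [hseq]
      have := hL (seq j).1 (seq j).2 (hk j)
      show (seq j).2 < L (seq j).1 (seq j).2 + 1
      omega
    have hmono : StrictMono fun j => (seq j).2 := strictMono_nat_of_lt_succ hlt
    have hid : ∀ j, j ≤ (seq j).2 := fun j => hmono.le_apply
    -- stability
    have hst : ∀ j j', j ≤ j' → ∀ m < (seq j).2, c m (seq j').1.1 = c m (seq j).1.1 := by
      intro j j' hjj'
      induction j', hjj' using Nat.le_induction with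
      | base => intro m _; rfl
      | succ j' hj' ih =>
        intro m hm
        have h4 : m < (seq j').2 := hm.trans_le (hmono.monotone hj')
        have h5 : c m (B (seq j').1 (seq j').2).1 = c m (seq j').1.1 :=
          h1 (seq j').1 (seq j').2 (hk j') m h4
        rw [← ih m hm, ← h5]
    let y : ℕ → ι := fun m => c m (seq (m + 1)).1.1
    have hy : ∀ j, ∀ m < (seq j).2, y m = c m (seq j).1.1 := by
      intro j m hm
      rcases le_total j (m + 1) with h | h
      · exact hst j (m + 1) h m hm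
      · exact (hst (m + 1) j h m (lt_of_lt_of_le (Nat.lt_succ_self m) (hid (m + 1)))).symm
    let a : ℕ → X := fun j => A (seq j).1 (seq j).2
    let n : ℕ → ℕ := fun j => L (seq j).1 (seq j).2
    have haN : ∀ j, a j ∈ N := fun j => hA (seq j).1 (seq j).2 (hk j)
    have hnl : ∀ j, (seq j).2 ≤ n j := fun j => hL (seq j).1 (seq j).2 (hk j)
    have hay : ∀ j, ∀ m < n j, c m (a j) = y m := by
      intro j m hm
      rw [hy (j + 1) m (by rw [hseq]; exact Nat.lt_succ_of_lt hm)]
      exact h2 (seq j).1 (seq j).2 (hk j) m hm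
    have hay' : ∀ j, c (n j) (a j) < y (n j) := by
      intro j
      rw [hy (j + 1) (n j) (by rw [hseq]; exact Nat.lt_succ_self _)]
      exact h3 (seq j).1 (seq j).2 (hk j)
    refine ⟨⋃ j, N ∩ ⋂ m ∈ Finset.range (n j + 1), V m (c m (a j)),
      iUnion_subset fun j => inter_subset_left, isOpen_iUnion fun j => hopen _ _, y,
      ⟨?_, ?_⟩, ?_⟩
    · intro m
      refine ⟨a (m + 1), mem_iUnion.2 ⟨m + 1, hmem _ _ (haN (m + 1))⟩, fun m' hm' => ?_⟩
      refine hay (m + 1) m' ?_
      have h4 := hid (m + 1)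
      have h5 := hnl (m + 1)
      omega
    · intro m q hq hqy
      obtain ⟨j, hj⟩ := mem_iUnion.1 hq
      rcases lt_trichotomy m (n j) with h | h | h
      · rw [← hay j m h]
        exact hle _ _ _ m hj (by omega)
      · subst h
        exact (hle _ _ _ _ hj (Nat.lt_succ_self _)).trans (hay' j).le
      · exfalso
        have h4 := hqy (n j) h
        have h5 := hle _ _ _ (n j) hj (Nat.lt_succ_self _)
        rw [h4] at h5
        exact absurd (hay' j) (not_lt.2 h5)
    · intro m hm
      rw [hy 0 m hm]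
      rfl
  · -- a non-branching node
    push Not at hcase
    obtain ⟨q, hq, l, hl, hqk, hbr⟩ := hcase
    refine ⟨N ∩ ⋂ m ∈ Finset.range l, V m (c m q), inter_subset_left, hopen _ _,
      fun m => c m q, ⟨?_, ?_⟩, hqk⟩
    · intro m
      exact ⟨q, hmem _ _ hq, fun _ _ => rfl⟩
    · intro m q' hq' hm
      rcases lt_or_ge m l with h | h
      · exact hle _ _ _ m hq' h
      · by_contra hlt
        push Not at hlt
        exact hbr ⟨q, hq, q', hq'.1, fun _ _ => rfl, fun m' hm' => hm m' (hm'.trans_le h), m,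
          fun m' hm' => (hm m' hm').symm, hlt⟩

/-- the general theorem -/
theorem general [WellFoundedLT ι] (V : ℕ → ι → Set X) (hV : ∀ n i, IsOpen (V n i))
    (hcov : ∀ n (p : X), ∃ i, p ∈ V n i)
    (hcomp : ∀ (z : ℕ → ι) (O : ℕ → Set X), Antitone O →
      (∀ n, (O n ∩ ⋂ m ∈ Finset.range n, V m (z m)).Nonempty) → (⋂ n, closure (O n)).Nonempty) :
    ∃ ℬ : Set (Set X), TopologicalSpace.IsTopologicalBasis ℬ ∧ (∀ B ∈ ℬ, B.Nonempty) ∧
      ∀ B : ℕ → Set X, (∀ n, B n ∈ ℬ) → (∀ n, closure (B (n + 1)) ⊆ interior (B n)) →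
        (⋂ n, B n).Nonempty := by
  classical
  let c : ℕ → X → ι := fun n p => WellFounded.min wellFounded_lt {i | p ∈ V n i} (hcov n p)
  have hc : ∀ n p, p ∈ V n (c n p) := fun n p =>
    WellFounded.min_mem wellFounded_lt {i | p ∈ V n i} (hcov n p)
  have hcm : ∀ n p i, p ∈ V n i → c n p ≤ i := fun n p i hi =>
    not_lt.1 (WellFounded.not_lt_min wellFounded_lt {i | p ∈ V n i} hi)
  refine ⟨{O | IsOpen O ∧ ∃ y, Good c O y}, ?_, ?_, ?_⟩
  · refine TopologicalSpace.isTopologicalBasis_of_isOpen_of_nhds (fun O hO => hO.1) ?_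
    intro x N hx hN
    by_cases hcase : ∀ p ∈ N, ∀ n, (∀ m < n, c m p = c m x) → c n p ≤ c n x
    · exact ⟨N, ⟨hN, fun m => c m x, fun n => ⟨x, hx, fun _ _ => rfl⟩,
        fun n q hq h => hcase q hq n h⟩, hx, subset_rfl⟩
    · push Not at hcase
      obtain ⟨p, hp, Δ, h1, h2⟩ := hcase
      obtain ⟨S, hSN, hS, y, hy, hyp⟩ := exists_good_subset V hV c hc hcm N hN p hp (Δ + 1)
      have hyx : ∀ m < Δ, y m = c m x := fun m hm => by
        rw [hyp m (by omega), h1 m hm]
      have hyΔ : c Δ x < y Δ := by rw [hyp Δ (Nat.lt_succ_self _)]; exact h2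
      refine ⟨(N ∩ ⋂ m ∈ Finset.range (Δ + 1), V m (c m x)) ∪ S,
        ⟨(hN.inter (isOpen_biInter_finset fun m _ => hV m _)).union hS, y, ⟨?_, ?_⟩⟩,
        Or.inl ⟨hx, mem_iInter₂.2 fun m _ => hc m x⟩, union_subset inter_subset_left hSN⟩
      · intro n
        obtain ⟨q, hq, hqy⟩ := hy.1 n
        exact ⟨q, Or.inr hq, hqy⟩
      · rintro n q (hq | hq) hqy
        · have hle : ∀ m ≤ Δ, c m q ≤ c m x := fun m hm =>
            hcm m q _ (mem_iInter₂.1 hq.2 m (Finset.mem_range.2 (by omega)))
          rcases lt_trichotomy n Δ with h | h | h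
          · rw [hyx n h]
            exact hle n h.le
          · subst h
            exact (hle _ le_rfl).trans hyΔ.le
          · exfalso
            have h4 := hqy Δ h
            have h5 := hle Δ le_rfl
            rw [h4] at h5
            exact absurd hyΔ (not_lt.2 h5)
        · exact hy.2 n q hq hqy
  · rintro B ⟨-, y, hy⟩
    exact hy.nonempty
  · intro B hB hnest
    choose hBo y hy using hB
    have hsub : ∀ n, closure (B (n + 1)) ⊆ B n := fun n => (hnest n).trans interior_subset
    have hanti : Antitone B := antitone_nat_of_succ_le fun n => subset_closure.trans (hsub n)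
    obtain ⟨z, hz⟩ := exists_limit c B hanti y hy
    have h1 : (⋂ n, closure (B n)).Nonempty := by
      refine hcomp z B hanti fun n => ?_
      have h2 : ∀ᶠ i in atTop, ∀ m ∈ Finset.range n, y i m = z m :=
        (Filter.eventually_all_finset _).2 fun m _ => hz m
      obtain ⟨i, hi, hin⟩ := (h2.and (eventually_ge_atTop n)).exists
      obtain ⟨p, hp, hpy⟩ := (hy i).1 n
      refine ⟨p, hanti hin hp, mem_iInter₂.2 fun m hm => ?_⟩
      rw [← hi m hm, ← hpy m (Finset.mem_range.1 hm).le]
      exact hc m p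
    obtain ⟨x, hx⟩ := h1
    exact ⟨x, mem_iInter.2 fun n => hsub n (mem_iInter.1 hx (n + 1))⟩

end general

/-- conclusion of the main theorem -/
def SP (X : Type u) [TopologicalSpace X] : Prop :=
  ∃ ℬ : Set (Set X), TopologicalSpace.IsTopologicalBasis ℬ ∧ (∀ B ∈ ℬ, B.Nonempty) ∧
      ∀ B : ℕ → Set X, (∀ n, B n ∈ ℬ) → (∀ n, closure (B (n + 1)) ⊆ interior (B n)) →
        (⋂ n, B n).Nonempty

/-- version of `general` with covers given as predicates on open sets -/
theorem general' (X : Type u) [TopologicalSpace X] (P : ℕ → Set X → Prop)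
    (hcov : ∀ n (p : X), ∃ U, IsOpen U ∧ p ∈ U ∧ P n U)
    (hcomp : ∀ (U : ℕ → Set X) (O : ℕ → Set X), (∀ n, IsOpen (U n) ∧ P n (U n)) → Antitone O →
      (∀ n, (O n ∩ ⋂ m ∈ Finset.range n, U m).Nonempty) → (⋂ n, closure (O n)).Nonempty) :
    SP X := by
  classical
  obtain ⟨inst, hwf⟩ := exists_wellFoundedLT (Set X)
  refine @general X (Set X) inst _ hwf
    (fun n U => if IsOpen U ∧ P n U then U else ∅) ?_ ?_ ?_
  · intro n U
    show IsOpen (if IsOpen U ∧ P n U then U else ∅)
    split_ifs with h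
    · exact h.1
    · exact isOpen_empty
  · intro n p
    obtain ⟨U, hU, hpU, hPU⟩ := hcov n p
    exact ⟨U, by rw [if_pos ⟨hU, hPU⟩]; exact hpU⟩
  · intro z O hO hne
    refine hcomp z O ?_ hO ?_
    · intro n
      obtain ⟨p, -, hp⟩ := hne (n + 1)
      have h1 := mem_iInter₂.1 hp n (Finset.mem_range.2 (Nat.lt_succ_self n))
      by_contra hcon
      rw [if_neg hcon] at h1
      exact h1
    · intro n
      obtain ⟨p, hpO, hp⟩ := hne n
      refine ⟨p, hpO, mem_iInter₂.2 fun m hm => ?_⟩
      have h1 := mem_iInter₂.1 hp m hm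
      by_contra hcon
      split_ifs at h1 with h
      · exact hcon h1
      · exact h1

/-- Čech-complete spaces -/
theorem cech (X : Type u) [TopologicalSpace X] [T35Space X]
    (h : IsGδ (range (stoneCechUnit : X → StoneCech X))) : SP X := by
  obtain ⟨G, hGo, hG⟩ := isGδ_iff_eq_iInter_nat.1 h
  have hind : IsInducing (stoneCechUnit : X → StoneCech X) :=
    (isDenseInducing_stoneCechUnit).isInducing
  refine general' X (fun n U => closure (stoneCechUnit '' U) ⊆ G n) ?_ ?_
  · intro n p
    have hp : stoneCechUnit p ∈ G n := by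
      have : stoneCechUnit p ∈ range (stoneCechUnit : X → StoneCech X) := mem_range_self p
      rw [hG] at this
      exact mem_iInter.1 this n
    obtain ⟨W, hW, hWc, hWG⟩ := exists_mem_nhds_isClosed_subset ((hGo n).mem_nhds hp)
    obtain ⟨W', hW'W, hW'o, hpW'⟩ := mem_nhds_iff.1 hW
    refine ⟨stoneCechUnit ⁻¹' W', hW'o.preimage continuous_stoneCechUnit, hpW', ?_⟩
    refine (closure_minimal ?_ hWc).trans hWG
    rintro _ ⟨x, hx, rfl⟩
    exact hW'W hx
  · intro U O hU hO hne
    let F : ℕ → Set (StoneCech X) := fun n =>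
      closure (stoneCechUnit '' (O n ∩ ⋂ m ∈ Finset.range n, U m))
    have hF : (⋂ n, F n).Nonempty := by
      refine IsCompact.nonempty_iInter_of_sequence_nonempty_isCompact_isClosed F ?_ ?_ ?_ ?_
      · intro n
        refine closure_mono (image_mono ?_)
        refine inter_subset_inter (hO (Nat.le_succ n)) ?_
        exact biInter_subset_biInter_left (by
          intro m hm
          exact Finset.mem_range.2 ((Finset.mem_range.1 hm).trans (Nat.lt_succ_self n)))
      · intro n
        exact ((hne n).image _).closure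
      · exact isClosed_closure.isCompact
      · intro n
        exact isClosed_closure
    obtain ⟨ζ, hζ⟩ := hF
    have h1 : ζ ∈ range (stoneCechUnit : X → StoneCech X) := by
      rw [hG]
      refine mem_iInter.2 fun n => (hU n).2 ?_
      have h2 := mem_iInter.1 hζ (n + 1)
      refine closure_mono (image_mono ?_) h2
      intro x hx
      exact mem_iInter₂.1 hx.2 n (Finset.mem_range.2 (Nat.lt_succ_self n))
    obtain ⟨x, rfl⟩ := h1
    refine ⟨x, mem_iInter.2 fun n => ?_⟩
    rw [hind.closure_eq_preimage_closure_image]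
    exact closure_mono (image_mono inter_subset_left) (mem_iInter.1 hζ n)

/-- completely metrizable spaces -/
theorem metr (X : Type u) [TopologicalSpace X] [TopologicalSpace.IsCompletelyMetrizableSpace X] :
    SP X := by
  let _ := TopologicalSpace.upgradeIsCompletelyMetrizable X
  refine general' X (fun n U => ∃ x : X, U ⊆ Metric.ball x ((1 / 2 : ℝ) ^ n)) ?_ ?_
  · intro n p
    exact ⟨Metric.ball p ((1 / 2 : ℝ) ^ n), Metric.isOpen_ball,
      Metric.mem_ball_self (by positivity), p, subset_rfl⟩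
  · intro U O hU hO hne
    choose p hpO hpU using hne
    have hc : CauchySeq p := by
      rw [Metric.cauchySeq_iff]
      intro ε hε
      obtain ⟨k, hk⟩ := exists_pow_lt_of_lt_one (half_pos hε) (by norm_num : (1 / 2 : ℝ) < 1)
      refine ⟨k + 1, fun m hm n hn => ?_⟩
      obtain ⟨x, hx⟩ := (hU k).2
      have h1 : p m ∈ U k := mem_iInter₂.1 (hpU m) k (Finset.mem_range.2 (by omega))
      have h2 : p n ∈ U k := mem_iInter₂.1 (hpU n) k (Finset.mem_range.2 (by omega))
      have h3 := Metric.mem_ball.1 (hx h1)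
      have h4 := Metric.mem_ball.1 (hx h2)
      calc dist (p m) (p n) ≤ dist (p m) x + dist (p n) x := dist_triangle_right _ _ _
        _ < ε := by linarith
    obtain ⟨x, hx⟩ := cauchySeq_tendsto_of_complete hc
    refine ⟨x, mem_iInter.2 fun n => ?_⟩
    refine mem_closure_of_tendsto hx ?_
    filter_upwards [eventually_ge_atTop n] with m hm
    exact hO hm (hpO m)

end Pool.Agent.N485.TP
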